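import Pool.Agent.Run7.h354.BE.Defs
import Pool.Agent.Helper445_GMF.Mass

/-!
# The abstract setting
-/

set_option autoImplicit false
set_option linter.unusedSectionVars false
set_option linter.unusedVariables false

open CategoryTheory CategoryTheory.Limits Pretriangulated Triangulated Complex ZeroObject
open Pool.Agent.Helper445_GMF

namespace Run7.h354.BE

universe v u v' u'

/-- The category of gradings of one elliptic curve. -/
structure Gr (τ : ℂ) : Type where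
  /-- the grading -/
  deg : Gam

instance (τ : ℂ) : Category.{0} (Gr τ) where
  Hom a b := V τ (b.deg - a.deg)
  id a := ⟨1, by simpa using V_one⟩
  comp {a b c} f g := ⟨g.1 * f.1, by
    have h := V_mul g.2 f.2
    rwa [sub_add_sub_cancel] at h⟩
  id_comp f := Subtype.ext (mul_one _)
  comp_id f := Subtype.ext (one_mul _)
  assoc f g h := Subtype.ext (mul_assoc _ _ _).symm

instance (τ : ℂ) : Preadditive (Gr τ) where
  homGroup a b := inferInstanceAs (AddCommGroup (V τ (b.deg - a.deg)))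
  add_comp _ _ _ f f' g := Subtype.ext (mul_add _ _ _)
  comp_add _ _ _ f g g' := Subtype.ext (add_mul _ _ _)

instance (τ : ℂ) : Linear ℂ (Gr τ) where
  homModule a b := inferInstanceAs (Module ℂ (V τ (b.deg - a.deg)))
  smul_comp _ _ _ r f g := Subtype.ext (mul_smul_comm _ _ _)
  comp_smul _ _ _ f r g := Subtype.ext (smul_mul_assoc _ _ _)

/-- multiplication by a theta function as a morphism of degrees -/
def gm {τ : ℂ} {a b : Gam} (f : ℂ → ℂ) (hf : f ∈ V τ (b - a)) : (⟨a⟩ : Gr τ) ⟶ ⟨b⟩ :=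
  (⟨f, hf⟩ : V τ (b - a))

/-- The constant `c` of the theta functions of degree one which vanish at `a`:
`f (z + τ) = - exp (2 π i a) exp (-2 π i z) f z`. -/
noncomputable def gu (a : ℂ) : Gam :=
  (1, Additive.ofMul (-Units.mk0 (exp (2 * Real.pi * I * a)) (exp_ne_zero _)))

/-- the grading `(0, c)` -/
def g0 (c : ℂˣ) : Gam := (0, Additive.ofMul c)

/-- Congruence modulo the lattice. -/
def Cg (τ a b : ℂ) : Prop := ∃ m n : ℤ, a - b = m + n * τ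

section

variable (τ : ℂ) (C : Type u) [Category.{v} C] [Preadditive C] [Linear ℂ C] [HasZeroObject C]
  [HasShift C ℤ] [∀ n : ℤ, (shiftFunctor C n).Additive] [Pretriangulated C]

/-- An action of the graded ring of theta functions of the elliptic curve `ℂ / (ℤ + ℤ τ)` on a
triangulated category. -/
structure EA where
  /-- the twists and the action of the theta functions -/
  Φ : Gr τ ⥤ (C ⥤ C)
  lin : ∀ {a b : Gr τ} (r : ℂ) (f g : a ⟶ b), Φ.map (r • f + g) = r • Φ.map f + Φ.map g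
  /-- the twists are triangulated functors -/
  add : ∀ a, (Φ.obj a).Additive
  tri : ∀ a (T : Triangle C), T ∈ distTriang C → ∃ h, Triangle.mk ((Φ.obj a).map T.mor₁)
    ((Φ.obj a).map T.mor₂) h ∈ distTriang C
  /-- the composition of twists -/
  comp : ∀ a b : Gam, Φ.obj ⟨a⟩ ⋙ Φ.obj ⟨b⟩ ≅ Φ.obj ⟨a + b⟩
  comp_nat : ∀ (a b b' : Gam) (f : ℂ → ℂ) (hf : f ∈ V τ (b' - b))
    (hf' : f ∈ V τ (a + b' - (a + b))) (G : C),
    (Φ.map (gm f hf)).app ((Φ.obj ⟨a⟩).obj G) ≫ (comp a b').hom.app G =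
      (comp a b).hom.app G ≫ (Φ.map (gm f hf')).app G
  zero : Φ.obj ⟨0⟩ ≅ 𝟭 C
  /-- the Koszul triangles of two theta functions without common zeros -/
  kt : ∀ (G : C) (a : Gam) (γ δ : Gam) (f g : ℂ → ℂ) (hf : f ∈ V τ γ) (hg : g ∈ V τ δ)
    (_ : ∀ z, f z ≠ 0 ∨ g z ≠ 0) (hf1 : f ∈ V τ (a + γ - a)) (hg1 : g ∈ V τ (a + δ - a))
    (hf2 : f ∈ V τ (a + γ + δ - (a + δ))) (hg2 : g ∈ V τ (a + γ + δ - (a + γ))),
    ∃ h, Triangle.mk
      (biprod.lift ((Φ.map (gm f hf1)).app G) ((Φ.map (gm g hg1)).app G))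
      (biprod.desc ((Φ.map (gm g hg2)).app G) (-(Φ.map (gm f hf2)).app G)) h ∈ distTriang C
  /-- the Hilbert-Burch triangles -/
  hb : ∀ (G : C) (a γ₁ γ₂ δ : Gam) (u₁ u₂ w₁ w₂ : ℂ → ℂ)
    (hu₁ : u₁ ∈ V τ γ₁) (hu₂ : u₂ ∈ V τ γ₂) (hw₁ : w₁ ∈ V τ (δ - γ₂)) (hw₂ : w₂ ∈ V τ (δ - γ₁))
    (_ : ∀ z, u₁ z * u₂ z ≠ 0 ∨ u₁ z * w₂ z ≠ 0 ∨ u₂ z * w₁ z ≠ 0)
    (h1 : u₂ * w₁ ∈ V τ (a + δ - a)) (h2 : u₁ * w₂ ∈ V τ (a + δ - a))
    (h3 : u₁ * u₂ ∈ V τ (a + δ - (a + δ - γ₁ - γ₂))),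
    ∃ (f : (Φ.obj ⟨a - γ₁⟩).obj G ⊞ (Φ.obj ⟨a - γ₂⟩).obj G ⟶
      ((Φ.obj ⟨a⟩).obj G ⊞ (Φ.obj ⟨a⟩).obj G) ⊞ (Φ.obj ⟨a + δ - γ₁ - γ₂⟩).obj G) (h : _),
      Triangle.mk f (biprod.desc (biprod.desc ((Φ.map (gm (u₂ * w₁) h1)).app G)
        ((Φ.map (gm (u₁ * w₂) h2)).app G)) ((Φ.map (gm (u₁ * u₂) h3)).app G)) h ∈ distTriang C
  /-- a theta function without zero on the support is invertible -/
  kos : ∀ (G : C) (a b : Gam) (f g : ℂ → ℂ) (hf : f ∈ V τ (a - 0)) (hg : g ∈ V τ (b - 0))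
    (_ : ∀ z, f z ≠ 0 ∨ g z ≠ 0), (Φ.map (gm f hf)).app G = 0 → IsIso ((Φ.map (gm g hg)).app G)

end

section

variable {C : Type u} [Category.{v} C] [Preadditive C] [Linear ℂ C] [HasZeroObject C]
  [HasShift C ℤ] [∀ n : ℤ, (shiftFunctor C n).Additive] [Pretriangulated C]

/-- The twist of an object. -/
abbrev EA.tw {τ : ℂ} (E : EA τ C) (γ : Gam) (G : C) : C := (E.Φ.obj ⟨γ⟩).obj G

/-- The action of a theta function on an object. -/
abbrev EA.act {τ : ℂ} (E : EA τ C) {a b : Gam} (f : ℂ → ℂ) (hf : f ∈ V τ (b - a)) (G : C) :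
    E.tw a G ⟶ E.tw b G := (E.Φ.map (gm f hf)).app G

/-- The support property, for some finitely generated lattice. -/
def Support (σ : PreStab C) : Prop :=
  ∃ (n : ℕ) (v : C → Fin n → ℤ) (l : (Fin n → ℝ) →ₗ[ℝ] ℂ) (K : ℝ),
    (∀ T ∈ distTriang C, v T.obj₂ = v T.obj₁ + v T.obj₃) ∧
    (∀ X, σ.Z X = l (fun i => (v X i : ℝ))) ∧
    ∀ φ X, σ.P φ X → ∀ i, |(v X i : ℝ)| ≤ K * ‖σ.Z X‖

/-- The masses of the nonzero semistable objects are bounded below. -/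
def Gap (σ : PreStab C) : Prop :=
  ∃ m : ℝ, 0 < m ∧ ∀ φ X, σ.P φ X → ¬ IsZero X → m ≤ ‖σ.Z X‖

/-- The properties of the theta functions of degree one. -/
structure TH (τ : ℂ) (u : ℂ → ℂ → ℂ) : Prop where
  mem : ∀ a, u a ∈ V τ (gu a)
  zero : ∀ a z, u a z = 0 ↔ Cg τ z a
  div : ∀ (a : ℂ) (γ : Gam) (f : ℂ → ℂ), f ∈ V τ γ → f a = 0 → ∃ g ∈ V τ (γ - gu a), f = u a * g
  neg : ∀ (γ : Gam) (f : ℂ → ℂ), f ∈ V τ γ → γ.1 < 0 → f = 0
  deg0 : ∀ (γ : Gam) (f : ℂ → ℂ), f ∈ V τ γ → γ.1 = 0 → f ≠ 0 →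
    ∃ (k : ℤ) (r : ℂ), r ≠ 0 ∧ ∀ z, f z = r * exp (2 * Real.pi * I * k * z)
  pos : ∀ (γ : Gam) (f : ℂ → ℂ), f ∈ V τ γ → 0 < γ.1 → ∃ a, f a = 0
  fin : ∀ γ : Gam, Module.Finite ℂ (V τ γ)

end

end Run7.h354.BE
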