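import Pool.Agent.Run7.h354.BE.Defs

/-!
# The derived categories of `E × F` and of the bielliptic surface `S = (E × F) / G`
-/

set_option autoImplicit false

open CategoryTheory CategoryTheory.Limits Complex ZeroObject

namespace Run7.h354.BE

universe w₁ w₂

variable {τ τ' : ℂ}

theorem e_false {a b : Ob τ τ' false} (φ : a ⟶ b) : (φ : Mor a b).e = false := by
  have h := (φ : Mor a b).he
  cases h1 : (φ : Mor a b).e
  · rfl
  · exact absurd (h h1) (by decide)

theorem f_mem {a b : Ob τ τ' false} (φ : a ⟶ b) : (φ : Mor a b).f ∈ W τ τ' (b.deg - a.deg) := by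
  have h := (φ : Mor a b).mem
  rw [e_false φ] at h
  exact h

theorem comp_f' {a b c : Ob τ τ' false} (φ : a ⟶ b) (ψ : b ⟶ c) :
    (φ ≫ ψ : Mor a c).f = (ψ : Mor b c).f * (φ : Mor a b).f := by
  rw [comp_f, e_false ψ]; rfl

/-- The line bundle `O(a)⁻¹` on `E × F`: the free module with one generator of degree `a`. -/
noncomputable def freeF (τ τ' : ℂ) (a : Gam2) : Ob τ τ' false ⥤ ModuleCat.{0} ℂ where
  obj b := ModuleCat.of ℂ (W τ τ' (b.deg - a))
  map {b c} φ := ModuleCat.ofHom
    { toFun := fun f => ⟨(φ : Mor b c).f * f.1, by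
        have h := W_mul (f_mem φ) f.2
        rwa [sub_add_sub_cancel] at h⟩
      map_add' := fun f g => Subtype.ext (mul_add _ _ _)
      map_smul' := fun c f => Subtype.ext (mul_smul_comm _ _ _) }
  map_id b := ModuleCat.hom_ext (LinearMap.ext fun f => Subtype.ext (one_mul _))
  map_comp {b c d} φ ψ := by
    refine ModuleCat.hom_ext (LinearMap.ext fun f => Subtype.ext ?_)
    show (φ ≫ ψ : Mor b d).f * f.1 = (ψ : Mor c d).f * ((φ : Mor b c).f * f.1)
    rw [comp_f', mul_assoc]

/-- The line bundle `O(a)⁻¹` on `E × F`. -/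
noncomputable def free (τ τ' : ℂ) (a : Gam2) : GM τ τ' false :=
  ⟨freeF τ τ' a, by
    intro b c e he r f g hf hg
    refine ModuleCat.hom_ext (LinearMap.ext fun h => Subtype.ext ?_)
    show (r • f + g) * h.1 = r • (f * h.1) + g * h.1
    rw [add_mul, smul_mul_assoc]⟩

/-- The skyscraper sheaf of `E × F` at the point `x`. -/
noncomputable def ptF (τ τ' : ℂ) (x : ℂ × ℂ) : Ob τ τ' false ⥤ ModuleCat.{0} ℂ where
  obj _ := ModuleCat.of ℂ ℂ
  map {b c} φ := ModuleCat.ofHom ((φ : Mor b c).f x • LinearMap.id)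
  map_id b := by
    ext
    show (1 : ℂ) * 1 = 1
    rw [one_mul]
  map_comp {b c d} φ ψ := by
    ext
    show (φ ≫ ψ : Mor b d).f x * 1 = (ψ : Mor c d).f x * ((φ : Mor b c).f x * 1)
    rw [comp_f', Pi.mul_apply, mul_assoc]

/-- The skyscraper sheaf of `E × F` at the point `x`. -/
noncomputable def pt (τ τ' : ℂ) (x : ℂ × ℂ) : GM τ τ' false :=
  ⟨ptF τ τ' x, by
    intro b c e he r f g hf hg
    ext
    show (r * f x + g x) * (1 : ℂ) = r * (f x * 1) + g x * 1
    ring⟩

/-- The inclusion of the category of degrees of `E × F` in the one of `S`. -/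
noncomputable def incl (τ τ' : ℂ) : Ob τ τ' false ⥤ Ob τ τ' true where
  obj a := ⟨a.deg⟩
  map {a b} φ := (⟨(φ : Mor a b).e, fun _ => rfl, (φ : Mor a b).f, (φ : Mor a b).mem⟩ :
    Mor (⟨a.deg⟩ : Ob τ τ' true) ⟨b.deg⟩)
  map_id _ := rfl
  map_comp _ _ := rfl

/-- The inverse image from `S` to `E × F`: it forgets the action of the involution. -/
noncomputable def res (τ τ' : ℂ) : GM τ τ' true ⥤ GM τ τ' false :=
  ObjectProperty.lift _ ((lin τ τ' true).ι ⋙ (Functor.whiskeringLeft _ _ _).obj (incl τ τ')) (by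
    intro M a b e he c f g hf hg
    exact M.property ⟨a.deg⟩ ⟨b.deg⟩ e (fun _ => rfl) c f g hf hg)

theorem mul_apply {s : Bool} (N : Ob τ τ' s ⥤ ModuleCat.{0} ℂ) {a b c : Ob τ τ' s}
    {f g k : ℂ × ℂ → ℂ} (hf : f ∈ W τ τ' (b.deg - a.deg)) (hg : g ∈ W τ τ' (c.deg - b.deg))
    (hk : k ∈ W τ τ' (c.deg - a.deg)) (h : k = g * f) (x : N.obj a) :
    N.map (mul k hk) x = N.map (mul g hg) (N.map (mul f hf) x) := by
  have h1 : mul k hk = mul f hf ≫ mul g hg := Mor.ext rfl h
  rw [h1, N.map_comp]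
  rfl

/-- The direct image from `E × F` to `S` at the level of functors. -/
noncomputable def dirF (N : Ob τ τ' false ⥤ ModuleCat.{0} ℂ) : Ob τ τ' true ⥤ ModuleCat.{0} ℂ where
  obj a := ModuleCat.of ℂ (N.obj ⟨a.deg⟩ × N.obj ⟨invG τ' true a.deg⟩)
  map {a b} φ := ModuleCat.ofHom (
    match (φ : Mor a b).e, (φ : Mor a b).mem with
    | false, h =>
      LinearMap.prodMap
        (N.map (mul (a := (⟨a.deg⟩ : Ob τ τ' false)) (b := ⟨b.deg⟩) (φ : Mor a b).f h)).hom
        (N.map (mul (a := (⟨invG τ' true a.deg⟩ : Ob τ τ' false)) (b := ⟨invG τ' true b.deg⟩)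
          ((φ : Mor a b).f ∘ inv true) (by
            have h1 := W_inv h true
            rwa [invG_sub, invG_false] at h1))).hom
    | true, h =>
      LinearMap.prod
        ((N.map (mul (a := (⟨invG τ' true a.deg⟩ : Ob τ τ' false)) (b := ⟨b.deg⟩)
          (φ : Mor a b).f h)).hom.comp (LinearMap.snd ℂ _ _))
        ((N.map (mul (a := (⟨a.deg⟩ : Ob τ τ' false)) (b := ⟨invG τ' true b.deg⟩)
          ((φ : Mor a b).f ∘ inv true) (by
            have h1 := W_inv h true
            rwa [invG_sub, invG_invG] at h1))).hom.comp (LinearMap.fst ℂ _ _)))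
  map_id a := by
    refine ModuleCat.hom_ext (LinearMap.ext fun x => Prod.ext ?_ ?_)
    · exact LinearMap.congr_fun (congrArg ModuleCat.Hom.hom (N.map_id ⟨a.deg⟩)) x.1
    · exact LinearMap.congr_fun (congrArg ModuleCat.Hom.hom (N.map_id ⟨invG τ' true a.deg⟩)) x.2
  map_comp {a b c} φ ψ := by
    obtain ⟨e, he, f, hf⟩ := φ
    obtain ⟨e', he', g, hg⟩ := ψ
    cases e <;> cases e'
    · refine ModuleCat.hom_ext (LinearMap.ext fun x => Prod.ext ?_ ?_)
      · exact mul_apply N _ _ _ rfl x.1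
      · exact mul_apply N _ _ _ rfl x.2
    · refine ModuleCat.hom_ext (LinearMap.ext fun x => Prod.ext ?_ ?_)
      · exact mul_apply N _ _ _ rfl x.2
      · exact mul_apply N _ _ _ (funext fun p => by
          show g (inv true p) * f (inv true (inv true p)) = g (inv true p) * f p
          rw [W_inv_inv hf]; rfl) x.1
    · refine ModuleCat.hom_ext (LinearMap.ext fun x => Prod.ext ?_ ?_)
      · exact mul_apply N _ _ _ rfl x.2
      · exact mul_apply N _ _ _ rfl x.1
    · refine ModuleCat.hom_ext (LinearMap.ext fun x => Prod.ext ?_ ?_)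
      · exact mul_apply N _ _ _ rfl x.1
      · exact mul_apply N _ _ _ (funext fun p => by
          show g (inv true p) * f (inv true (inv true p)) = g (inv true p) * f p
          rw [W_inv_inv hf]; rfl) x.2

theorem dirF_false (N : Ob τ τ' false ⥤ ModuleCat.{0} ℂ) {a b : Ob τ τ' true} (he : false = true → true = true)
    (f : ℂ × ℂ → ℂ) (hf : f ∈ W τ τ' (b.deg - invG τ' false a.deg))
    (x : N.obj ⟨a.deg⟩ × N.obj ⟨invG τ' true a.deg⟩) :
    (dirF N).map (mk false he f hf) x =
      (N.map (mul (a := (⟨a.deg⟩ : Ob τ τ' false)) (b := ⟨b.deg⟩) f hf) x.1,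
      N.map (mul (a := (⟨invG τ' true a.deg⟩ : Ob τ τ' false)) (b := ⟨invG τ' true b.deg⟩)
          (f ∘ inv true) (by
            have h1 := W_inv hf true
            rwa [invG_sub, invG_false] at h1)) x.2) := rfl

theorem dirF_true (N : Ob τ τ' false ⥤ ModuleCat.{0} ℂ) {a b : Ob τ τ' true} (he : true = true → true = true)
    (f : ℂ × ℂ → ℂ) (hf : f ∈ W τ τ' (b.deg - invG τ' true a.deg))
    (x : N.obj ⟨a.deg⟩ × N.obj ⟨invG τ' true a.deg⟩) :
    (dirF N).map (mk true he f hf) x =
      (N.map (mul (a := (⟨invG τ' true a.deg⟩ : Ob τ τ' false)) (b := ⟨b.deg⟩) f hf) x.2,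
      N.map (mul (a := (⟨a.deg⟩ : Ob τ τ' false)) (b := ⟨invG τ' true b.deg⟩)
          (f ∘ inv true) (by
            have h1 := W_inv hf true
            rwa [invG_sub, invG_invG] at h1)) x.1) := rfl

theorem lin_mul {s : Bool} {N : Ob τ τ' s ⥤ ModuleCat.{0} ℂ} (hN : lin τ τ' s N) {a b : Ob τ τ' s}
    (c : ℂ) {f g k : ℂ × ℂ → ℂ} (hf : f ∈ W τ τ' (b.deg - a.deg))
    (hg : g ∈ W τ τ' (b.deg - a.deg)) (hk : k ∈ W τ τ' (b.deg - a.deg)) (h : k = c • f + g)
    (x : N.obj a) : N.map (mul k hk) x = c • N.map (mul f hf) x + N.map (mul g hg) x := by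
  subst h
  exact LinearMap.congr_fun (congrArg ModuleCat.Hom.hom
    (hN a b false (fun h => by simp at h) c f g hf hg)) x

/-- The direct image from `E × F` to `S`. -/
noncomputable def dir (τ τ' : ℂ) : GM τ τ' false ⥤ GM τ τ' true where
  obj N := ⟨dirF N.obj, by
    intro a b e he c f g hf hg
    cases e
    · refine ModuleCat.hom_ext (LinearMap.ext fun x => Prod.ext ?_ ?_)
      · exact lin_mul N.property c _ _ _ rfl x.1
      · exact lin_mul N.property c _ _ _ rfl x.2
    · refine ModuleCat.hom_ext (LinearMap.ext fun x => Prod.ext ?_ ?_)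
      · exact lin_mul N.property c _ _ _ rfl x.2
      · exact lin_mul N.property c _ _ _ rfl x.1⟩
  map {N N'} u := (lin τ τ' true).homMk
    { app := fun a => ModuleCat.ofHom (LinearMap.prodMap (u.hom.app ⟨a.deg⟩).hom
        (u.hom.app ⟨invG τ' true a.deg⟩).hom)
      naturality := by
        intro a b φ
        obtain ⟨e, he, f, hf⟩ := φ
        cases e
        · refine ModuleCat.hom_ext (LinearMap.ext fun x => Prod.ext ?_ ?_)
          · exact nat_apply u.hom _ x.1
          · exact nat_apply u.hom _ x.2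
        · refine ModuleCat.hom_ext (LinearMap.ext fun x => Prod.ext ?_ ?_)
          · exact nat_apply u.hom _ x.2
          · exact nat_apply u.hom _ x.1 }
  map_id _ := rfl
  map_comp _ _ := rfl

/-- The skyscraper sheaf of `S` at the image of the point `x` of `E × F`. -/
noncomputable def ptS (τ τ' : ℂ) (x : ℂ × ℂ) : GM τ τ' true := (dir τ τ').obj (pt τ τ' x)

instance : (dir τ τ').Additive where
  map_add {X Y f g} := by
    refine ObjectProperty.hom_ext _ ?_
    rfl

instance : (res τ τ').Additive where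
  map_add {X Y f g} := by
    refine ObjectProperty.hom_ext _ ?_
    rfl

instance : (dir τ τ').Linear ℂ where
  map_smul {X Y f r} := by
    refine ObjectProperty.hom_ext _ ?_
    rfl

instance : (res τ τ').Linear ℂ where
  map_smul {X Y f r} := by
    refine ObjectProperty.hom_ext _ ?_
    rfl

theorem exact_of_apply {s : Bool} {S : ShortComplex (Ob τ τ' s ⥤ ModuleCat.{0} ℂ)}
    (h : ∀ (m : Ob τ τ' s) (x : S.X₂.obj m), S.g.app m x = 0 → ∃ y : S.X₁.obj m, S.f.app m y = x) :
    S.Exact := by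
  rw [ShortComplex.exact_iff_isZero_homology, Functor.isZero_iff]
  intro m
  let E := (evaluation (Ob τ τ' s) (ModuleCat.{0} ℂ)).obj m
  have h1 : (S.map E).Exact := by
    rw [ShortComplex.moduleCat_exact_iff]
    exact h m
  rw [ShortComplex.exact_iff_isZero_homology] at h1
  exact h1.of_iso (S.mapHomologyIso E).symm

/-- Exactness in the category of graded modules. -/
theorem gm_exact_iff {s : Bool} (S : ShortComplex (GM τ τ' s)) :
    S.Exact ↔ ∀ (m : Ob τ τ' s) (x : S.X₂.obj.obj m), S.g.hom.app m x = 0 →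
      ∃ y : S.X₁.obj.obj m, S.f.hom.app m y = x := by
  rw [← S.exact_map_iff_of_faithful (lin τ τ' s).ι]
  exact ⟨fun h m x hx => exact_apply h m x hx, fun h => exact_of_apply h⟩

theorem exact_res : PreservesFiniteLimits (res τ τ') ∧ PreservesFiniteColimits (res τ τ') := by
  refine ((Functor.exact_tfae (res τ τ')).out 1 3).1 fun S hS => ?_
  rw [gm_exact_iff] at hS ⊢
  exact fun m x hx => hS ⟨m.deg⟩ x hx

instance : PreservesFiniteLimits (res τ τ') := exact_res.1
instance : PreservesFiniteColimits (res τ τ') := exact_res.2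

theorem exact_dir : PreservesFiniteLimits (dir τ τ') ∧ PreservesFiniteColimits (dir τ τ') := by
  refine ((Functor.exact_tfae (dir τ τ')).out 1 3).1 fun S hS => ?_
  rw [gm_exact_iff] at hS ⊢
  intro m x hx
  obtain ⟨y, hy⟩ := hS ⟨m.deg⟩ x.1 (congrArg Prod.fst hx)
  obtain ⟨y', hy'⟩ := hS ⟨invG τ' true m.deg⟩ x.2 (congrArg Prod.snd hx)
  exact ⟨(y, y'), Prod.ext hy hy'⟩

instance : PreservesFiniteLimits (dir τ τ') := exact_dir.1
instance : PreservesFiniteColimits (dir τ τ') := exact_dir.2

theorem tors_res {M : GM τ τ' true} (hM : tors τ τ' true M) : tors τ τ' false ((res τ τ').obj M) := by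
  intro a x z w
  exact hM ⟨a.deg⟩ x z w

theorem res_tors {M : GM τ τ' true} (hM : tors τ τ' false ((res τ τ').obj M)) : tors τ τ' true M := by
  intro a x z w
  exact hM ⟨a.deg⟩ x z w

theorem V_half {γ : Gam} {g : ℂ → ℂ} (hg : g ∈ V τ γ) :
    (fun z => g (z + 1 / 2)) ∈ V τ (γ.1, γ.2 + Additive.ofMul ((-1 : ℂˣ) ^ γ.1)) := by
  have h := W_inv (W_pr (τ' := τ) hg (V_one (τ := τ))) true
  refine ⟨hg.1.comp (differentiable_id.add_const _), fun z => ?_, fun z => ?_⟩
  · have := h.2.1 z 0
    simpa [pr] using this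
  · have := h.2.2.2.1 z 0
    simpa [pr, invG] using this

theorem V_neg {δ : Gam} {h : ℂ → ℂ} (hh : h ∈ V τ' δ) :
    (fun w => h (-w)) ∈ V τ' (δ.1, -δ.2 + Additive.ofMul
      (Units.mk0 (exp (-(2 * Real.pi * I * δ.1 * τ'))) (exp_ne_zero _))) := by
  have h := W_inv (W_pr (τ := τ') (V_one (τ := τ')) hh) true
  refine ⟨hh.1.comp differentiable_neg, fun w => ?_, fun w => ?_⟩
  · have := h.2.2.1 0 w
    simpa [pr] using this
  · have := h.2.2.2.2 0 w
    simpa [pr, invG] using this

theorem kill {s : Bool} (N : Ob τ τ' s ⥤ ModuleCat.{0} ℂ) {a b : Ob τ τ' s} {γ δ : Gam}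
    {g h : ℂ → ℂ} (hg : g ∈ V τ γ) (hh : h ∈ V τ' δ) {x : N.obj a}
    (hx : N.map (mulP a hg hh) x = 0) (k k' : ℂ × ℂ → ℂ) (hk : k ∈ W τ τ' (b.deg - a.deg))
    (hk' : k' ∈ W τ τ' (b.deg - (a.deg + (γ, δ)))) (e : k = k' * pr g h) :
    N.map (mul k hk) x = 0 := by
  have h0 : pr g h ∈ W τ τ' ((⟨a.deg + (γ, δ)⟩ : Ob τ τ' s).deg - a.deg) := by
    show _ ∈ W τ τ' (a.deg + (γ, δ) - a.deg)
    rw [add_sub_cancel_left]
    exact W_pr hg hh
  have hx' : N.map (mul (pr g h) h0) x = 0 := hx
  rw [mul_apply N h0 hk' hk e, hx', map_zero]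

theorem tors_dir {N : GM τ τ' false} (hN : tors τ τ' false N) :
    tors τ τ' true ((dir τ τ').obj N) := by
  intro a x z w
  obtain ⟨γ, δ, g, h, hg, hh, h1, h2, h3⟩ := hN ⟨a.deg⟩ x.1 z w
  obtain ⟨γ', δ', g', h', hg', hh', h1', h2', h3'⟩ := hN ⟨invG τ' true a.deg⟩ x.2 (z + 1 / 2) (-w)
  obtain ⟨A, hA⟩ : ∃ A : Gam, A = (γ'.1, γ'.2 + Additive.ofMul ((-1 : ℂˣ) ^ γ'.1)) := ⟨_, rfl⟩
  obtain ⟨B, hB⟩ : ∃ B : Gam, B = (δ'.1, -δ'.2 + Additive.ofMul
      (Units.mk0 (exp (-(2 * Real.pi * I * δ'.1 * τ'))) (exp_ne_zero _))) := ⟨_, rfl⟩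
  have e1 : (A, B) = invG τ' true (γ', δ') := by rw [hA, hB]; rfl
  have vA : (fun z => g' (z + 1 / 2)) ∈ V τ A := by rw [hA]; exact V_half hg'
  have vB : (fun w => h' (-w)) ∈ V τ' B := by rw [hB]; exact V_neg hh'
  refine ⟨γ + A, δ + B, g * (fun z => g' (z + 1 / 2)), h * (fun w => h' (-w)), V_mul hg vA,
    V_mul hh vB, mul_ne_zero h1 h1', mul_ne_zero h2 h2', Prod.ext ?_ ?_⟩
  · refine kill N.obj hg hh h3 _ (pr (fun z => g' (z + 1 / 2)) (fun w => h' (-w))) _ ?_ ?_
    · show _ ∈ W τ τ' (a.deg + (γ + A, δ + B) - (a.deg + (γ, δ)))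
      rw [show a.deg + (γ + A, δ + B) - (a.deg + (γ, δ)) = (A, B) by
        rw [show (γ + A, δ + B) = (γ, δ) + (A, B) from rfl]; abel]
      exact W_pr vA vB
    · funext p
      show (g p.1 * g' (p.1 + 1 / 2)) * (h p.2 * h' (-p.2)) =
        (g' (p.1 + 1 / 2) * h' (-p.2)) * (g p.1 * h p.2)
      ring
  · refine kill N.obj hg' hh' h3' _ (pr g h ∘ inv true) _ ?_ ?_
    · show _ ∈ W τ τ' (invG τ' true (a.deg + (γ + A, δ + B)) - (invG τ' true a.deg + (γ', δ')))
      rw [show invG τ' true (a.deg + (γ + A, δ + B)) - (invG τ' true a.deg + (γ', δ')) =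
        invG τ' true (γ, δ) by
        rw [show (γ + A, δ + B) = (γ, δ) + (A, B) from rfl, invG_add, invG_add, e1, invG_invG]
        show invG τ' true a.deg + (invG τ' true (γ, δ) + (γ', δ')) -
          (invG τ' true a.deg + (γ', δ')) = _
        abel]
      exact W_inv (W_pr hg hh) true
    · funext p
      show (g (p.1 + 1 / 2) * g' (p.1 + 1 / 2 + 1 / 2)) * (h (-p.2) * h' (- -p.2)) =
        (g (p.1 + 1 / 2) * h (-p.2)) * (g' p.1 * h' p.2)
      rw [neg_neg, add_assoc p.1, show (1 / 2 + 1 / 2 : ℂ) = 1 by norm_num, hg'.2.1]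
      ring

theorem inverts_res : (tors τ τ' true).isoModSerre.IsInvertedBy (res τ τ' ⋙ sh τ τ' false) := by
  have : PreservesFiniteLimits (res τ τ' ⋙ sh τ τ' false) := comp_preservesFiniteLimits _ _
  have : PreservesFiniteColimits (res τ τ' ⋙ sh τ τ' false) := comp_preservesFiniteColimits _ _
  rw [ObjectProperty.isoModSerre_isInvertedBy_iff]
  intro M hM
  exact (ObjectProperty.SerreClassLocalization.isZero_obj_iff (sh τ τ' false)
    (tors τ τ' false) _).2 (tors_res hM)

theorem inverts_dir : (tors τ τ' false).isoModSerre.IsInvertedBy (dir τ τ' ⋙ sh τ τ' true) := by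
  have : PreservesFiniteLimits (dir τ τ' ⋙ sh τ τ' true) := comp_preservesFiniteLimits _ _
  have : PreservesFiniteColimits (dir τ τ' ⋙ sh τ τ' true) := comp_preservesFiniteColimits _ _
  rw [ObjectProperty.isoModSerre_isInvertedBy_iff]
  intro M hM
  exact (ObjectProperty.SerreClassLocalization.isZero_obj_iff (sh τ τ' true)
    (tors τ τ' true) _).2 (tors_dir hM)

/-- The inverse image functor from `S` to its double cover `E × F`. -/
noncomputable def pb (τ τ' : ℂ) : QC τ τ' true ⥤ QC τ τ' false :=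
  Localization.lift (res τ τ' ⋙ sh τ τ' false) inverts_res (sh τ τ' true)

/-- The direct image functor from `E × F` to `S`. -/
noncomputable def pf (τ τ' : ℂ) : QC τ τ' false ⥤ QC τ τ' true :=
  Localization.lift (dir τ τ' ⋙ sh τ τ' true) inverts_dir (sh τ τ' false)

noncomputable instance : Localization.Lifting (sh τ τ' true) (tors τ τ' true).isoModSerre
    (res τ τ' ⋙ sh τ τ' false) (pb τ τ') := ⟨Localization.fac _ _ _⟩

noncomputable instance : Localization.Lifting (sh τ τ' false) (tors τ τ' false).isoModSerre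
    (dir τ τ' ⋙ sh τ τ' true) (pf τ τ') := ⟨Localization.fac _ _ _⟩

instance : PreservesFiniteLimits (pb τ τ') := by
  rw [← ObjectProperty.SerreClassLocalization.preservesFiniteLimits_comp_iff
    (sh τ τ' true) (tors τ τ' true)]
  have : PreservesFiniteLimits (res τ τ' ⋙ sh τ τ' false) := comp_preservesFiniteLimits _ _
  exact preservesFiniteLimits_of_natIso (Localization.fac (res τ τ' ⋙ sh τ τ' false) inverts_res
    (sh τ τ' true)).symm

instance : PreservesFiniteColimits (pb τ τ') := by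
  rw [← ObjectProperty.SerreClassLocalization.preservesFiniteColimits_comp_iff
    (sh τ τ' true) (tors τ τ' true)]
  have : PreservesFiniteColimits (res τ τ' ⋙ sh τ τ' false) := comp_preservesFiniteColimits _ _
  exact preservesFiniteColimits_of_natIso (Localization.fac (res τ τ' ⋙ sh τ τ' false) inverts_res
    (sh τ τ' true)).symm

instance : PreservesFiniteLimits (pf τ τ') := by
  rw [← ObjectProperty.SerreClassLocalization.preservesFiniteLimits_comp_iff
    (sh τ τ' false) (tors τ τ' false)]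
  have : PreservesFiniteLimits (dir τ τ' ⋙ sh τ τ' true) := comp_preservesFiniteLimits _ _
  exact preservesFiniteLimits_of_natIso (Localization.fac (dir τ τ' ⋙ sh τ τ' true) inverts_dir
    (sh τ τ' false)).symm

instance : PreservesFiniteColimits (pf τ τ') := by
  rw [← ObjectProperty.SerreClassLocalization.preservesFiniteColimits_comp_iff
    (sh τ τ' false) (tors τ τ' false)]
  have : PreservesFiniteColimits (dir τ τ' ⋙ sh τ τ' true) := comp_preservesFiniteColimits _ _
  exact preservesFiniteColimits_of_natIso (Localization.fac (dir τ τ' ⋙ sh τ τ' true) inverts_dir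
    (sh τ τ' false)).symm

instance : (pb τ τ').Linear ℂ :=
  (Localization.functor_linear_iff (sh τ τ' true) (tors τ τ' true).isoModSerre ℂ
    (res τ τ' ⋙ sh τ τ' false) (pb τ τ')).1 inferInstance

instance : (pf τ τ').Linear ℂ :=
  (Localization.functor_linear_iff (sh τ τ' false) (tors τ τ' false).isoModSerre ℂ
    (dir τ τ' ⋙ sh τ τ' true) (pf τ τ')).1 inferInstance

instance : (pb τ τ').Additive :=
  (Localization.functor_additive_iff (sh τ τ' true) (tors τ τ' true).isoModSerre (pb τ τ')).2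
    (Functor.additive_of_iso (Localization.fac (res τ τ' ⋙ sh τ τ' false) inverts_res
    (sh τ τ' true)).symm)

instance : (pf τ τ').Additive :=
  (Localization.functor_additive_iff (sh τ τ' false) (tors τ τ' false).isoModSerre (pf τ τ')).2
    (Functor.additive_of_iso (Localization.fac (dir τ τ' ⋙ sh τ τ' true) inverts_dir
    (sh τ τ' false)).symm)

section derived

variable (τ τ')
variable [HasDerivedCategory.{w₁} (QC τ τ' false)] [HasDerivedCategory.{w₂} (QC τ τ' true)]

/-- The line bundle `O(a)⁻¹` on `E × F` as a complex in degree `0`. -/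
noncomputable def lb (a : Gam2) : DerivedCategory (QC τ τ' false) :=
  (DerivedCategory.singleFunctor _ 0).obj ((sh τ τ' false).obj (free τ τ' a))

/-- `D^b(Coh(E × F))`: the smallest triangulated subcategory of the derived category of
quasi-coherent sheaves which is closed under direct summands and contains the line bundles. -/
def DbX : ObjectProperty (DerivedCategory (QC τ τ' false)) :=
  (ObjectProperty.ofObj (lb τ τ')).triangEnvelope

/-- `D^b(Coh(S))`: the complexes whose inverse image on the double cover is in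
`D^b(Coh(E × F))`. -/
def DbS : ObjectProperty (DerivedCategory (QC τ τ' true)) :=
  (DbX τ τ').inverseImage (pb τ τ').mapDerivedCategory

instance : (DbX τ τ').IsTriangulated := by
  unfold DbX; infer_instance

instance : (DbX τ τ').IsClosedUnderIsomorphisms := by
  unfold DbX; infer_instance

instance : (DbS τ τ').IsTriangulated := by
  unfold DbS; infer_instance

instance : (DbS τ τ').IsClosedUnderIsomorphisms := by
  unfold DbS; infer_instance

noncomputable example : Pretriangulated (DbS τ τ').FullSubcategory := inferInstance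
example : IsTriangulated (DbS τ τ').FullSubcategory := inferInstance

/-- The skyscraper sheaf of `S` at the image of `x`. -/
noncomputable def skyS (x : ℂ × ℂ) : DerivedCategory (QC τ τ' true) :=
  (DerivedCategory.singleFunctor _ 0).obj ((sh τ τ' true).obj (ptS τ τ' x))

end derived

end Run7.h354.BE
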