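import Pool.Agent.Run7.h354.BE.TA
import Pool.Agent.Run7.h354.BE.Model

/-!
# The action of the theta functions on graded modules and on quasi-coherent sheaves
-/

set_option autoImplicit false
set_option linter.unusedSectionVars false
set_option linter.unusedVariables false

open CategoryTheory CategoryTheory.Limits Complex ZeroObject

namespace Run7.h354.BE

/-- A map from the surface to an elliptic curve: a linear function `ℓ` on `ℂ × ℂ` such that the
theta functions of the curve give theta functions on the surface. -/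
structure Dat (τ₀ τ τ' : ℂ) (s : Bool) where
  /-- the map -/
  ℓ : ℂ × ℂ → ℂ
  /-- the inverse image of line bundles -/
  δ : Gam →+ Gam2
  fac : ∀ (γ : Gam) (k : ℂ → ℂ), k ∈ V τ₀ γ → ∃ g h, g ∈ V τ (δ γ).1 ∧ h ∈ V τ' (δ γ).2 ∧
    k ∘ ℓ = pr g h
  inv : s = true → ∀ (γ : Gam) (k : ℂ → ℂ), k ∈ V τ₀ γ → ∀ p, k (ℓ (inv true p)) = k (ℓ p)
  invG : s = true → ∀ γ, invG τ' true (δ γ) = δ γ

namespace Dat

variable {τ₀ τ τ' : ℂ} {s : Bool} (D : Dat τ₀ τ τ' s)

theorem invG' {e : Bool} (he : e = true → s = true) (γ : Gam) :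
    Run7.h354.BE.invG τ' e (D.δ γ) = D.δ γ := by
  cases e
  · rfl
  · exact D.invG (he rfl) γ

theorem inv' {e : Bool} (he : e = true → s = true) {γ : Gam} {k : ℂ → ℂ} (hk : k ∈ V τ₀ γ)
    (p : ℂ × ℂ) : k (D.ℓ (Run7.h354.BE.inv e p)) = k (D.ℓ p) := by
  cases e
  · rfl
  · exact D.inv (he rfl) γ k hk p

theorem mem {γ : Gam} {k : ℂ → ℂ} (hk : k ∈ V τ₀ γ) : k ∘ D.ℓ ∈ W τ τ' (D.δ γ) := by
  obtain ⟨g, h, hg, hh, e⟩ := D.fac γ k hk
  rw [e]
  exact W_pr hg hh

/-- Translation of degrees. -/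
def t (γ : Gam) : Ob τ τ' s ⥤ Ob τ τ' s where
  obj a := ⟨a.deg + D.δ γ⟩
  map {a b} φ := (⟨(φ : Mor a b).e, (φ : Mor a b).he, (φ : Mor a b).f, by
    have h := (φ : Mor a b).mem
    show _ ∈ W τ τ' (b.deg + D.δ γ - Run7.h354.BE.invG τ' _ (a.deg + D.δ γ))
    rwa [invG_add, D.invG' (φ : Mor a b).he, add_sub_add_right_eq_sub]⟩ :
      Mor (⟨a.deg + D.δ γ⟩ : Ob τ τ' s) ⟨b.deg + D.δ γ⟩)
  map_id _ := rfl
  map_comp _ _ := rfl

/-- the morphism `k ∘ ℓ` -/
noncomputable def m {a b : Gam} (k : ℂ → ℂ) (hk : k ∈ V τ₀ (b - a)) (x : Ob τ τ' s) :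
    (D.t a).obj x ⟶ (D.t b).obj x :=
  mul (k ∘ D.ℓ) (by
    show _ ∈ W τ τ' (x.deg + D.δ b - (x.deg + D.δ a))
    rw [add_sub_add_left_eq_sub, ← map_sub]
    exact D.mem hk)

theorem m_nat {a b : Gam} (k : ℂ → ℂ) (hk : k ∈ V τ₀ (b - a)) {x y : Ob τ τ' s} (φ : x ⟶ y) :
    (D.t a).map φ ≫ D.m k hk y = D.m k hk x ≫ (D.t b).map φ := by
  refine Mor.ext ?_ ?_
  · show xor false (φ : Mor x y).e = xor (φ : Mor x y).e false
    simp
  · funext p
    show k (D.ℓ p) * (φ : Mor x y).f p =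
      (φ : Mor x y).f p * k (D.ℓ (Run7.h354.BE.inv (φ : Mor x y).e p))
    rw [D.inv' (φ : Mor x y).he hk, mul_comm]

/-- The twist of a graded module. -/
noncomputable def tw (γ : Gam) : GM τ τ' s ⥤ GM τ τ' s :=
  ObjectProperty.lift _ ((lin τ τ' s).ι ⋙ (Functor.whiskeringLeft _ _ _).obj (D.t γ)) (by
    intro M a b e he c f g hf hg
    have h : ∀ f : ℂ × ℂ → ℂ, f ∈ W τ τ' (b.deg - Run7.h354.BE.invG τ' e a.deg) →
        f ∈ W τ τ' (((D.t γ).obj b).deg - Run7.h354.BE.invG τ' e ((D.t γ).obj a).deg) := by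
      intro f hf
      show _ ∈ W τ τ' (b.deg + D.δ γ - Run7.h354.BE.invG τ' _ (a.deg + D.δ γ))
      rwa [invG_add, D.invG' he, add_sub_add_right_eq_sub]
    exact M.property ((D.t γ).obj a) ((D.t γ).obj b) e he c f g (h f hf) (h g hg))

/-- The action of a theta function on the twists. -/
noncomputable def twm {a b : Gr τ₀} (k : a ⟶ b) : D.tw a.deg ⟶ D.tw b.deg where
  app M := (lin τ τ' s).homMk
    { app := fun x => M.obj.map (D.m k.1 k.2 x)
      naturality := fun x y φ => by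
        show M.obj.map ((D.t a.deg).map φ) ≫ _ = _ ≫ M.obj.map ((D.t b.deg).map φ)
        rw [← M.obj.map_comp, ← M.obj.map_comp, m_nat] }
  naturality {M N} f := by
    refine ObjectProperty.hom_ext _ ?_
    ext x y
    exact (nat_apply f.hom (D.m k.1 k.2 x) y).symm

theorem twm_app {a b : Gr τ₀} (k : a ⟶ b) (M : GM τ τ' s) (x : Ob τ τ' s)
    (y : M.obj.obj ((D.t a.deg).obj x)) :
    ((D.twm k).app M).hom.app x y = M.obj.map (D.m k.1 k.2 x) y := rfl

theorem map_mk_add {M : Ob τ τ' s ⥤ ModuleCat.{0} ℂ} (hM : lin τ τ' s M) {a b : Ob τ τ' s}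
    {f g k : ℂ × ℂ → ℂ} (hf : f ∈ W τ τ' (b.deg - a.deg))
    (hg : g ∈ W τ τ' (b.deg - a.deg)) (hk : k ∈ W τ τ' (b.deg - a.deg)) (c : ℂ) (h : k = c • f + g) :
    M.map (mul k hk) = c • M.map (mul f hf) + M.map (mul g hg) := by
  subst h
  exact hM a b false (fun h => by simp at h) c f g hf hg

theorem twm_lin {a b : Gr τ₀} (r : ℂ) (f g : a ⟶ b) :
    D.twm (r • f + g) = r • D.twm f + D.twm g := by
  ext M : 2
  refine ObjectProperty.hom_ext _ ?_
  ext x : 2
  exact map_mk_add M.property _ _ _ r rfl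

/-- The functor of twists. -/
@[simps] noncomputable def Φ₀ : Gr τ₀ ⥤ (GM τ τ' s ⥤ GM τ τ' s) where
  obj a := D.tw a.deg
  map k := D.twm k
  map_id a := by
    ext M : 2
    refine ObjectProperty.hom_ext _ ?_
    ext x : 2
    have e : D.m (𝟙 a : a ⟶ a).1 (𝟙 a : a ⟶ a).2 x = 𝟙 _ := Mor.ext rfl rfl
    show M.obj.map (D.m (𝟙 a : a ⟶ a).1 (𝟙 a : a ⟶ a).2 x) = _
    rw [e, M.obj.map_id]
    rfl
  map_comp {a b c} f g := by
    ext M : 2
    refine ObjectProperty.hom_ext _ ?_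
    ext x : 2
    have e : D.m (f ≫ g).1 (f ≫ g).2 x = D.m f.1 f.2 x ≫ D.m g.1 g.2 x := Mor.ext rfl rfl
    show M.obj.map (D.m (f ≫ g).1 (f ≫ g).2 x) = _
    rw [e, M.obj.map_comp]
    rfl

/-- The morphism `1` between equal degrees. -/
noncomputable def one {a b : Ob τ τ' s} (h : a.deg = b.deg) : a ⟶ b :=
  mul 1 (by rw [h, sub_self]; exact W_one)

theorem one_one {a b c : Ob τ τ' s} (h : a.deg = b.deg) (h' : b.deg = c.deg) :
    one h ≫ one h' = one (h.trans h') := by
  refine Mor.ext rfl ?_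
  funext p
  show (1 : ℂ) * 1 = 1
  rw [one_mul]

theorem one_self (a : Ob τ τ' s) : one (rfl : a.deg = a.deg) = 𝟙 a := Mor.ext rfl rfl

/-- The isomorphism of a module in equal degrees. -/
noncomputable def oneIso (M : Ob τ τ' s ⥤ ModuleCat.{0} ℂ) {a b : Ob τ τ' s} (h : a.deg = b.deg) :
    M.obj a ≅ M.obj b where
  hom := M.map (one h)
  inv := M.map (one h.symm)
  hom_inv_id := by rw [← M.map_comp, one_one, one_self, M.map_id]
  inv_hom_id := by rw [← M.map_comp, one_one, one_self, M.map_id]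

theorem t_one {a b : Gam} {x y : Ob τ τ' s} (φ : x ⟶ y)
    (h : ((D.t a).obj x).deg = ((D.t b).obj x).deg) (h' : ((D.t a).obj y).deg = ((D.t b).obj y).deg) :
    (D.t a).map φ ≫ one h' = one h ≫ (D.t b).map φ := by
  refine Mor.ext ?_ ?_
  · show xor false (φ : Mor x y).e = xor (φ : Mor x y).e false
    simp
  · funext p
    show 1 * (φ : Mor x y).f p = (φ : Mor x y).f p * 1
    rw [one_mul, mul_one]

/-- The composition of two twists. -/
noncomputable def cmp (a b : Gam) : D.tw a ⋙ D.tw b ≅ D.tw (a + b) :=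
  NatIso.ofComponents (fun M => (lin τ τ' s).isoMk
    (NatIso.ofComponents (fun x => oneIso M.obj (a := (D.t a).obj ((D.t b).obj x))
      (b := (D.t (a + b)).obj x) (by
        show x.deg + D.δ b + D.δ a = x.deg + D.δ (a + b)
        rw [map_add]; abel)) (by
      intro x y φ
      show M.obj.map ((D.t a).map ((D.t b).map φ)) ≫ M.obj.map (one _) =
        M.obj.map (one _) ≫ M.obj.map ((D.t (a + b)).map φ)
      rw [← M.obj.map_comp, ← M.obj.map_comp]
      congr 1
      refine Mor.ext ?_ ?_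
      · show xor false (φ : Mor x y).e = xor (φ : Mor x y).e false
        simp
      · funext p
        show 1 * (φ : Mor x y).f p = (φ : Mor x y).f p * 1
        rw [one_mul, mul_one]))) (by
    intro M N f
    refine ObjectProperty.hom_ext _ ?_
    ext x y
    exact (nat_apply f.hom _ y).symm)

theorem cmp_app (a b : Gam) (M : GM τ τ' s) (x : Ob τ τ' s) :
    ((D.cmp a b).hom.app M).hom.app x = M.obj.map (one (a := (D.t a).obj ((D.t b).obj x))
      (b := (D.t (a + b)).obj x) (by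
        show x.deg + D.δ b + D.δ a = x.deg + D.δ (a + b)
        rw [map_add]; abel)) := rfl

/-- The trivial twist. -/
noncomputable def unt : D.tw 0 ≅ 𝟭 (GM τ τ' s) :=
  NatIso.ofComponents (fun M => (lin τ τ' s).isoMk
    (NatIso.ofComponents (fun x => oneIso M.obj (a := (D.t 0).obj x)
      (b := x) (by
        show x.deg + D.δ 0 = x.deg
        rw [map_zero, add_zero])) (by
      intro x y φ
      show M.obj.map ((D.t 0).map φ) ≫ M.obj.map (one _) =
        M.obj.map (one _) ≫ M.obj.map φ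
      rw [← M.obj.map_comp, ← M.obj.map_comp]
      congr 1
      refine Mor.ext ?_ ?_
      · show xor false (φ : Mor x y).e = xor (φ : Mor x y).e false
        simp
      · funext p
        show 1 * (φ : Mor x y).f p = (φ : Mor x y).f p * 1
        rw [one_mul, mul_one]))) (by
    intro M N f
    refine ObjectProperty.hom_ext _ ?_
    ext x y
    exact (nat_apply f.hom _ y).symm)

/-- The action on graded modules. -/
noncomputable def base : TA τ₀ (GM τ τ' s) where
  Φ := D.Φ₀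
  comp a b := D.cmp a b
  comp_nat a b b' f hf hf' M := by
    refine ObjectProperty.hom_ext _ ?_
    ext x : 2
    show M.obj.map ((D.t a).map (D.m f hf x)) ≫ M.obj.map (one _) =
      M.obj.map (one _) ≫ M.obj.map (D.m f hf' x)
    rw [← M.obj.map_comp, ← M.obj.map_comp]
    congr 1
    refine Mor.ext rfl ?_
    funext p
    show 1 * f (D.ℓ p) = f (D.ℓ p) * 1
    rw [one_mul, mul_one]
  comp_nat1 a a' b f hf hf' M := by
    refine ObjectProperty.hom_ext _ ?_
    ext x : 2
    show M.obj.map (D.m f hf ((D.t b).obj x)) ≫ M.obj.map (one _) =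
      M.obj.map (one _) ≫ M.obj.map (D.m f hf' x)
    rw [← M.obj.map_comp, ← M.obj.map_comp]
    congr 1
    refine Mor.ext rfl ?_
    funext p
    show 1 * f (D.ℓ p) = f (D.ℓ p) * 1
    rw [one_mul, mul_one]
  zero := D.unt

end Dat

end Run7.h354.BE
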