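import Pool.Agent.Run7.h354.BE.TA

/-!
# Actions of the theta functions on complexes and on derived categories
-/

set_option autoImplicit false
set_option linter.unusedSectionVars false
set_option linter.unusedVariables false

open CategoryTheory CategoryTheory.Limits Complex ZeroObject

namespace Run7.h354.BE

universe w v u w' v' u'

section cx

variable {τ : ℂ} {A : Type u} [Category.{v} A] [Preadditive A] [HasZeroObject A] (T : TA τ A)
  [hadd : ∀ a, (T.Φ.obj a).Additive]

/-- The action on complexes. -/
noncomputable def TA.cx : TA τ (CochainComplex A ℤ) where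
  Φ :=
    { obj := fun a => (T.Φ.obj a).mapHomologicalComplex _
      map := fun f => NatTrans.mapHomologicalComplex (T.Φ.map f) _
      map_id := fun a => by rw [T.Φ.map_id, NatTrans.mapHomologicalComplex_id]
      map_comp := fun f g => by rw [T.Φ.map_comp, NatTrans.mapHomologicalComplex_comp] }
  comp a b := Functor.mapHomologicalComplexCompIso (T.comp a b) _
  comp_nat a b b' f hf hf' G := by
    refine HomologicalComplex.hom_ext _ _ fun i => ?_
    exact T.comp_nat a b b' f hf hf' (G.X i)
  comp_nat1 a a' b f hf hf' G := by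
    refine HomologicalComplex.hom_ext _ _ fun i => ?_
    exact T.comp_nat1 a a' b f hf hf' (G.X i)
  zero := NatIso.mapHomologicalComplex T.zero _ ≪≫ Functor.mapHomologicalComplexIdIso _ _

theorem TA.cx_map_f {a b : Gr τ} (f : a ⟶ b) (K : CochainComplex A ℤ) (i : ℤ) :
    ((T.cx.Φ.map f).app K).f i = (T.Φ.map f).app (K.X i) := rfl

instance (a : Gr τ) : (T.cx.Φ.obj a).Additive :=
  inferInstanceAs ((T.Φ.obj a).mapHomologicalComplex (.up ℤ)).Additive

end cx

section der

variable {τ : ℂ} {A : Type u} [Category.{v} A] [Abelian A] [HasDerivedCategory.{w} A] (T : TA τ A)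
  [hadd : ∀ a, (T.Φ.obj a).Additive] [hl : ∀ a, PreservesFiniteLimits (T.Φ.obj a)]
  [hr : ∀ a, PreservesFiniteColimits (T.Φ.obj a)]

noncomputable instance (a : Gr τ) : Localization.Lifting DerivedCategory.Q
    (HomologicalComplex.quasiIso A (.up ℤ)) (T.cx.Φ.obj a ⋙ DerivedCategory.Q)
    (T.Φ.obj a).mapDerivedCategory :=
  ⟨(T.Φ.obj a).mapDerivedCategoryFactors⟩

/-- The action on the derived category. -/
noncomputable def TA.der : TA τ (DerivedCategory A) :=
  T.cx.lift DerivedCategory.Q (HomologicalComplex.quasiIso A (.up ℤ))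
    (fun a => (T.Φ.obj a).mapDerivedCategory)

theorem TA.der_obj (a : Gr τ) : T.der.Φ.obj a = (T.Φ.obj a).mapDerivedCategory := rfl

theorem TA.der_map_app {a b : Gr τ} (f : a ⟶ b) (K : CochainComplex A ℤ) :
    (T.der.Φ.map f).app (DerivedCategory.Q.obj K) ≫
        (T.Φ.obj b).mapDerivedCategoryFactors.hom.app K =
      (T.Φ.obj a).mapDerivedCategoryFactors.hom.app K ≫
        DerivedCategory.Q.map ((T.cx.Φ.map f).app K) :=
  lm_app T.cx DerivedCategory.Q (HomologicalComplex.quasiIso A (.up ℤ))
    (fun a => (T.Φ.obj a).mapDerivedCategory) f K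

end der

end Run7.h354.BE
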