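import Mathlib
import Pool.Agent.Helper445_GMF.Slice

/-!
# Quasi-coherent sheaves on a bielliptic surface, by theta functions

`τ`, `τ'` are points of the upper half plane, `E = ℂ / (ℤ + ℤ τ)`, `F = ℂ / (ℤ + ℤ τ')` and the
group `G = ℤ / 2` acts freely on `E × F` by `(z, w) ↦ (z + 1/2, -w)`; the surface
`S = (E × F) / G` is bielliptic.
-/

set_option autoImplicit false

open CategoryTheory CategoryTheory.Limits Complex ZeroObject

namespace Run7.h354.BE

/-- The group of gradings of one elliptic curve: the pair `(n, c)` stands for the line bundle whose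
sections are the entire functions with `f (z + 1) = f z`, `f (z + τ) = c exp (-2 π i n z) f z`. -/
abbrev Gam : Type := ℤ × Additive ℂˣ

/-- The number `c` of a grading `(n, c)`. -/
def Gam.c (γ : Gam) : ℂ := ((Additive.toMul γ.2 : ℂˣ) : ℂ)

/-- The theta functions of type `γ = (n, c)` on `ℂ / (ℤ + ℤ τ)`. -/
def V (τ : ℂ) (γ : Gam) : Submodule ℂ (ℂ → ℂ) where
  carrier := {f | Differentiable ℂ f ∧ (∀ z, f (z + 1) = f z) ∧
    ∀ z, f (z + τ) = γ.c * exp (-(2 * Real.pi * I * γ.1 * z)) * f z}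
  add_mem' := by
    rintro f g ⟨hf, hf1, hf2⟩ ⟨hg, hg1, hg2⟩
    refine ⟨hf.add hg, fun z => ?_, fun z => ?_⟩
    · simp only [Pi.add_apply, hf1, hg1]
    · simp only [Pi.add_apply, hf2, hg2]; ring
  zero_mem' := ⟨differentiable_const 0, fun z => rfl, fun z => by simp⟩
  smul_mem' := by
    rintro a f ⟨hf, hf1, hf2⟩
    refine ⟨hf.const_smul a, fun z => ?_, fun z => ?_⟩
    · simp only [Pi.smul_apply, hf1]
    · simp only [Pi.smul_apply, hf2, smul_eq_mul]; ring

/-- The group of gradings of the product `E × F`. -/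
abbrev Gam2 : Type := Gam × Gam

/-- The theta functions of two variables of type `((m, c), (n, d))` on `E × F`: the sections of
the exterior product of the line bundles given by `(m, c)` and `(n, d)`. -/
def W (τ τ' : ℂ) (a : Gam2) : Submodule ℂ (ℂ × ℂ → ℂ) where
  carrier := {f | Differentiable ℂ f ∧ (∀ z w, f (z + 1, w) = f (z, w)) ∧
    (∀ z w, f (z, w + 1) = f (z, w)) ∧
    (∀ z w, f (z + τ, w) = a.1.c * exp (-(2 * Real.pi * I * a.1.1 * z)) * f (z, w)) ∧
    ∀ z w, f (z, w + τ') = a.2.c * exp (-(2 * Real.pi * I * a.2.1 * w)) * f (z, w)}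
  add_mem' := by
    rintro f g ⟨hf, hf1, hf2, hf3, hf4⟩ ⟨hg, hg1, hg2, hg3, hg4⟩
    refine ⟨hf.add hg, fun z w => ?_, fun z w => ?_, fun z w => ?_, fun z w => ?_⟩
    · simp only [Pi.add_apply, hf1, hg1]
    · simp only [Pi.add_apply, hf2, hg2]
    · simp only [Pi.add_apply, hf3, hg3]; ring
    · simp only [Pi.add_apply, hf4, hg4]; ring
  zero_mem' := ⟨differentiable_const 0, fun z w => rfl, fun z w => rfl, fun z w => by simp,
    fun z w => by simp⟩
  smul_mem' := by
    rintro a f ⟨hf, hf1, hf2, hf3, hf4⟩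
    refine ⟨hf.const_smul a, fun z w => ?_, fun z w => ?_, fun z w => ?_, fun z w => ?_⟩
    · simp only [Pi.smul_apply, hf1]
    · simp only [Pi.smul_apply, hf2]
    · simp only [Pi.smul_apply, hf3, smul_eq_mul]; ring
    · simp only [Pi.smul_apply, hf4, smul_eq_mul]; ring

/-- The involution `(z, w) ↦ (z + 1/2, -w)` of `ℂ × ℂ` (for `e = true`), or the identity. -/
noncomputable def inv (e : Bool) (p : ℂ × ℂ) : ℂ × ℂ := if e then (p.1 + 1 / 2, -p.2) else p

/-- The action of the involution on the gradings: a theta function `f` of type `a` gives the theta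
function `f ∘ inv e` of type `invG τ' e a`. -/
noncomputable def invG (τ' : ℂ) (e : Bool) (a : Gam2) : Gam2 :=
  if e then ((a.1.1, a.1.2 + Additive.ofMul ((-1 : ℂˣ) ^ a.1.1)),
    (a.2.1, -a.2.2 + Additive.ofMul (Units.mk0 (exp (-(2 * Real.pi * I * a.2.1 * τ'))) (exp_ne_zero _))))
  else a


section lemmas

variable {τ τ' : ℂ}

@[simp] theorem Gam.c_add (γ δ : Gam) : (γ + δ).c = γ.c * δ.c := by
  simp [Gam.c]

@[simp] theorem Gam.c_zero : (0 : Gam).c = 1 := by simp [Gam.c]

theorem Gam.c_ne (γ : Gam) : γ.c ≠ 0 := Units.ne_zero _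

theorem Gam.c_sub (γ δ : Gam) : (γ - δ).c = γ.c / δ.c := by
  simp [Gam.c]

theorem Gam.ext' {γ δ : Gam} (h1 : γ.1 = δ.1) (h2 : γ.c = δ.c) : γ = δ := by
  refine Prod.ext h1 ?_
  apply Additive.toMul.injective
  exact Units.ext h2

theorem V_mul {γ δ : Gam} {f g : ℂ → ℂ} (hf : f ∈ V τ γ) (hg : g ∈ V τ δ) :
    f * g ∈ V τ (γ + δ) := by
  refine ⟨hf.1.mul hg.1, fun z => ?_, fun z => ?_⟩
  · simp only [Pi.mul_apply, hf.2.1, hg.2.1]
  · simp only [Pi.mul_apply, hf.2.2, hg.2.2, Gam.c_add, Prod.fst_add, Int.cast_add]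
    rw [show -(2 * Real.pi * I * ((γ.1 : ℂ) + δ.1) * z) =
      -(2 * Real.pi * I * γ.1 * z) + -(2 * Real.pi * I * δ.1 * z) by ring, exp_add]
    ring

theorem V_one : (1 : ℂ → ℂ) ∈ V τ 0 :=
  ⟨differentiable_const 1, fun _ => rfl, fun _ => by simp⟩

theorem W_mul {a b : Gam2} {f g : ℂ × ℂ → ℂ} (hf : f ∈ W τ τ' a) (hg : g ∈ W τ τ' b) :
    f * g ∈ W τ τ' (a + b) := by
  obtain ⟨hf, hf1, hf2, hf3, hf4⟩ := hf
  obtain ⟨hg, hg1, hg2, hg3, hg4⟩ := hg
  refine ⟨hf.mul hg, fun z w => ?_, fun z w => ?_, fun z w => ?_, fun z w => ?_⟩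
  · simp only [Pi.mul_apply, hf1, hg1]
  · simp only [Pi.mul_apply, hf2, hg2]
  · simp only [Pi.mul_apply, hf3, hg3, Prod.fst_add, Gam.c_add, Int.cast_add]
    rw [show -(2 * Real.pi * I * ((a.1.1 : ℂ) + b.1.1) * z) =
      -(2 * Real.pi * I * a.1.1 * z) + -(2 * Real.pi * I * b.1.1 * z) by ring, exp_add]
    ring
  · simp only [Pi.mul_apply, hf4, hg4, Prod.snd_add, Prod.fst_add, Gam.c_add, Int.cast_add]
    rw [show -(2 * Real.pi * I * ((a.2.1 : ℂ) + b.2.1) * w) =
      -(2 * Real.pi * I * a.2.1 * w) + -(2 * Real.pi * I * b.2.1 * w) by ring, exp_add]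
    ring

/-- The exterior product of two functions. -/
def pr (g h : ℂ → ℂ) (p : ℂ × ℂ) : ℂ := g p.1 * h p.2

theorem W_pr {γ δ : Gam} {g h : ℂ → ℂ} (hg : g ∈ V τ γ) (hh : h ∈ V τ' δ) :
    pr g h ∈ W τ τ' (γ, δ) := by
  refine ⟨?_, fun z w => ?_, fun z w => ?_, fun z w => ?_, fun z w => ?_⟩
  · exact (hg.1.comp differentiable_fst).mul (hh.1.comp differentiable_snd)
  · simp only [pr, hg.2.1]
  · simp only [pr, hh.2.1]
  · simp only [pr, hg.2.2]; ring
  · simp only [pr, hh.2.2]; ring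

theorem W_one : (1 : ℂ × ℂ → ℂ) ∈ W τ τ' 0 :=
  ⟨differentiable_const 1, fun _ _ => rfl, fun _ _ => rfl, fun _ _ => by simp, fun _ _ => by simp⟩

@[simp] theorem inv_false (p : ℂ × ℂ) : inv false p = p := rfl

@[simp] theorem inv_true (p : ℂ × ℂ) : inv true p = (p.1 + 1 / 2, -p.2) := rfl

@[simp] theorem invG_false (a : Gam2) : invG τ' false a = a := rfl

theorem invG_add (e : Bool) (a b : Gam2) : invG τ' e (a + b) = invG τ' e a + invG τ' e b := by
  cases e
  · rfl
  · refine Prod.ext (Gam.ext' ?_ ?_) (Gam.ext' ?_ ?_)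
    · rfl
    · simp [invG, Gam.c, zpow_add]; ring
    · rfl
    · simp only [invG, Gam.c, if_true, Prod.snd_add, Prod.fst_add, neg_add, toMul_add, toMul_neg,
        toMul_ofMul, Units.val_mul, Units.val_mk0, Int.cast_add]
      rw [show -(2 * Real.pi * I * ((a.2.1 : ℂ) + b.2.1) * τ') =
        -(2 * Real.pi * I * a.2.1 * τ') + -(2 * Real.pi * I * b.2.1 * τ') by ring, exp_add]
      ring

theorem invG_zero (e : Bool) : invG τ' e 0 = 0 := by
  have h := invG_add (τ' := τ') e 0 0
  rw [add_zero] at h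
  exact left_eq_add.1 h

theorem invG_neg (e : Bool) (a : Gam2) : invG τ' e (-a) = -invG τ' e a := by
  rw [eq_neg_iff_add_eq_zero, ← invG_add, neg_add_cancel, invG_zero]

theorem invG_sub (e : Bool) (a b : Gam2) : invG τ' e (a - b) = invG τ' e a - invG τ' e b := by
  rw [sub_eq_add_neg, invG_add, invG_neg, ← sub_eq_add_neg]

theorem invG_invG (e e' : Bool) (a : Gam2) :
    invG τ' e (invG τ' e' a) = invG τ' (xor e e') a := by
  cases e <;> cases e' <;> try rfl
  refine Prod.ext (Gam.ext' rfl ?_) (Gam.ext' rfl ?_)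
  · simp only [invG, Gam.c, if_true, toMul_add, toMul_ofMul, Units.val_mul, Bool.xor_true,
      Bool.not_true, Bool.false_eq_true, if_false]
    rw [mul_assoc, ← Units.val_mul, ← zpow_add, ← two_mul, zpow_mul]
    simp
  · simp only [invG, Gam.c, if_true, toMul_add, toMul_neg, toMul_ofMul, Units.val_mul,
      Units.val_mk0, neg_add, neg_neg, Bool.xor_true, Bool.not_true, Bool.false_eq_true, if_false,
      Units.val_inv_eq_inv_val]
    rw [mul_assoc, inv_mul_cancel₀ (exp_ne_zero _), mul_one]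

theorem W_inv {a : Gam2} {f : ℂ × ℂ → ℂ} (hf : f ∈ W τ τ' a) (e : Bool) :
    f ∘ inv e ∈ W τ τ' (invG τ' e a) := by
  cases e
  · exact hf
  obtain ⟨hf, hf1, hf2, hf3, hf4⟩ := hf
  have e1 : (f ∘ inv true) = fun p : ℂ × ℂ => f (p.1 + 1 / 2, -p.2) := rfl
  rw [e1]
  refine ⟨?_, fun z w => ?_, fun z w => ?_, fun z w => ?_, fun z w => ?_⟩
  · exact hf.comp ((differentiable_fst.add_const _).prodMk differentiable_snd.neg)
  · show f (z + 1 + 1 / 2, -w) = f (z + 1 / 2, -w)
    have h := hf1 (z + 1 / 2) (-w)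
    rwa [show z + 1 / 2 + 1 = z + 1 + 1 / 2 by ring] at h
  · show f (z + 1 / 2, -(w + 1)) = f (z + 1 / 2, -w)
    have h := hf2 (z + 1 / 2) (-(w + 1))
    rw [show -(w + 1) + 1 = -w by ring] at h
    exact h.symm
  · show f (z + τ + 1 / 2, -w) = _ * f (z + 1 / 2, -w)
    have h := hf3 (z + 1 / 2) (-w)
    rw [show z + 1 / 2 + τ = z + τ + 1 / 2 by ring] at h
    rw [h]
    simp only [invG, Gam.c, if_true, toMul_add, toMul_ofMul, Units.val_mul]
    have h2 : exp (-(2 * Real.pi * I * (a.1.1 : ℂ) * (z + 1 / 2))) =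
        (((-1 : ℂˣ) ^ a.1.1 : ℂˣ) : ℂ) * exp (-(2 * Real.pi * I * (a.1.1 : ℂ) * z)) := by
      have h3 : (((-1 : ℂˣ) ^ a.1.1 : ℂˣ) : ℂ) = exp (-(Real.pi * I * (a.1.1 : ℂ))) := by
        have h4 : (-1 : ℂ) = exp (-(Real.pi * I)) := by
          rw [exp_neg, exp_pi_mul_I]; norm_num
        rw [Units.val_zpow_eq_zpow_val, Units.val_neg, Units.val_one, h4, ← exp_int_mul]
        congr 1; ring
      rw [h3, ← exp_add]
      congr 1; ring
    rw [h2]; ring
  · show f (z + 1 / 2, -(w + τ')) = _ * f (z + 1 / 2, -w)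
    have h := hf4 (z + 1 / 2) (-(w + τ'))
    rw [show -(w + τ') + τ' = -w by ring] at h
    rw [h]
    simp only [invG, Gam.c, if_true, toMul_add, toMul_ofMul, toMul_neg, Units.val_mul,
      Units.val_mk0, Units.val_inv_eq_inv_val]
    have h2 : exp (-(2 * Real.pi * I * (a.2.1 : ℂ) * -(w + τ'))) *
        (exp (-(2 * Real.pi * I * (a.2.1 : ℂ) * τ')) * exp (-(2 * Real.pi * I * (a.2.1 : ℂ) * w))) = 1 := by
      rw [← exp_add, ← exp_add, ← exp_zero]
      congr 1; ring
    have h3 : ((Additive.toMul a.2.2 : ℂˣ) : ℂ) ≠ 0 := Units.ne_zero _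
    generalize ((Additive.toMul a.2.2 : ℂˣ) : ℂ) = c at h3
    generalize exp (-(2 * Real.pi * I * (a.2.1 : ℂ) * -(w + τ'))) = Z at h2
    generalize exp (-(2 * Real.pi * I * (a.2.1 : ℂ) * τ')) = X at h2
    generalize exp (-(2 * Real.pi * I * (a.2.1 : ℂ) * w)) = Y at h2
    rw [show c⁻¹ * X * Y * (c * Z * f (z + 1 / 2, -(w + τ'))) =
      (c⁻¹ * c) * (Z * (X * Y)) * f (z + 1 / 2, -(w + τ')) by ring, inv_mul_cancel₀ h3, h2]
    ring

theorem W_inv_inv {a : Gam2} {f : ℂ × ℂ → ℂ} (hf : f ∈ W τ τ' a) (e e' : Bool) (p : ℂ × ℂ) :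
    f (inv e (inv e' p)) = f (inv (xor e e') p) := by
  cases e <;> cases e' <;> try rfl
  show f (p.1 + 1 / 2 + 1 / 2, - -p.2) = f p
  rw [neg_neg, add_assoc, show (1 / 2 + 1 / 2 : ℂ) = 1 by norm_num]
  exact hf.2.1 _ _

end lemmas

section category

/-- The objects of the category of gradings, for `E × F` (`s = false`) and for the quotient
surface `S` (`s = true`). -/
structure Ob (τ τ' : ℂ) (s : Bool) : Type where
  /-- the grading -/
  deg : Gam2

variable {τ τ' : ℂ} {s : Bool}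

/-- A morphism of degrees: `f · inv^e`, a theta function with a group element (which is trivial
for `s = false`). -/
@[ext] structure Mor (a b : Ob τ τ' s) : Type where
  /-- the group element -/
  e : Bool
  /-- it is trivial for `E × F` -/
  he : e = true → s = true
  /-- the theta function -/
  f : ℂ × ℂ → ℂ
  mem : f ∈ W τ τ' (b.deg - invG τ' e a.deg)

/-- The composition `(f' · inv^e') ∘ (f · inv^e) = (f' · (f ∘ inv^e')) · inv^(e' + e)`. -/
noncomputable instance : Category.{0} (Ob τ τ' s) where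
  Hom a b := Mor a b
  id a := ⟨false, fun h => by simp at h, 1, by simpa using W_one⟩
  comp {a b c} φ ψ := ⟨xor ψ.e φ.e, by
      cases h1 : ψ.e <;> cases h2 : φ.e <;> intro h
      · exact absurd h (by decide)
      · exact φ.he h2
      · exact ψ.he h1
      · exact ψ.he h1, ψ.f * (φ.f ∘ inv ψ.e), by
      have h1 := W_inv φ.mem ψ.e
      have h2 := W_mul ψ.mem h1
      rw [invG_sub, invG_invG, sub_add_sub_cancel] at h2
      exact h2⟩
  id_comp {a b} φ := by
    refine Mor.ext ?_ ?_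
    · simp
    · funext p; simp
  comp_id {a b} φ := by
    refine Mor.ext ?_ ?_
    · simp
    · funext p; simp
  assoc {a b c d} φ ψ χ := by
    refine Mor.ext ?_ ?_
    · simp
    · funext p
      simp only [Pi.mul_apply, Function.comp_apply]
      rw [W_inv_inv φ.mem, Bool.xor_comm ψ.e χ.e, mul_assoc]

@[simp] theorem id_e (a : Ob τ τ' s) : (𝟙 a : Mor a a).e = false := rfl
@[simp] theorem id_f (a : Ob τ τ' s) : (𝟙 a : Mor a a).f = 1 := rfl
@[simp] theorem comp_e {a b c : Ob τ τ' s} (φ : a ⟶ b) (ψ : b ⟶ c) :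
    (φ ≫ ψ : Mor a c).e = xor (ψ : Mor b c).e (φ : Mor a b).e := rfl
@[simp] theorem comp_f {a b c : Ob τ τ' s} (φ : a ⟶ b) (ψ : b ⟶ c) :
    (φ ≫ ψ : Mor a c).f = (ψ : Mor b c).f * ((φ : Mor a b).f ∘ inv (ψ : Mor b c).e) := rfl

/-- The morphism `f · inv^e`. -/
def mk {a b : Ob τ τ' s} (e : Bool) (he : e = true → s = true) (f : ℂ × ℂ → ℂ)
    (hf : f ∈ W τ τ' (b.deg - invG τ' e a.deg)) : a ⟶ b :=
  (⟨e, he, f, hf⟩ : Mor a b)

/-- Multiplication by a theta function `f`: the morphism `f` with the trivial group element. -/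
def mul {a b : Ob τ τ' s} (f : ℂ × ℂ → ℂ) (hf : f ∈ W τ τ' (b.deg - a.deg)) : a ⟶ b :=
  mk false (fun h => by simp at h) f hf

/-- The functors which are linear in the theta function. For `s = false` these are the graded
modules over the ring of theta functions of `E × F`, for `s = true` those with an action of the
involution. -/
def lin (τ τ' : ℂ) (s : Bool) : ObjectProperty (Ob τ τ' s ⥤ ModuleCat.{0} ℂ) := fun M =>
  ∀ (a b : Ob τ τ' s) (e : Bool) (he : e = true → s = true) (c : ℂ) (f g : ℂ × ℂ → ℂ)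
    (hf : f ∈ W τ τ' (b.deg - invG τ' e a.deg)) (hg : g ∈ W τ τ' (b.deg - invG τ' e a.deg)),
    M.map (mk e he (c • f + g) (Submodule.add_mem _ (Submodule.smul_mem _ c hf) hg)) =
      c • M.map (mk e he f hf) + M.map (mk e he g hg)

end category

section modules

variable {τ τ' : ℂ} {s : Bool}

theorem mono_iff {M N : Ob τ τ' s ⥤ ModuleCat.{0} ℂ} (f : M ⟶ N) :
    Mono f ↔ ∀ m, Function.Injective (f.app m) := by
  rw [NatTrans.mono_iff_mono_app]
  simp only [ModuleCat.mono_iff_injective]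

theorem epi_iff {M N : Ob τ τ' s ⥤ ModuleCat.{0} ℂ} (f : M ⟶ N) :
    Epi f ↔ ∀ m, Function.Surjective (f.app m) := by
  rw [NatTrans.epi_iff_epi_app]
  simp only [ModuleCat.epi_iff_surjective]

theorem nat_apply {M N : Ob τ τ' s ⥤ ModuleCat.{0} ℂ} (f : M ⟶ N) {m n : Ob τ τ' s} (β : m ⟶ n)
    (x : M.obj m) : f.app n (M.map β x) = N.map β (f.app m x) := by
  have := congrArg (fun g => g x) (congrArg ModuleCat.Hom.hom (f.naturality β))
  exact this

instance : (lin τ τ' s).IsClosedUnderSubobjects where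
  prop_of_mono {X Y} u _ hY := by
    intro a b e he c f g hf hg
    have h := hY a b e he c f g hf hg
    have hm : Mono (u.app b) := inferInstance
    rw [← cancel_mono (u.app b), Preadditive.add_comp, Linear.smul_comp, u.naturality,
      u.naturality, u.naturality, h, Preadditive.comp_add, Linear.comp_smul]

instance : (lin τ τ' s).IsClosedUnderQuotients where
  prop_of_epi {X Y} u _ hX := by
    intro a b e he c f g hf hg
    have h := hX a b e he c f g hf hg
    have hm : Epi (u.app a) := inferInstance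
    rw [← cancel_epi (u.app a), Preadditive.comp_add, Linear.comp_smul, ← u.naturality,
      ← u.naturality, ← u.naturality, h, Preadditive.add_comp, Linear.smul_comp]

theorem lin_zero {M : Ob τ τ' s ⥤ ModuleCat.{0} ℂ} (h : IsZero M) : lin τ τ' s M := by
  intro a b e he c f g hf hg
  exact ((Functor.isZero_iff _).1 h b).eq_of_tgt _ _

instance : (lin τ τ' s).ContainsZero where
  exists_zero := ⟨0, isZero_zero _, lin_zero (isZero_zero _)⟩

instance (J : Type) [SmallCategory J] : (lin τ τ' s).IsClosedUnderLimitsOfShape J where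
  limitsOfShape_le := by
    intro X ⟨p⟩
    intro a b e he c f g hf hg
    have h := isLimitOfPreserves ((evaluation _ _).obj b) p.isLimit
    refine h.hom_ext fun j => ?_
    have hj := (p.prop_diag_obj j) a b e he c f g hf hg
    have e1 : ∀ (φ : a ⟶ b), X.map φ ≫ (p.π.app j).app b = (p.π.app j).app a ≫ (p.diag.obj j).map φ :=
      fun φ => (p.π.app j).naturality φ
    have e2 := e1 (mk e he (c • f + g) (Submodule.add_mem _ (Submodule.smul_mem _ c hf) hg))
    rw [hj] at e2
    refine e2.trans ?_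
    rw [Preadditive.comp_add, Linear.comp_smul, ← e1, ← e1]
    change _ = (c • X.map (mk e he f hf) + X.map (mk e he g hg)) ≫ (p.π.app j).app b
    rw [Preadditive.add_comp, Linear.smul_comp]

instance : (lin τ τ' s).IsClosedUnderFiniteProducts where

/-- Graded modules over the ring of theta functions of `E × F` (for `s = false`), with an action
of the involution (for `s = true`). -/
abbrev GM (τ τ' : ℂ) (s : Bool) : Type 1 := (lin τ τ' s).FullSubcategory

noncomputable example : Abelian (GM τ τ' s) := inferInstance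
noncomputable example : Linear ℂ (GM τ τ' s) := inferInstance

instance : PreservesFiniteLimits (lin τ τ' s).ι :=
  have := fun {X Y : GM τ τ' s} (g : X ⟶ Y) => (lin τ τ' s).preservesKernels_ι g
  Functor.preservesFiniteLimits_of_preservesKernels _

instance : PreservesFiniteColimits (lin τ τ' s).ι :=
  have := fun {X Y : GM τ τ' s} (g : X ⟶ Y) => (lin τ τ' s).preservesCokernels_ι g
  Functor.preservesFiniteColimits_of_preservesCokernels _

/-- Multiplication by the exterior product of two theta functions. -/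
def mulP (a : Ob τ τ' s) {γ δ : Gam} {g h : ℂ → ℂ} (hg : g ∈ V τ γ) (hh : h ∈ V τ' δ) :
    a ⟶ ⟨a.deg + (γ, δ)⟩ :=
  mul (pr g h) (by
    show _ ∈ W τ τ' (a.deg + (γ, δ) - a.deg)
    rw [add_sub_cancel_left]
    exact W_pr hg hh)

/-- The modules whose sheaf is zero: for every point `(z, w)`, each element is killed by a
section `g(z) h(w)` which does not vanish at the point. -/
def tors0 (τ τ' : ℂ) (s : Bool) : ObjectProperty (Ob τ τ' s ⥤ ModuleCat.{0} ℂ) := fun M =>
  ∀ (a : Ob τ τ' s) (x : M.obj a) (z w : ℂ), ∃ (γ δ : Gam) (g h : ℂ → ℂ) (hg : g ∈ V τ γ)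
    (hh : h ∈ V τ' δ), g z ≠ 0 ∧ h w ≠ 0 ∧ M.map (mulP a hg hh) x = 0

theorem exact_apply {S : ShortComplex (Ob τ τ' s ⥤ ModuleCat.{0} ℂ)} (hS : S.Exact)
    (m : Ob τ τ' s) (x : S.X₂.obj m) (hx : S.g.app m x = 0) :
    ∃ y : S.X₁.obj m, S.f.app m y = x := by
  have h := hS.map ((evaluation (Ob τ τ' s) (ModuleCat.{0} ℂ)).obj m)
  rw [ShortComplex.moduleCat_exact_iff] at h
  exact h x hx

theorem mulP_comp (a : Ob τ τ' s) {γ δ γ' δ' : Gam} {g h g' h' : ℂ → ℂ} (hg : g ∈ V τ γ)
    (hh : h ∈ V τ' δ) (hg' : g' ∈ V τ γ') (hh' : h' ∈ V τ' δ') :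
    mulP a hg hh ≫ mulP ⟨a.deg + (γ, δ)⟩ hg' hh' ≫ mul (a := ⟨a.deg + (γ, δ) + (γ', δ')⟩)
      (b := ⟨a.deg + (γ + γ', δ + δ')⟩) 1 (by
        show _ ∈ W τ τ' (a.deg + (γ + γ', δ + δ') - (a.deg + (γ, δ) + (γ', δ')))
        rw [show (γ + γ', δ + δ') = (γ, δ) + (γ', δ') from rfl]
        rw [← add_assoc, sub_self]
        exact W_one) =
    mulP a (V_mul hg hg') (V_mul hh hh') := by
  refine Mor.ext rfl ?_
  funext p
  show 1 * (pr g' h' (inv false p)) * (pr g h (inv false (inv false p))) = pr (g * g') (h * h') p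
  simp only [pr, inv_false, Pi.mul_apply]
  ring

instance : (tors0 τ τ' s).IsSerreClass where
  exists_zero := ⟨0, isZero_zero _, by
    intro a x z w
    refine ⟨0, 0, 1, 1, V_one, V_one, one_ne_zero, one_ne_zero, ?_⟩
    have h : IsZero ((0 : Ob τ τ' s ⥤ ModuleCat.{0} ℂ).obj ⟨a.deg + (0, 0)⟩) :=
      (Functor.isZero_iff _).1 (isZero_zero _) _
    have := ModuleCat.subsingleton_of_isZero h
    exact @Subsingleton.elim _ this _ _⟩
  prop_of_mono {X Y} f _ hY := by
    intro a x z w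
    obtain ⟨γ, δ, g, h, hg, hh, h1, h2, h3⟩ := hY a (f.app a x) z w
    refine ⟨γ, δ, g, h, hg, hh, h1, h2, ?_⟩
    apply (mono_iff f).1 inferInstance _
    rw [nat_apply, h3, map_zero]
  prop_of_epi {X Y} f _ hX := by
    intro a y z w
    obtain ⟨x, rfl⟩ := (epi_iff f).1 inferInstance a y
    obtain ⟨γ, δ, g, h, hg, hh, h1, h2, h3⟩ := hX a x z w
    refine ⟨γ, δ, g, h, hg, hh, h1, h2, ?_⟩
    rw [← nat_apply, h3, map_zero]
  prop_X₂_of_shortExact {S} hS h₁ h₃ := by
    intro a x z w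
    obtain ⟨γ, δ, g, h, hg, hh, h1, h2, h3⟩ := h₃ a (S.g.app a x) z w
    rw [← nat_apply] at h3
    obtain ⟨y, hy⟩ := exact_apply hS.exact _ _ h3
    obtain ⟨γ', δ', g', h', hg', hh', h1', h2', h3'⟩ := h₁ _ y z w
    refine ⟨γ + γ', δ + δ', g * g', h * h', V_mul hg hg', V_mul hh hh', mul_ne_zero h1 h1',
      mul_ne_zero h2 h2', ?_⟩
    rw [← mulP_comp a hg hh hg' hh', S.X₂.map_comp, S.X₂.map_comp]
    change S.X₂.map _ (S.X₂.map _ (S.X₂.map (mulP a hg hh) x)) = 0
    rw [← hy, ← nat_apply, h3', map_zero, map_zero]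

/-- The torsion modules. -/
abbrev tors (τ τ' : ℂ) (s : Bool) : ObjectProperty (GM τ τ' s) :=
  (tors0 τ τ' s).inverseImage (lin τ τ' s).ι

/-- **Quasi-coherent sheaves** on the abelian surface `E × F` (`s = false`) and on the bielliptic
surface `S` (`s = true`): graded modules modulo those whose sheaf is zero. -/
def QC (τ τ' : ℂ) (s : Bool) : Type 1 := (tors τ τ' s).isoModSerre.Localization

noncomputable instance : Category.{1} (QC τ τ' s) :=
  (inferInstance : Category (tors τ τ' s).isoModSerre.Localization)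

/-- The sheaf of a graded module. -/
noncomputable def sh (τ τ' : ℂ) (s : Bool) : GM τ τ' s ⥤ QC τ τ' s := (tors τ τ' s).isoModSerre.Q

noncomputable instance : Abelian (QC τ τ' s) :=
  ObjectProperty.SerreClassLocalization.abelian
    (D := (tors τ τ' s).isoModSerre.Localization) (tors τ τ' s).isoModSerre.Q (tors τ τ' s)

instance : (sh τ τ' s).IsLocalization (tors τ τ' s).isoModSerre :=
  inferInstanceAs ((tors τ τ' s).isoModSerre.Q.IsLocalization (tors τ τ' s).isoModSerre)

instance : (sh τ τ' s).Additive := inferInstanceAs ((tors τ τ' s).isoModSerre.Q.Additive)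

noncomputable instance : Linear ℂ (QC τ τ' s) :=
  (inferInstance : Linear ℂ (tors τ τ' s).isoModSerre.Localization)

instance : (sh τ τ' s).Linear ℂ :=
  inferInstanceAs ((tors τ τ' s).isoModSerre.Q.Linear ℂ)

instance : PreservesFiniteLimits (sh τ τ' s) :=
  ObjectProperty.SerreClassLocalization.preservesFiniteLimits (sh τ τ' s) (tors τ τ' s)

instance : PreservesFiniteColimits (sh τ τ' s) :=
  ObjectProperty.SerreClassLocalization.preservesFiniteColimits (sh τ τ' s) (tors τ τ' s)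

end modules

end Run7.h354.BE
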