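import Pool.Agent.Run7.h354.BE.QCA

/-!
# Modules of functions
-/

set_option autoImplicit false
set_option linter.unusedSectionVars false
set_option linter.unusedVariables false

open CategoryTheory CategoryTheory.Limits Complex ZeroObject

namespace Run7.h354.BE

/-- Sheaves of functions on a subvariety of `E × F` (all of `E × F`, a curve `{z} × F` or
`E × {w}`, or a point): functions on the set `T`, which is mapped to `ℂ × ℂ` by `j`. -/
structure FM (τ τ' : ℂ) where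
  /-- the set -/
  T : Type
  /-- the map -/
  j : T → ℂ × ℂ
  /-- the functions -/
  U : Gam2 → Submodule ℂ (T → ℂ)
  mul : ∀ {a b : Gam2} {f : ℂ × ℂ → ℂ} {ψ : T → ℂ}, f ∈ W τ τ' a → ψ ∈ U b →
    (fun t => f (j t)) * ψ ∈ U (a + b)
  loc : ∀ (a : Gam2) (ψ : T → ℂ), (∀ t, ∃ (γ δ : Gam) (g h : ℂ → ℂ), g ∈ V τ γ ∧ h ∈ V τ' δ ∧
    g (j t).1 ≠ 0 ∧ h (j t).2 ≠ 0 ∧ (fun t => pr g h (j t)) * ψ ∈ U (a + (γ, δ))) → ψ ∈ U a

variable {τ τ' : ℂ}

/-- The graded module of functions. -/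
noncomputable def fmF (X : FM τ τ') (a : Gam2) : Ob τ τ' false ⥤ ModuleCat.{0} ℂ where
  obj b := ModuleCat.of ℂ (X.U (b.deg - a))
  map {b c} φ := ModuleCat.ofHom
    { toFun := fun ψ => ⟨(fun t => (φ : Mor b c).f (X.j t)) * ψ.1, by
        have h := X.mul (f_mem φ) ψ.2
        rwa [sub_add_sub_cancel] at h⟩
      map_add' := fun f g => Subtype.ext (mul_add _ _ _)
      map_smul' := fun c f => Subtype.ext (mul_smul_comm _ _ _) }
  map_id b := ModuleCat.hom_ext (LinearMap.ext fun f => Subtype.ext (one_mul _))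
  map_comp {b c d} φ ψ := by
    refine ModuleCat.hom_ext (LinearMap.ext fun f => Subtype.ext (funext fun t => ?_))
    show (φ ≫ ψ : Mor b d).f (X.j t) * f.1 t =
      (ψ : Mor c d).f (X.j t) * ((φ : Mor b c).f (X.j t) * f.1 t)
    rw [comp_f', Pi.mul_apply, mul_assoc]

/-- The graded module of functions, twisted by `-a`. -/
noncomputable def fm (X : FM τ τ') (a : Gam2) : GM τ τ' false :=
  ⟨fmF X a, by
    intro b c e he r f g hf hg
    refine ModuleCat.hom_ext (LinearMap.ext fun h => Subtype.ext (funext fun t => ?_))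
    show (r * f (X.j t) + g (X.j t)) * h.1 t = r * (f (X.j t) * h.1 t) + g (X.j t) * h.1 t
    ring⟩

/-- Multiplication by a theta function of two variables. -/
noncomputable def fmm (X : FM τ τ') {a b : Gam2} (f : ℂ × ℂ → ℂ) (hf : f ∈ W τ τ' (b - a)) :
    fm X b ⟶ fm X a := (lin τ τ' false).homMk
  { app := fun c => ModuleCat.ofHom
      { toFun := fun ψ => ⟨(fun t => f (X.j t)) * ψ.1, by
          have h := X.mul hf ψ.2
          rwa [show b - a + (c.deg - b) = c.deg - a by abel] at h⟩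
        map_add' := fun f g => Subtype.ext (mul_add _ _ _)
        map_smul' := fun c f => Subtype.ext (mul_smul_comm _ _ _) }
    naturality := fun c d φ => by
      refine ModuleCat.hom_ext (LinearMap.ext fun ψ => Subtype.ext (funext fun t => ?_))
      show f (X.j t) * ((φ : Mor c d).f (X.j t) * ψ.1 t) =
        (φ : Mor c d).f (X.j t) * (f (X.j t) * ψ.1 t)
      ring }

/-- Restriction to a subvariety. -/
noncomputable def fmr (X Y : FM τ τ') (k : Y.T → X.T) (hk : ∀ t, X.j (k t) = Y.j t)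
    (hU : ∀ a ψ, ψ ∈ X.U a → ψ ∘ k ∈ Y.U a) (a : Gam2) : fm X a ⟶ fm Y a :=
  (lin τ τ' false).homMk
  { app := fun c => ModuleCat.ofHom
      { toFun := fun ψ => ⟨ψ.1 ∘ k, hU _ _ ψ.2⟩
        map_add' := fun f g => rfl
        map_smul' := fun c f => rfl }
    naturality := fun c d φ => by
      refine ModuleCat.hom_ext (LinearMap.ext fun ψ => Subtype.ext (funext fun t => ?_))
      show (φ : Mor c d).f (X.j (k t)) * ψ.1 (k t) = (φ : Mor c d).f (Y.j t) * ψ.1 (k t)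
      rw [hk] }

theorem W_left {a : Gam2} {f : ℂ × ℂ → ℂ} (hf : f ∈ W τ τ' a) (z : ℂ) :
    (fun w => f (z, w)) ∈ V τ' a.2 :=
  ⟨hf.1.comp ((differentiable_const z).prodMk differentiable_id), fun w => hf.2.2.1 z w,
    fun w => hf.2.2.2.2 z w⟩

theorem W_right {a : Gam2} {f : ℂ × ℂ → ℂ} (hf : f ∈ W τ τ' a) (w : ℂ) :
    (fun z => f (z, w)) ∈ V τ a.1 :=
  ⟨hf.1.comp (differentiable_id.prodMk (differentiable_const w)), fun z => hf.2.1 z w,
    fun z => hf.2.2.2.1 z w⟩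

/-- a function on a product which is locally a theta function is a theta function -/
theorem V_loc (τ : ℂ) (a : Gam) (ψ : ℂ → ℂ) (h : ∀ t, ∃ (γ : Gam) (g : ℂ → ℂ), g ∈ V τ γ ∧
    g t ≠ 0 ∧ g * ψ ∈ V τ (a + γ)) : ψ ∈ V τ a := by
  refine ⟨fun t => ?_, fun t => ?_, fun t => ?_⟩
  · obtain ⟨γ, g, hg, h1, h2⟩ := h t
    have e : ψ =ᶠ[nhds t] fun x => (g * ψ) x / g x := by
      filter_upwards [hg.1.continuous.continuousAt.eventually_ne h1] with x hx
      show ψ x = g x * ψ x / g x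
      field_simp
    exact ((h2.1 t).div (hg.1 t) h1).congr_of_eventuallyEq e
  · obtain ⟨γ, g, hg, h1, h2⟩ := h t
    have e := h2.2.1 t
    simp only [Pi.mul_apply, hg.2.1] at e
    exact mul_left_cancel₀ h1 e
  · obtain ⟨γ, g, hg, h1, h2⟩ := h t
    have e := h2.2.2 t
    simp only [Pi.mul_apply, hg.2.2, Gam.c_add, Prod.fst_add, Int.cast_add] at e
    rw [show -(2 * Real.pi * I * ((a.1 : ℂ) + γ.1) * t) =
      -(2 * Real.pi * I * a.1 * t) + -(2 * Real.pi * I * γ.1 * t) by ring, exp_add] at e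
    have h3 : γ.c * exp (-(2 * Real.pi * I * γ.1 * t)) * g t ≠ 0 :=
      mul_ne_zero (mul_ne_zero γ.c_ne (exp_ne_zero _)) h1
    apply mul_left_cancel₀ h3
    rw [e]
    ring

theorem W_loc (τ τ' : ℂ) (a : Gam2) (ψ : ℂ × ℂ → ℂ) (h : ∀ t, ∃ (b : Gam2) (g : ℂ × ℂ → ℂ),
    g ∈ W τ τ' b ∧ g t ≠ 0 ∧ g * ψ ∈ W τ τ' (a + b)) : ψ ∈ W τ τ' a := by
  refine ⟨fun t => ?_, fun z w => ?_, fun z w => ?_, fun z w => ?_, fun z w => ?_⟩
  · obtain ⟨γ, g, hg, h1, h2⟩ := h t
    have e : ψ =ᶠ[nhds t] fun x => (g * ψ) x * (g x)⁻¹ := by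
      filter_upwards [hg.1.continuous.continuousAt.eventually_ne h1] with x hx
      show ψ x = g x * ψ x * (g x)⁻¹
      field_simp
    exact ((h2.1 t).mul ((hg.1 t).inv h1)).congr_of_eventuallyEq e
  · obtain ⟨γ, g, hg, h1, h2⟩ := h (z, w)
    have e := h2.2.1 z w
    simp only [Pi.mul_apply, hg.2.1] at e
    exact mul_left_cancel₀ h1 e
  · obtain ⟨γ, g, hg, h1, h2⟩ := h (z, w)
    have e := h2.2.2.1 z w
    simp only [Pi.mul_apply, hg.2.2.1] at e
    exact mul_left_cancel₀ h1 e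
  · obtain ⟨γ, g, hg, h1, h2⟩ := h (z, w)
    have e := h2.2.2.2.1 z w
    simp only [Pi.mul_apply, hg.2.2.2.1, Gam.c_add, Prod.fst_add, Int.cast_add] at e
    rw [show -(2 * Real.pi * I * ((a.1.1 : ℂ) + γ.1.1) * z) =
      -(2 * Real.pi * I * a.1.1 * z) + -(2 * Real.pi * I * γ.1.1 * z) by ring, exp_add] at e
    have h3 : γ.1.c * exp (-(2 * Real.pi * I * γ.1.1 * z)) * g (z, w) ≠ 0 :=
      mul_ne_zero (mul_ne_zero γ.1.c_ne (exp_ne_zero _)) h1
    apply mul_left_cancel₀ h3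
    rw [e]
    ring
  · obtain ⟨γ, g, hg, h1, h2⟩ := h (z, w)
    have e := h2.2.2.2.2 z w
    simp only [Pi.mul_apply, hg.2.2.2.2, Gam.c_add, Prod.fst_add, Prod.snd_add, Int.cast_add] at e
    rw [show -(2 * Real.pi * I * ((a.2.1 : ℂ) + γ.2.1) * w) =
      -(2 * Real.pi * I * a.2.1 * w) + -(2 * Real.pi * I * γ.2.1 * w) by ring, exp_add] at e
    have h3 : γ.2.c * exp (-(2 * Real.pi * I * γ.2.1 * w)) * g (z, w) ≠ 0 :=
      mul_ne_zero (mul_ne_zero γ.2.c_ne (exp_ne_zero _)) h1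
    apply mul_left_cancel₀ h3
    rw [e]
    ring

/-- Functions on `E × F`. -/
noncomputable def fW (τ τ' : ℂ) : FM τ τ' where
  T := ℂ × ℂ
  j := id
  U := W τ τ'
  mul hf hψ := W_mul hf hψ
  loc a ψ h := W_loc τ τ' a ψ fun t => by
    obtain ⟨γ, δ, g, h', hg, hh, h1, h2, h3⟩ := h t
    exact ⟨(γ, δ), pr g h', W_pr hg hh, mul_ne_zero h1 h2, h3⟩

/-- Functions on `{z} × F`. -/
noncomputable def fL (τ τ' : ℂ) (z : ℂ) : FM τ τ' where
  T := ℂ
  j w := (z, w)
  U a := V τ' a.2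
  mul hf hψ := V_mul (W_left hf z) hψ
  loc a ψ h := V_loc τ' a.2 ψ fun t => by
    obtain ⟨γ, δ, g, h', hg, hh, h1, h2, h3⟩ := h t
    refine ⟨δ, h', hh, h2, ?_⟩
    have e : h' * ψ = (g z)⁻¹ • ((fun t => pr g h' (z, t)) * ψ) := by
      funext t
      show h' t * ψ t = (g z)⁻¹ * (g z * h' t * ψ t)
      have h1' : g z ≠ 0 := h1
      field_simp
    rw [e]
    exact Submodule.smul_mem _ _ h3

/-- Functions on `E × {w}`. -/
noncomputable def fL' (τ τ' : ℂ) (w : ℂ) : FM τ τ' where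
  T := ℂ
  j z := (z, w)
  U a := V τ a.1
  mul hf hψ := V_mul (W_right hf w) hψ
  loc a ψ h := V_loc τ a.1 ψ fun t => by
    obtain ⟨γ, δ, g, h', hg, hh, h1, h2, h3⟩ := h t
    refine ⟨γ, g, hg, h1, ?_⟩
    have e : g * ψ = (h' w)⁻¹ • ((fun t => pr g h' (t, w)) * ψ) := by
      funext t
      show g t * ψ t = (h' w)⁻¹ * (g t * h' w * ψ t)
      have h1' : h' w ≠ 0 := h2
      field_simp
    rw [e]
    exact Submodule.smul_mem _ _ h3

/-- Functions on a point. -/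
noncomputable def fP (τ τ' : ℂ) (x : ℂ × ℂ) : FM τ τ' where
  T := Unit
  j _ := x
  U _ := ⊤
  mul _ _ := Submodule.mem_top
  loc _ _ _ := Submodule.mem_top

theorem fP_mem (x : ℂ × ℂ) (a : Gam2) (ψ : Unit → ℂ) : ψ ∈ (fP τ τ' x).U a := trivial

/-- Restriction from `E × F` to `{z} × F`. -/
noncomputable def rWL (z : ℂ) (a : Gam2) : fm (fW τ τ') a ⟶ fm (fL τ τ' z) a :=
  fmr (fW τ τ') (fL τ τ' z) (fun w : ℂ => ((z, w) : ℂ × ℂ)) (fun _ => rfl) (fun _ _ h => W_left h z) a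

/-- Restriction from `E × F` to `E × {w}`. -/
noncomputable def rWL' (w : ℂ) (a : Gam2) : fm (fW τ τ') a ⟶ fm (fL' τ τ' w) a :=
  fmr (fW τ τ') (fL' τ τ' w) (fun z : ℂ => ((z, w) : ℂ × ℂ)) (fun _ => rfl)
    (fun _ _ h => W_right h w) a

/-- Restriction from `{z} × F` to the point `(z, w)`. -/
noncomputable def rLP (z w : ℂ) (a : Gam2) : fm (fL τ τ' z) a ⟶ fm (fP τ τ' (z, w)) a :=
  fmr (fL τ τ' z) (fP τ τ' (z, w)) (fun _ => w) (fun _ => rfl) (fun _ _ _ => fP_mem _ _ _) a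

/-- Restriction from `E × {w}` to the point `(z, w)`. -/
noncomputable def rLP' (z w : ℂ) (a : Gam2) : fm (fL' τ τ' w) a ⟶ fm (fP τ τ' (z, w)) a :=
  fmr (fL' τ τ' w) (fP τ τ' (z, w)) (fun _ => z) (fun _ => rfl) (fun _ _ _ => fP_mem _ _ _) a

/-- All the skyscraper modules at `x` are isomorphic to `pt x`. -/
noncomputable def fPpt (x : ℂ × ℂ) (a : Gam2) : fm (fP τ τ' x) a ≅ pt τ τ' x where
  hom := (lin τ τ' false).homMk
    { app := fun c => ModuleCat.ofHom
        { toFun := fun ψ => ψ.1 ()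
          map_add' := fun f g => rfl
          map_smul' := fun c f => rfl }
      naturality := fun c d φ => rfl }
  inv := (lin τ τ' false).homMk
    { app := fun c => ModuleCat.ofHom
        { toFun := fun (r : ℂ) => ⟨fun _ => r, fP_mem _ _ _⟩
          map_add' := fun f g => rfl
          map_smul' := fun c f => rfl }
      naturality := fun c d φ => rfl }
  hom_inv_id := rfl
  inv_hom_id := rfl

theorem fm_free (a : Gam2) : fm (fW τ τ') a = free τ τ' a := rfl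

/-- The map from a line bundle given by a function of degree `a - b`. -/
noncomputable def fmg (X : FM τ τ') {a b : Gam2} (ψ : X.T → ℂ) (hψ : ψ ∈ X.U (a - b)) :
    fm (fW τ τ') a ⟶ fm X b := (lin τ τ' false).homMk
  { app := fun c => ModuleCat.ofHom
      { toFun := fun f => ⟨(fun t => f.1 (X.j t)) * ψ, by
          have h := X.mul (f := f.1) f.2 hψ
          rwa [sub_add_sub_cancel] at h⟩
        map_add' := fun f g => Subtype.ext (add_mul _ _ _)
        map_smul' := fun c f => Subtype.ext (funext fun t => mul_assoc _ _ _) }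
    naturality := fun c d φ => by
      refine ModuleCat.hom_ext (LinearMap.ext fun f => Subtype.ext (funext fun t => ?_))
      show ((φ : Mor c d).f (X.j t) * f.1 (X.j t)) * ψ t =
        (φ : Mor c d).f (X.j t) * (f.1 (X.j t) * ψ t)
      ring }

/-- The value of a map from a line bundle on the generator. -/
theorem fmg_eq (X : FM τ τ') {a b : Gam2} (f : fm (fW τ τ') a ⟶ fm X b) :
    ∃ (ψ : X.T → ℂ) (hψ : ψ ∈ X.U (a - b)), f = fmg X ψ hψ := by
  have h1 : (1 : ℂ × ℂ → ℂ) ∈ W τ τ' (a - a) := by rw [sub_self]; exact W_one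
  let e : (fm (fW τ τ') a).obj.obj ⟨a⟩ := (⟨1, h1⟩ : W τ τ' (a - a))
  let y : (fm X b).obj.obj ⟨a⟩ := f.hom.app ⟨a⟩ e
  have hy : (y : X.U (a - b)).1 ∈ X.U (a - b) := (y : X.U (a - b)).2
  refine ⟨(y : X.U (a - b)).1, hy, ObjectProperty.hom_ext _ ?_⟩
  ext c k
  have hk : (k : W τ τ' (c.deg - a)).1 ∈ W τ τ' (c.deg - (⟨a⟩ : Ob τ τ' false).deg) :=
    (k : W τ τ' (c.deg - a)).2
  have h2 := nat_apply f.hom (mul (a := (⟨a⟩ : Ob τ τ' false)) (b := c)
    (k : W τ τ' (c.deg - a)).1 hk) e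
  have h3 : (fm (fW τ τ') a).obj.map (mul (a := (⟨a⟩ : Ob τ τ' false)) (b := c)
    (k : W τ τ' (c.deg - a)).1 hk) e = k := Subtype.ext (mul_one _)
  rw [h3] at h2
  exact h2.trans (Subtype.ext rfl)

end Run7.h354.BE
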