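import Pool.Agent.Run7.h354.BE.Fin3

/-!
# Assembly
-/

set_option autoImplicit false
set_option linter.unusedSectionVars false
set_option linter.unusedVariables false

open CategoryTheory CategoryTheory.Limits Pretriangulated Triangulated Complex ZeroObject
open Pool.Agent.Helper445_GMF

namespace Run7.h354.BE

universe w w' v u

section TE

variable {τ τ' : ℂ} {s : Bool}

theorem TE.mapMul {M : Ob τ τ' s ⥤ ModuleCat.{0} ℂ} {a b : Ob τ τ' s} {x : M.obj a}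
    (h : TE M x) (f : ℂ × ℂ → ℂ) (hf : f ∈ W τ τ' (b.deg - a.deg)) : TE M (M.map (mul f hf) x) := by
  intro z w
  obtain ⟨γ, δ, g, k, hg, hk, h1, h2, h3⟩ := h z w
  refine ⟨γ, δ, g, k, hg, hk, h1, h2, ?_⟩
  have hf' : f ∈ W τ τ' ((⟨b.deg + (γ, δ)⟩ : Ob τ τ' s).deg - (⟨a.deg + (γ, δ)⟩ : Ob τ τ' s).deg) := by
    show f ∈ W τ τ' (b.deg + (γ, δ) - (a.deg + (γ, δ)))
    rwa [add_sub_add_right_eq_sub]
  have e : mul f hf ≫ mulP b hg hk = mulP a hg hk ≫ mul (a := (⟨a.deg + (γ, δ)⟩ : Ob τ τ' s))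
      (b := ⟨b.deg + (γ, δ)⟩) f hf' := by
    refine Mor.ext rfl ?_
    funext p
    show pr g k p * f p = f p * pr g k p
    rw [mul_comm]
  have h4 : M.map (mulP b hg hk) (M.map (mul f hf) x) = M.map (mul f hf ≫ mulP b hg hk) x := by
    rw [M.map_comp]
    rfl
  rw [h4, e, M.map_comp]
  show M.map _ (M.map _ x) = 0
  rw [h3, map_zero]

end TE

section act

variable {τ τ' : ℂ}

/-- a theta function of the first curve which is zero on a sheaf makes it torsion -/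
theorem te_of_DE {M : GM τ τ' false} (γ : Gam) (f : ℂ → ℂ) (hf : f ∈ V τ (γ - 0)) (hf' : f ∈ V τ γ)
    (h : ((DE τ τ').qc.Φ.map (gm f hf)).app ((sh τ τ' false).obj M) = 0) (a : Ob τ τ' false)
    (x : M.obj.obj a) : TE M.obj (M.obj.map (mulP a hf' (V_one (τ := τ'))) x) := by
  have h1 := ((DE τ τ').qc_eq_zero f hf M).1 h
  have h2 := (sh_map_eq_zero _).1 h1
  let a' : Ob τ τ' false := ((DE τ τ').t 0).obj a
  have h0 : (1 : ℂ × ℂ → ℂ) ∈ W τ τ' (a'.deg - a.deg) := by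
    show _ ∈ W τ τ' (a.deg + (DE τ τ').δ 0 - a.deg)
    rw [map_zero, add_zero, sub_self]
    exact W_one
  have h3 := ((DE τ τ').te_tw γ M _).1 (h2 a (M.obj.map (mul 1 h0) x))
  have h5 : (1 : ℂ × ℂ → ℂ) ∈ W τ τ' ((⟨a.deg + (γ, 0)⟩ : Ob τ τ' false).deg -
      (((DE τ τ').t γ).obj a).deg) := by
    show _ ∈ W τ τ' (a.deg + (γ, 0) - (a.deg + (γ, 0)))
    rw [sub_self]
    exact W_one
  have h4 := TE.mapMul h3 1 h5
  convert h4 using 1
  have e : mulP a hf' (V_one (τ := τ')) = mul (1 : ℂ × ℂ → ℂ) h0 ≫ (DE τ τ').m (a := 0) (b := γ) f hf a ≫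
      mul (1 : ℂ × ℂ → ℂ) h5 := by
    refine Mor.ext rfl ?_
    funext p
    show f p.1 * 1 = 1 * f p.1 * 1
    ring
  rw [e, M.obj.map_comp, M.obj.map_comp]
  rfl

/-- a theta function of the second curve which is zero on a sheaf makes it torsion -/
theorem te_of_DF {M : GM τ τ' false} (γ : Gam) (f : ℂ → ℂ) (hf : f ∈ V τ' (γ - 0)) (hf' : f ∈ V τ' γ)
    (h : ((DF τ τ').qc.Φ.map (gm f hf)).app ((sh τ τ' false).obj M) = 0) (a : Ob τ τ' false)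
    (x : M.obj.obj a) : TE M.obj (M.obj.map (mulP a (V_one (τ := τ)) hf') x) := by
  have h1 := ((DF τ τ').qc_eq_zero f hf M).1 h
  have h2 := (sh_map_eq_zero _).1 h1
  let a' : Ob τ τ' false := ((DF τ τ').t 0).obj a
  have h0 : (1 : ℂ × ℂ → ℂ) ∈ W τ τ' (a'.deg - a.deg) := by
    show _ ∈ W τ τ' (a.deg + (DF τ τ').δ 0 - a.deg)
    rw [map_zero, add_zero, sub_self]
    exact W_one
  have h3 := ((DF τ τ').te_tw γ M _).1 (h2 a (M.obj.map (mul 1 h0) x))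
  have h5 : (1 : ℂ × ℂ → ℂ) ∈ W τ τ' ((⟨a.deg + (0, γ)⟩ : Ob τ τ' false).deg -
      (((DF τ τ').t γ).obj a).deg) := by
    show _ ∈ W τ τ' (a.deg + (0, γ) - (a.deg + (0, γ)))
    rw [sub_self]
    exact W_one
  have h4 := TE.mapMul h3 1 h5
  convert h4 using 1
  have e : mulP a (V_one (τ := τ)) hf' = mul (1 : ℂ × ℂ → ℂ) h0 ≫ (DF τ τ').m (a := 0) (b := γ) f hf a ≫
      mul (1 : ℂ × ℂ → ℂ) h5 := by
    refine Mor.ext rfl ?_
    funext p
    show 1 * f p.2 = 1 * f p.2 * 1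
    ring
  rw [e, M.obj.map_comp, M.obj.map_comp]
  rfl

/-- Nonzero maps between an object killed by `u z` and `v w` and the skyscraper sheaf. -/
theorem exists_maps (hDU : S_DU) (hτ : 0 < τ.im) (hτ' : 0 < τ'.im) {u v : ℂ → ℂ → ℂ} (hu : TH τ u)
    (hv : TH τ' v) (z w : ℂ) (hz : u z ∈ V τ (gu z - 0)) (hw : v w ∈ V τ' (gu w - 0))
    (H : QC τ τ' false) (hH : ¬ IsZero H) (h1 : ((DE τ τ').qc.Φ.map (gm (u z) hz)).app H = 0)
    (h2 : ((DF τ τ').qc.Φ.map (gm (v w) hw)).app H = 0) :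
    (∃ f : H ⟶ (sh τ τ' false).obj (pt τ τ' (z, w)), f ≠ 0) ∧
      ∃ f : (sh τ τ' false).obj (pt τ τ' (z, w)) ⟶ H, f ≠ 0 := by
  have : (sh τ τ' false).EssSurj := Localization.essSurj _ (tors τ τ' false).isoModSerre
  let M := (sh τ τ' false).objPreimage H
  let e : (sh τ τ' false).obj M ≅ H := (sh τ τ' false).objObjPreimageIso H
  have h1' : ((DE τ τ').qc.Φ.map (gm (u z) hz)).app ((sh τ τ' false).obj M) = 0 := by
    rw [← cancel_mono (((DE τ τ').qc.Φ.obj ⟨gu z⟩).map e.hom), zero_comp,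
      ← ((DE τ τ').qc.Φ.map (gm (u z) hz)).naturality, h1, comp_zero]
  have h2' : ((DF τ τ').qc.Φ.map (gm (v w) hw)).app ((sh τ τ' false).obj M) = 0 := by
    rw [← cancel_mono (((DF τ τ').qc.Φ.obj ⟨gu w⟩).map e.hom), zero_comp,
      ← ((DF τ τ').qc.Φ.map (gm (v w) hw)).naturality, h2, comp_zero]
  have hM : ¬ tors τ τ' false M := fun h => hH ((isZero_sh.2 h).of_iso e.symm)
  obtain ⟨⟨f, hf⟩, ⟨g, hg⟩⟩ := hDU τ τ' hτ hτ' u v hu hv z w M
    (fun hu' a x => te_of_DE _ _ hz hu' h1' a x) (fun hv' a x => te_of_DF _ _ hw hv' h2' a x) hM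
  refine ⟨⟨e.inv ≫ (sh τ τ' false).map f, fun h => hf ?_⟩, ⟨g ≫ e.hom, fun h => hg ?_⟩⟩
  · rw [← cancel_epi e.inv, h, comp_zero]
  · rw [← cancel_mono e.hom, h, zero_comp]

end act

/-- the action on a triangulated subcategory of the derived category -/
theorem exEA (hK0 : S_K0) (hEAD : S_EAD.{w, 1, 1}) (hEAR : S_EAR.{w, 1}) {τ₀ τ τ' : ℂ} {s : Bool}
    (D : Dat τ₀ τ τ' s) [HasDerivedCategory.{w} (QC τ τ' s)]
    (P : ObjectProperty (DerivedCategory (QC τ τ' s))) [P.IsTriangulated]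
    [P.IsClosedUnderIsomorphisms] (hP : ∀ a X, P X → P ((D.qc.der.Φ.obj a).obj X)) :
    ∃ E : EA τ₀ P.FullSubcategory, E.Φ = resΦ D.qc.der.Φ P hP := by
  obtain ⟨E, hE⟩ := hEAD (QC τ τ' s) τ₀ D.qc D.qc_lin (hK0 τ₀ τ τ' s D)
  have key : ∀ (Φ : Gr τ₀ ⥤ (DerivedCategory (QC τ τ' s) ⥤ DerivedCategory (QC τ τ' s)))
      (hΦ : E.Φ = Φ) (hP' : ∀ a X, P X → P ((Φ.obj a).obj X)),
      ∃ E' : EA τ₀ P.FullSubcategory, E'.Φ = resΦ Φ P hP' := by
    rintro _ rfl hP'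
    exact hEAR (DerivedCategory (QC τ τ' s)) P τ₀ E hP'
  exact key _ hE hP

end Run7.h354.BE
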