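import Pool.Agent.Run7.h299.BE_NORM
import Pool.Agent.Run7.helper62.BE_PEN
import Pool.Agent.Run7.h622.BE_INV
import Pool.Agent.Run7.h67.BE_JH
import Pool.Agent.Run7.h824.BE.Cov
import Pool.Agent.Run7.h824.BE.Orb
import Pool.Agent.Run7.h824.BE.Sup

/-!
# Skyscraper sheaves are stable
-/

set_option autoImplicit false
set_option linter.unusedSectionVars false
set_option linter.unusedVariables false

open CategoryTheory CategoryTheory.Limits Pretriangulated Triangulated Complex ZeroObject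
open Pool.Agent.Helper445_GMF

namespace Run7.h354.BE

universe v u

theorem d_JH : S_JH.{v, u} := Run7.h67.BEJH.p_JH
theorem d_SUM : S_SUM.{v, u} := Run7.h354.BE.p_SUM
theorem d_GAP : S_GAP.{v, u} := Run7.h354.BE.p_GAP
theorem d_PEN : S_PEN.{v, u} := Run7.h354.BE.p_PEN
theorem d_INV : S_INV.{v, u} := Run7.h622.BE.p_INV d_SUM d_PEN
theorem d_ORB : S_ORB.{v, u} := Run7.h824.BE.p_ORB d_JH
theorem d_SUP : S_SUP.{v, u} := Run7.h824.BE.p_SUP d_JH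
theorem d_NORM : S_NORM.{v, u} := Run7.h299.BENORM.p_NORM
theorem d_TH : S_TH := Run7.h299.BETH.p_TH

section

variable {C : Type u} [Category.{v} C] [Preadditive C] [Linear ℂ C] [HasZeroObject C]
  [HasShift C ℤ] [∀ n : ℤ, (shiftFunctor C n).Additive] [Pretriangulated C] [IsTriangulated C]
  (σ : PreStab C)

theorem not_stable {φ : ℝ} {A : C} (hA : σ.P φ A) (h0 : ¬ IsZero A) (hs : ¬ σ.Stable φ A) :
    ∃ (A' B' : C) (f' : A' ⟶ A) (g' : A ⟶ B') (h' : B' ⟶ A'⟦(1 : ℤ)⟧),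
      Triangle.mk f' g' h' ∈ distTriang C ∧ σ.P φ A' ∧ σ.P φ B' ∧ ¬ IsZero A' ∧ ¬ IsZero B' := by
  by_contra hc
  push Not at hc
  refine hs ⟨hA, h0, fun A' B' f' g' h' hT hA' hB' => ?_⟩
  by_contra h
  rw [not_or] at h
  exact h.2 (hc A' B' f' g' h' hT hA' hB' h.1)

theorem exists_stable_to (m : ℝ) (hm : 0 < m)
    (hgap : ∀ φ X, σ.P φ X → ¬ IsZero X → m ≤ ‖σ.Z X‖) (φ : ℝ) (O : C) (n : ℕ) :
    ∀ A : C, σ.P φ A → ‖σ.Z A‖ ≤ n * m → (∃ f : A ⟶ O, f ≠ 0) →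
    ∃ (B : C) (f : B ⟶ O), σ.Stable φ B ∧ f ≠ 0 := by
  induction n with
  | zero =>
    rintro A hA hn ⟨f, hf⟩
    have h0 : ¬ IsZero A := fun h => hf (h.eq_of_src _ _)
    have := hgap φ A hA h0
    simp only [Nat.cast_zero, zero_mul] at hn
    linarith
  | succ n ih =>
    rintro A hA hn ⟨f, hf⟩
    have h0 : ¬ IsZero A := fun h => hf (h.eq_of_src _ _)
    by_cases hs : σ.Stable φ A
    · exact ⟨A, f, hs, hf⟩
    · obtain ⟨A', B', f', g', h', hT, hA', hB', h1, h2⟩ := not_stable σ hA h0 hs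
      have hadd := Run7.h67.BEJH.norm_add σ hT hA' hB'
      have m1 := hgap φ A' hA' h1
      have m2 := hgap φ B' hB' h2
      push_cast at hn
      by_cases hc : f' ≫ f = 0
      · obtain ⟨k, hk⟩ := Triangle.yoneda_exact₂ _ hT f hc
        exact ih B' hB' (by linarith) ⟨k, fun h => hf (by rw [hk, h]; exact comp_zero)⟩
      · exact ih A' hA' (by linarith) ⟨f' ≫ f, hc⟩

theorem exists_stable_from (m : ℝ) (hm : 0 < m)
    (hgap : ∀ φ X, σ.P φ X → ¬ IsZero X → m ≤ ‖σ.Z X‖) (φ : ℝ) (O : C) (n : ℕ) :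
    ∀ A : C, σ.P φ A → ‖σ.Z A‖ ≤ n * m → (∃ f : O ⟶ A, f ≠ 0) →
    ∃ (B : C) (f : O ⟶ B), σ.Stable φ B ∧ f ≠ 0 := by
  induction n with
  | zero =>
    rintro A hA hn ⟨f, hf⟩
    have h0 : ¬ IsZero A := fun h => hf (h.eq_of_tgt _ _)
    have := hgap φ A hA h0
    simp only [Nat.cast_zero, zero_mul] at hn
    linarith
  | succ n ih =>
    rintro A hA hn ⟨f, hf⟩
    have h0 : ¬ IsZero A := fun h => hf (h.eq_of_tgt _ _)
    by_cases hs : σ.Stable φ A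
    · exact ⟨A, f, hs, hf⟩
    · obtain ⟨A', B', f', g', h', hT, hA', hB', h1, h2⟩ := not_stable σ hA h0 hs
      have hadd := Run7.h67.BEJH.norm_add σ hT hA' hB'
      have m1 := hgap φ A' hA' h1
      have m2 := hgap φ B' hB' h2
      push_cast at hn
      by_cases hc : f ≫ g' = 0
      · obtain ⟨k, hk⟩ := Triangle.coyoneda_exact₂ _ hT f hc
        exact ih A' hA' (by linarith) ⟨k, fun h => hf (by rw [hk, h]; exact zero_comp)⟩
      · exact ih B' hB' (by linarith) ⟨f ≫ g', hc⟩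

theorem P_shift_nat (n : ℕ) {φ : ℝ} {X : C} (h : σ.P φ X) : σ.P (φ + n) (X⟦(n : ℤ)⟧) := by
  induction n with
  | zero =>
    simp only [Nat.cast_zero, add_zero]
    exact σ.iso ((shiftFunctorZero C ℤ).symm.app X) h
  | succ n ih =>
    have e : X⟦((n + 1 : ℕ) : ℤ)⟧ ≅ X⟦(n : ℤ)⟧⟦(1 : ℤ)⟧ :=
      (shiftFunctorAdd' C (n : ℤ) 1 ((n + 1 : ℕ) : ℤ) (by push_cast; ring)).app X
    refine σ.iso e.symm ?_
    have := (σ.shift _ _).2 ih
    rwa [add_assoc, ← Nat.cast_succ] at this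

theorem P_shift_neg (n : ℕ) {φ : ℝ} {X : C} (h : σ.P φ X) : σ.P (φ - n) (X⟦(-n : ℤ)⟧) := by
  induction n with
  | zero =>
    simp only [Nat.cast_zero, sub_zero, neg_zero]
    exact σ.iso ((shiftFunctorZero C ℤ).symm.app X) h
  | succ n ih =>
    have e : X⟦(-n : ℤ)⟧ ≅ X⟦(-((n + 1 : ℕ) : ℤ))⟧⟦(1 : ℤ)⟧ :=
      (shiftFunctorAdd' C (-((n + 1 : ℕ) : ℤ)) 1 (-n : ℤ) (by push_cast; ring)).app X
    refine (σ.shift _ _).1 ?_
    have := σ.iso e ih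
    convert this using 1
    push_cast
    ring

theorem hom_shift_neg {X Y : C} (n : ℤ) (h : ∀ k : X⟦n⟧ ⟶ Y, k = 0) (k : X ⟶ Y⟦-n⟧) : k = 0 := by
  apply (shiftFunctor C n).map_injective
  rw [Functor.map_zero, ← cancel_mono (shiftNegShift Y n).hom, zero_comp]
  exact h _

theorem hom_shift_pos {X Y : C} (n : ℤ) (h : ∀ k : X ⟶ Y⟦-n⟧, k = 0) (k : X⟦n⟧ ⟶ Y) : k = 0 := by
  apply (shiftFunctor C (-n)).map_injective
  rw [Functor.map_zero, ← cancel_epi (shiftShiftNeg X n).inv, comp_zero]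
  exact h _

theorem end_scalar {φ : ℝ} {A : C} (hA : σ.Stable φ A) (hfin : Module.Finite ℂ (A ⟶ A)) (f : A ⟶ A) :
    ∃ r : ℂ, f = r • 𝟙 A := by
  have h1 : (𝟙 A : A ⟶ A) ≠ 0 := fun h => hA.2.1 ((IsZero.iff_id_eq_zero A).2 h)
  have : Nontrivial (A ⟶ A) := ⟨⟨_, _, h1⟩⟩
  obtain ⟨r, hr⟩ := Module.End.exists_eigenvalue (Linear.rightComp ℂ A f : Module.End ℂ (A ⟶ A))
  obtain ⟨g, hg⟩ := hr.exists_hasEigenvector
  have hg1 : g ≫ f = r • g := hg.apply_eq_smul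
  have : IsIso g := (d_JH C σ φ).2.1 A A g hA hA hg.2
  refine ⟨r, ?_⟩
  rw [← cancel_epi g, hg1, Linear.comp_smul, Category.comp_id]

/-- **The skyscraper sheaves are stable**, abstract version. -/
theorem point_stable (hG : Support σ) {τ τ' : ℂ} (hτ : 0 < τ.im) (hτ' : 0 < τ'.im)
    {u v : ℂ → ℂ → ℂ} (hu : TH τ u) (hv : TH τ' v) (E : EA τ C) (F : EA τ' C)
    (hfin : ∀ A B : C, Module.Finite ℂ (A ⟶ B)) (O : C) (hO : ¬ IsZero O)
    (hEnd : ∀ f : O ⟶ O, ∃ r : ℂ, f = r • 𝟙 O) (hE : ∀ c, Nonempty (E.tw (g0 c) O ≅ O))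
    (hF : ∀ c, Nonempty (F.tw (g0 c) O ≅ O)) (z w : ℂ) (hz : u z ∈ V τ (gu z - 0))
    (hw : v w ∈ V τ' (gu w - 0)) (hEO : E.act (u z) hz O = 0) (hFO : F.act (v w) hw O = 0)
    (hPT : ∀ (A B : C) (f : A ⟶ O) (g : O ⟶ B), E.act (u z) hz A = 0 → F.act (v w) hw A = 0 →
      E.act (u z) hz B = 0 → F.act (v w) hw B = 0 → f ≠ 0 → g ≠ 0 →
      (∀ n : ℤ, 0 < n → ∀ k : A ⟶ O⟦-n⟧, k = 0) → (∀ n : ℤ, 0 < n → ∀ k : O⟦n⟧ ⟶ B, k = 0) →
      f ≫ g ≠ 0) : ∃ φ, σ.Stable φ O := by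
  have hgap : Gap σ := d_GAP C σ hG
  obtain ⟨m, hm, hgap'⟩ := id hgap
  have hIE : ∀ φ G c, σ.P φ G → σ.P φ (E.tw (g0 c) G) := fun φ G c h =>
    (d_INV C τ hτ u hu E σ φ G c h).1
  have hIF : ∀ φ G c, σ.P φ G → σ.P φ (F.tw (g0 c) G) := fun φ G c h =>
    (d_INV C τ' hτ' v hv F σ φ G c h).1
  obtain ⟨a₀, b₀, hHN⟩ := σ.hn O
  rcases σ.HN_nonzero hHN with h | ⟨a, b, _, _, hn⟩
  · exact absurd h hO
  have hgen : Gen σ.P (Set.Icc a b) O := σ.HN_gen (σ.HNn_HN hn)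
  have hab : a ≤ b := (σ.HNn_top hn).1
  -- the top object
  obtain ⟨_, A₀, hA₀, f₀, hf₀⟩ := σ.HNn_top hn
  obtain ⟨n, hn1⟩ := exists_nat_ge (‖σ.Z A₀‖ / m)
  obtain ⟨A, f, hA, hf⟩ := exists_stable_to σ m hm hgap' b O n A₀ hA₀
    ((div_le_iff₀ hm).1 hn1) ⟨f₀, hf₀⟩
  obtain ⟨B₀, hB₀, g₀, hg₀⟩ := σ.HNn_low hn
  obtain ⟨n', hn2⟩ := exists_nat_ge (‖σ.Z B₀‖ / m)
  obtain ⟨B, g, hB, hg⟩ := exists_stable_from σ m hm hgap' a O n' B₀ hB₀
    ((div_le_iff₀ hm).1 hn2) ⟨g₀, hg₀⟩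
  have htop : ∀ ψ > b, ∀ B, σ.P ψ B → ∀ f : B ⟶ O, f = 0 := fun ψ hψ B hB f =>
    Gen.hom_zero σ (S := {ψ}) (S' := Set.Icc a b) (fun s hs s' hs' => by
      rw [Set.mem_singleton_iff] at hs
      subst hs
      exact lt_of_le_of_lt hs'.2 hψ) (.ss (Set.mem_singleton _) hB) hgen f
  have hlow : ∀ ψ < a, ∀ B, σ.P ψ B → ∀ f : O ⟶ B, f = 0 := fun ψ hψ B hB f =>
    Gen.hom_zero σ (S := Set.Icc a b) (S' := {ψ}) (fun s hs s' hs' => by
      rw [Set.mem_singleton_iff] at hs'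
      subst hs'
      exact lt_of_lt_of_le hψ hs.1) hgen (.ss (Set.mem_singleton _) hB) f
  have endA := end_scalar σ hA (hfin A A)
  have endB := end_scalar σ hB (hfin B B)
  have orbE : ∀ (φ : ℝ) (A : C), σ.Stable φ A →
      ((∃ f : A ⟶ O, f ≠ 0) ∧ (∀ ψ > φ, ∀ B, σ.P ψ B → ∀ f : B ⟶ O, f = 0) ∨
      (∃ f : O ⟶ A, f ≠ 0) ∧ (∀ ψ < φ, ∀ B, σ.P ψ B → ∀ f : O ⟶ B, f = 0)) →
      E.act (u z) hz A = 0 := by
    intro φ A hA h
    have h1 := d_ORB C τ E σ hgap hIE O hE φ A hA h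
    obtain ⟨γ, k, hk, hk0, hkA⟩ := d_NORM C τ hτ u hu E A (end_scalar σ hA (hfin A A)) (hfin A) h1
    refine d_SUP C τ hτ u hu E σ φ A hA h1 γ k hk hk0 hkA O z hz hEO ?_
    rcases h with h | h
    · exact Or.inl h.1
    · exact Or.inr h.1
  have orbF : ∀ (φ : ℝ) (A : C), σ.Stable φ A →
      ((∃ f : A ⟶ O, f ≠ 0) ∧ (∀ ψ > φ, ∀ B, σ.P ψ B → ∀ f : B ⟶ O, f = 0) ∨
      (∃ f : O ⟶ A, f ≠ 0) ∧ (∀ ψ < φ, ∀ B, σ.P ψ B → ∀ f : O ⟶ B, f = 0)) →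
      F.act (v w) hw A = 0 := by
    intro φ A hA h
    have h1 := d_ORB C τ' F σ hgap hIF O hF φ A hA h
    obtain ⟨γ, k, hk, hk0, hkA⟩ := d_NORM C τ' hτ' v hv F A (end_scalar σ hA (hfin A A)) (hfin A) h1
    refine d_SUP C τ' hτ' v hv F σ φ A hA h1 γ k hk hk0 hkA O w hw hFO ?_
    rcases h with h | h
    · exact Or.inl h.1
    · exact Or.inr h.1
  have hfg : f ≫ g ≠ 0 := by
    refine hPT A B f g (orbE b A hA (Or.inl ⟨⟨f, hf⟩, htop⟩)) (orbF b A hA (Or.inl ⟨⟨f, hf⟩, htop⟩))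
      (orbE a B hB (Or.inr ⟨⟨g, hg⟩, hlow⟩)) (orbF a B hB (Or.inr ⟨⟨g, hg⟩, hlow⟩)) hf hg ?_ ?_
    · intro n hn0
      obtain ⟨k, rfl⟩ := Int.eq_ofNat_of_zero_le hn0.le
      refine hom_shift_neg _ fun l => ?_
      refine htop (b + k) ?_ _ (P_shift_nat σ k hA.1) l
      have : (0 : ℝ) < k := by exact_mod_cast hn0
      show b < b + k
      linarith
    · intro n hn0
      obtain ⟨k, rfl⟩ := Int.eq_ofNat_of_zero_le hn0.le
      refine hom_shift_pos _ fun l => ?_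
      refine hlow (a - k) ?_ _ (P_shift_neg σ k hB.1) l
      have : (0 : ℝ) < k := by exact_mod_cast hn0
      show a - k < a
      linarith
  have hba : b ≤ a := by
    by_contra h
    rw [not_le] at h
    exact hfg (σ.hom h hA.1 hB.1 (f ≫ g))
  have e : a = b := le_antisymm hab hba
  subst e
  have hiso : IsIso (f ≫ g) := (d_JH C σ a).2.1 A B (f ≫ g) hA hB hfg
  obtain ⟨r, hr⟩ := hEnd (g ≫ CategoryTheory.inv (f ≫ g) ≫ f)
  have h3 : f ≫ g ≫ CategoryTheory.inv (f ≫ g) ≫ f = f := by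
    rw [← Category.assoc, IsIso.hom_inv_id_assoc]
  have h4 : r • f = f := by
    rw [hr, Linear.comp_smul, Category.comp_id] at h3
    exact h3
  have h5 : r = 1 := by
    have h6 : (r - 1) • f = 0 := by rw [sub_smul, h4, one_smul, sub_self]
    rcases smul_eq_zero.1 h6 with h | h
    · exact sub_eq_zero.1 h
    · exact absurd h hf
  have h7 : g ≫ CategoryTheory.inv (f ≫ g) ≫ f = 𝟙 O := by rw [hr, h5, one_smul]
  have iso : A ≅ O :=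
    { hom := f
      inv := g ≫ CategoryTheory.inv (f ≫ g)
      hom_inv_id := by rw [← Category.assoc, IsIso.hom_inv_id]
      inv_hom_id := by rw [Category.assoc]; exact h7 }
  refine ⟨a, σ.iso iso hA.1, hO, fun A' B' f' g' h' hT hA' hB' => ?_⟩
  refine hA.2.2 A' B' (f' ≫ iso.inv) (iso.hom ≫ g') h' ?_ hA' hB'
  exact dist_mid hT iso.symm

end

end Run7.h354.BE
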