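import Pool.Agent.Run7.h354.BE.Abs
import Pool.Agent.Run7.h354.BE.Model

/-!
# The pieces (abstract part)

Every piece is a closed proposition `S_xxx`. A solution is a theorem `p_xxx : S_xxx` in a file
`Pool/Agent/Run7/<seat>/BE_xxx.lean`.
-/

set_option autoImplicit false
set_option linter.unusedSectionVars false
set_option linter.unusedVariables false

open CategoryTheory CategoryTheory.Limits Pretriangulated Triangulated Complex ZeroObject
open Pool.Agent.Helper445_GMF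

namespace Run7.h354.BE

universe v u v' u'

/-- **TH** (analysis, 300 lines). Take `u a z = θ (z - a)` with
`θ z = ∏_{n ≥ 0} (1 - q^n x) ∏_{n ≥ 1} (1 - q^n / x)`, `q = exp (2 π i τ)`, `x = exp (2 π i z)`
(or the series `∑ (-1)^n q^(n(n-1)/2) x^n`). `θ (z + τ) = - θ z / x`. The zeros are simple,
exactly the lattice: for `div`, `f / u a` has removable singularities. `neg`, `deg0`, `fin`: the
Fourier coefficients `a_n` of the entire 1-periodic function `f` satisfy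
`a_n q^n = c a_(n + k)` (`k = γ.1`), and `f = 0` if all vanish; for `k < 0` the coefficients would
grow. `pos`: otherwise `1 / f` would be in `V τ (-γ)`, contradicting `neg`. -/
def S_TH : Prop := ∀ τ : ℂ, 0 < τ.im → ∃ u : ℂ → ℂ → ℂ, TH τ u

/-- **GAP** (30 lines). The support property bounds the masses below: `v X ≠ 0` in `ℤ^n` because
`Z X ≠ 0`, so some `|v X i| ≥ 1`. -/
def S_GAP : Prop := ∀ (C : Type u) [Category.{v} C] [Preadditive C] [Linear ℂ C] [HasZeroObject C]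
  [HasShift C ℤ] [∀ n : ℤ, (shiftFunctor C n).Additive] [Pretriangulated C] [IsTriangulated C]
  (σ : PreStab C), Support σ → Gap σ

/-- **SUM** (150 lines). `P φ` is closed under direct summands and extensions, and semistability
is detected by the functions `H s` of `Helper445_GMF/Mass.lean`, `s` rational: if `ψ > φ` is the
phase of a Harder-Narasimhan factor take `s` rational with `φ ≤ s`, `s < ψ < s + 1`. -/
def S_SUM : Prop := ∀ (C : Type u) [Category.{v} C] [Preadditive C] [Linear ℂ C] [HasZeroObject C]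
  [HasShift C ℤ] [∀ n : ℤ, (shiftFunctor C n).Additive] [Pretriangulated C] [IsTriangulated C]
  (σ : PreStab C) (φ : ℝ),
  (∀ X : C, σ.P φ X ↔ ∀ s : ℚ, (φ ≤ s ∨ (s : ℝ) ≤ φ - 1) → σ.H s X = 0) ∧
  (∀ X Y : C, σ.P φ (X ⊞ Y) → σ.P φ X) ∧
  (∀ T ∈ distTriang C, σ.P φ T.obj₁ → σ.P φ T.obj₃ → σ.P φ T.obj₂)

/-- **PEN** (200 lines), the pencil lemma. If one member of a pencil of cones is semistable of
phase `φ` then all but countably many are. Proof: `Hc f = H s (cone f)` satisfies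
`Hc (f ≫ g) ≤ Hc f + Hc g`, `Hc f ≤ Hc (f ≫ g) + H s (cone g [-1])`,
`Hc g ≤ Hc (f ≫ g) + H s (cone f [1])`, and is additive on direct sums. Let `l₁, ..., lₙ` be
distinct, all different from `l₀`, and replace `α` by `α - l₀ β`. The map
`diag (α - l_j β) : G₀ⁿ → G₁ⁿ` is conjugated by the Vandermonde matrix to `α - β ∘ C` where the
rows `i < n` of `C` are those of the shift `x_i ↦ x_(i+1)`; so after composition with the
projection `G₁ⁿ → G₁ⁿ⁻¹` (cone `G₁[1]`) it becomes `M : (x_i) ↦ (α x_i - β x_(i+1))_(i < n)`,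
which restricted to `G₀ⁿ⁻¹` (cone of the inclusion: `G₀`) is upper triangular with diagonal `α`.
Hence `∑ H s (K l_j) ≤ (n - 1) H s (K l₀) + H s (G₁) + H s (G₀[1])`. With `s` as in **SUM**,
`H s (K l₀) = 0`, so `H s (K l) ≥ ε` for finitely many `l` only. -/
def S_PEN : Prop := ∀ (C : Type u) [Category.{v} C] [Preadditive C] [Linear ℂ C] [HasZeroObject C]
  [HasShift C ℤ] [∀ n : ℤ, (shiftFunctor C n).Additive] [Pretriangulated C] [IsTriangulated C]
  (σ : PreStab C) (φ : ℝ) (G₀ G₁ : C) (α β : G₀ ⟶ G₁) (K : ℂ → C),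
  (∀ l : ℂ, ∃ (g : G₁ ⟶ K l) (h : K l ⟶ G₀⟦(1 : ℤ)⟧), Triangle.mk (α - l • β) g h ∈ distTriang C) →
  ∀ l₀ : ℂ, σ.P φ (K l₀) → {l | ¬ σ.P φ (K l)}.Countable

/-- **JH** (250 lines). Stable objects. For `f : X ⟶ Y` with `X`, `Y` in `P φ` the cone has
Harder-Narasimhan phases in `[φ, φ + 1]` and central charge on the line, hence only `φ`, `φ + 1`:
kernel `K`, image `I`, cokernel `Q` are in `P φ`. -/
def S_JH : Prop := ∀ (C : Type u) [Category.{v} C] [Preadditive C] [Linear ℂ C] [HasZeroObject C]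
  [HasShift C ℤ] [∀ n : ℤ, (shiftFunctor C n).Additive] [Pretriangulated C] [IsTriangulated C]
  (σ : PreStab C) (φ : ℝ),
  (∀ (X Y : C) (f : X ⟶ Y), σ.P φ X → σ.P φ Y → ∃ (K I Q : C) (a : K ⟶ X) (b : X ⟶ I)
    (c : I ⟶ K⟦(1 : ℤ)⟧) (a' : I ⟶ Y) (b' : Y ⟶ Q) (c' : Q ⟶ I⟦(1 : ℤ)⟧),
    Triangle.mk a b c ∈ distTriang C ∧ Triangle.mk a' b' c' ∈ distTriang C ∧ f = b ≫ a' ∧
    σ.P φ K ∧ σ.P φ I ∧ σ.P φ Q) ∧
  (∀ (X Y : C) (f : X ⟶ Y), σ.Stable φ X → σ.Stable φ Y → f ≠ 0 → IsIso f) ∧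
  (∀ (X Y : C) (f : X ⟶ Y), σ.P φ X → σ.Stable φ Y → f ≠ 0 → ∃ (K : C) (a : K ⟶ X)
    (c : Y ⟶ K⟦(1 : ℤ)⟧), Triangle.mk a f c ∈ distTriang C ∧ σ.P φ K) ∧
  (∀ (X Y : C) (f : X ⟶ Y), σ.Stable φ X → σ.P φ Y → f ≠ 0 → ∃ (K : C) (a : Y ⟶ K)
    (c : K ⟶ X⟦(1 : ℤ)⟧), Triangle.mk f a c ∈ distTriang C ∧ σ.P φ K) ∧
  (Gap σ → ∀ X : C, σ.P φ X →
    (¬ IsZero X → (∃ (A : C) (f : A ⟶ X), σ.Stable φ A ∧ f ≠ 0) ∧
      ∃ (B : C) (f : X ⟶ B), σ.Stable φ B ∧ f ≠ 0) ∧
    (∃ l : List C, ∀ A : C, σ.Stable φ A → ((∃ f : A ⟶ X, f ≠ 0) ∨ ∃ f : X ⟶ A, f ≠ 0) →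
      ∃ B ∈ l, Nonempty (A ≅ B)))

/-- **COV** (250 lines). Stability conditions descend to direct factors: let `p : X ⥤ S` and
`q : S ⥤ X` be triangulated functors with a natural retraction `𝟭 ⟶ p ⋙ q ⟶ 𝟭`, let `X` be
idempotent complete and let `p (q A)` be semistable of phase `φ` whenever `A` is. Then the objects
`B` of `X` with `p B` semistable define a stability condition on `X`. (For `B` in `X` and the
truncation triangle `A₁ → p B → A₂` the idempotent of `q (p B)` with image `B` acts on `q A₁` and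
`q A₂`, by functoriality of truncations, and the images give the truncation of `B`; the
Harder-Narasimhan filtration follows, as `p B` has finitely many phases.) -/
def S_COV : Prop := ∀ (X : Type u) [Category.{v} X] [Preadditive X] [HasZeroObject X]
  [HasShift X ℤ] [∀ n : ℤ, (shiftFunctor X n).Additive] [Pretriangulated X] [IsTriangulated X]
  (S : Type u') [Category.{v'} S] [Preadditive S] [HasZeroObject S]
  [HasShift S ℤ] [∀ n : ℤ, (shiftFunctor S n).Additive] [Pretriangulated S] [IsTriangulated S]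
  (p : X ⥤ S) [p.Additive] [p.CommShift ℤ] [p.IsTriangulated]
  (q : S ⥤ X) [q.Additive] [q.CommShift ℤ] [q.IsTriangulated]
  (i : 𝟭 X ⟶ p ⋙ q) (r : p ⋙ q ⟶ 𝟭 X) (_ : i ≫ r = 𝟙 _) [IsIdempotentComplete X]
  (σ : PreStab S) (_ : ∀ φ A, σ.P φ A → σ.P φ (p.obj (q.obj A))),
  ∃ σ' : PreStab X, (∀ B, σ'.Z B = σ.Z (p.obj B)) ∧ ∀ φ B, σ'.P φ B ↔ σ.P φ (p.obj B)

/-- **INV** (300 lines). Invariance of stability conditions under the twists of degree zero.
Let `G` be in `P φ`. Fix `p₁` (any point), `s = (2, ·) = gu p₁ + gu p₁` and a grading `t` of degree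
two which is not congruent to `s`, a basis `g₁, g₂` of `V τ t` and `f₀ = u_{p₁}²`,
`f₁ = u_r u_{r'}` a basis of `V τ s` (`r + r' = 2 p₁`). The maps
`α - l β = (g₁, g₂, f₀ - l f₁) : G(a)² ⊕ G(a + t - s) → G(a + t)` with `a = gu p₁`. For
`p + p' = 2 p₁`, `p`, `p'` not congruent, `u_p u_{p'} = A f₀ + B f₁`, and the Hilbert-Burch triangle
(`u₁ = u_p`, `u₂ = u_{p'}`, `u₂ w₁`, `u₁ w₂` another basis of `V τ t`) shows that the cone is
`(G(gu p₁ - gu p) ⊕ G(gu p₁ - gu p'))[1]` where `gu p₁ - gu p = g0 (exp (2 π i (p₁ - p)))`. For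
`l = 0` the cone is an extension of `G[1]` by `G[1]`: factor `(u w, G₂, u²) = (u, G₂) ∘ ((w, u) ⊕ 1)`
and use two Koszul triangles and the octahedron. By **PEN**, `G(0, c)` is in `P φ` for all but
countably many `c`. For all `c`: the factors `H_i` of the HN filtration of `G(0, c)` have
`H_i(0, d)` in `P φ_i` for all but countably many `d`, and `G(0, c d)` is in `P φ` for all but
countably many `d`; so `G(0, c)` is semistable of phase `φ`.
Second part: by the Koszul triangles `Z (G(γ + δ)) - Z (G(γ)) - Z (G(δ)) + Z G = 0` for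
`γ = gu a`, `δ = gu b`, `a`, `b` not congruent; so `Z (G(0, c^k))` is affine in `k`, and it is
positive on a ray. -/
def S_INV : Prop := ∀ (C : Type u) [Category.{v} C] [Preadditive C] [Linear ℂ C] [HasZeroObject C]
  [HasShift C ℤ] [∀ n : ℤ, (shiftFunctor C n).Additive] [Pretriangulated C] [IsTriangulated C]
  (τ : ℂ) (_ : 0 < τ.im) (u : ℂ → ℂ → ℂ) (_ : TH τ u) (E : EA τ C) (σ : PreStab C) (φ : ℝ) (G : C)
  (c : ℂˣ), σ.P φ G → σ.P φ (E.tw (g0 c) G) ∧ σ.Z (E.tw (g0 c) G) = σ.Z G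

/-- **ORB** (100 lines). If `O(0, c) ≅ O` for all `c` and `A` is stable with a nonzero map to
(or from) `O`, in the extreme phase of `O`, then `A(0, c) ≅ A` for all `c` (the group `ℂˣ` is
divisible and permutes a finite set of isomorphism classes, **JH**). Hypothesis `hP`: **INV**. -/
def S_ORB : Prop := ∀ (C : Type u) [Category.{v} C] [Preadditive C] [Linear ℂ C] [HasZeroObject C]
  [HasShift C ℤ] [∀ n : ℤ, (shiftFunctor C n).Additive] [Pretriangulated C] [IsTriangulated C]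
  (τ : ℂ) (E : EA τ C) (σ : PreStab C) (_ : Gap σ)
  (_ : ∀ φ G c, σ.P φ G → σ.P φ (E.tw (g0 c) G)) (O : C) (_ : ∀ c, Nonempty (E.tw (g0 c) O ≅ O))
  (φ : ℝ) (A : C), σ.Stable φ A →
  ((∃ f : A ⟶ O, f ≠ 0) ∧ (∀ ψ > φ, ∀ B, σ.P ψ B → ∀ f : B ⟶ O, f = 0) ∨
    (∃ f : O ⟶ A, f ≠ 0) ∧ (∀ ψ < φ, ∀ B, σ.P ψ B → ∀ f : O ⟶ B, f = 0)) →
  ∀ c, Nonempty (E.tw (g0 c) A ≅ A)

/-- **NORM** (250 lines). An object `A` with `End A = ℂ`, `Hom (A, A(1, ·))` of finite dimension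
and `A(0, c) ≅ A` for all `c` is killed by a nonzero theta function. Let `N > dim Hom(A, A(gu 0))`,
`ζ` a primitive `N`-th root of unity, `φ : A ≅ A(0, ζ)` scaled such that `φ^N = 1`;
`φ^(-j) : A(γ + (0, ζ^j)) → A(γ)` commutes with the theta functions (naturality and `comp_nat`).
With `θ_j ≠ 0` in `V τ (gu 0 + (0, ζ^j))` there is a relation `∑ a_j φ^(-j) θ_j = 0` in
`Hom(A, A(gu 0))`. Composing with `φ^(-i)` gives `∑_l φ^(-l) (a_(l-i) θ_(l-i)) = 0` on
`A(0, ζ^i)` for all `i` mod `N`; multiply by the adjugate of the circulant matrix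
`(a_(l-i) θ_(l-i))`: its determinant, a theta function of degree `N`, kills `A`, and is not `0`
since its value at `z` is `∏_k ∑_j ζ^(kj) a_j θ_j(z)` and the `θ_j` are linearly independent. -/
def S_NORM : Prop := ∀ (C : Type u) [Category.{v} C] [Preadditive C] [Linear ℂ C] [HasZeroObject C]
  [HasShift C ℤ] [∀ n : ℤ, (shiftFunctor C n).Additive] [Pretriangulated C] [IsTriangulated C]
  (τ : ℂ) (_ : 0 < τ.im) (u : ℂ → ℂ → ℂ) (_ : TH τ u) (E : EA τ C) (A : C)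
  (_ : ∀ f : A ⟶ A, ∃ r : ℂ, f = r • 𝟙 A) (_ : ∀ B : C, Module.Finite ℂ (A ⟶ B))
  (_ : ∀ c, Nonempty (E.tw (g0 c) A ≅ A)),
  ∃ (γ : Gam) (f : ℂ → ℂ) (hf : f ∈ V τ (γ - 0)), f ≠ 0 ∧ E.act f hf A = 0

/-- **SUP** (100 lines). With `f` as in **NORM** and `a` not a zero of `f`, `u a` is invertible on
`A` (axiom `kos`), so `A(gu a) ≅ A` and `A(γ) ≅ A` for all `γ` of degree one; so each `u b` is zero
or invertible on the stable object `A`, and it is not invertible for `b = z` if there is a nonzero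
map between `A` and an object `O` on which `u z` is zero. -/
def S_SUP : Prop := ∀ (C : Type u) [Category.{v} C] [Preadditive C] [Linear ℂ C] [HasZeroObject C]
  [HasShift C ℤ] [∀ n : ℤ, (shiftFunctor C n).Additive] [Pretriangulated C] [IsTriangulated C]
  (τ : ℂ) (_ : 0 < τ.im) (u : ℂ → ℂ → ℂ) (hu : TH τ u) (E : EA τ C) (σ : PreStab C) (φ : ℝ) (A : C)
  (_ : σ.Stable φ A) (_ : ∀ c, Nonempty (E.tw (g0 c) A ≅ A))
  (γ : Gam) (f : ℂ → ℂ) (hf : f ∈ V τ (γ - 0)) (_ : f ≠ 0) (_ : E.act f hf A = 0)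
  (O : C) (z : ℂ) (hz : u z ∈ V τ (gu z - 0)) (_ : E.act (u z) hz O = 0)
  (_ : (∃ f : A ⟶ O, f ≠ 0) ∨ ∃ f : O ⟶ A, f ≠ 0), E.act (u z) hz A = 0

end Run7.h354.BE
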