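import Pool.Agent.Run7.h354.BE.FM
import Pool.Agent.Run7.h354.BE.Stm

/-!
# The pieces (concrete part)

Every piece is a closed proposition `S_xxx`. A solution is a theorem `p_xxx : S_xxx`, or
`p_xxx : S_yyy → S_zzz → S_xxx` where `S_yyy`, `S_zzz` are other pieces, in a file
`Pool/Agent/Run7/<seat>/BE_xxx.lean`.
-/

set_option autoImplicit false
set_option linter.unusedSectionVars false
set_option linter.unusedVariables false

open CategoryTheory CategoryTheory.Limits Pretriangulated Triangulated Complex ZeroObject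
open Pool.Agent.Helper445_GMF

namespace Run7.h354.BE

universe v u w w' v' u'

/-- **SEC** (80 lines). Sections and factorization of theta functions: products of `u a`'s
(`TH.pos`, `TH.div`, `TH.deg0`); in degree `≥ 2` choose the zeros away from `z`. -/
def S_SEC : Prop := ∀ (τ : ℂ) (_ : 0 < τ.im) (u : ℂ → ℂ → ℂ) (_ : TH τ u),
  (∀ (γ : Gam) (z : ℂ), 2 ≤ γ.1 → ∃ g ∈ V τ γ, g z ≠ 0) ∧
  (∀ (γ : Gam) (g : ℂ → ℂ), g ∈ V τ γ → g ≠ 0 → ∃ (l : List ℂ) (k : ℤ) (r : ℂ), r ≠ 0 ∧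
    γ.1 = l.length ∧ ∀ z, g z = r * exp (2 * Real.pi * I * k * z) * (l.map fun a => u a z).prod)

/-- **KUN** (120 lines). Theta functions of two variables are sums of products: with a basis
`h i` of `V τ' a.2` and points `w j` with `(h i (w j))` invertible, `f (z, w) = ∑ g i z * h i w`
where the `g i` are combinations of the `f (·, w j)`. Divisions: the functions `h i` may be chosen
adapted to a point (`h 0 (w) = 1`, `h i (w) = 0` for `i > 0`) and one uses `TH.div`. -/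
def S_KUN : Prop := ∀ (τ τ' : ℂ) (_ : 0 < τ.im) (_ : 0 < τ'.im) (u v : ℂ → ℂ → ℂ) (_ : TH τ u)
  (_ : TH τ' v) (a : Gam2),
  Module.Finite ℂ (W τ τ' a) ∧ ∀ f ∈ W τ τ' a,
  (∃ (n : ℕ) (g h : Fin n → ℂ → ℂ), (∀ i, g i ∈ V τ a.1) ∧ (∀ i, h i ∈ V τ' a.2) ∧
    f = ∑ i, pr (g i) (h i)) ∧
  (∀ z, (∀ w, f (z, w) = 0) → ∃ k ∈ W τ τ' (a - (gu z, 0)), f = pr (u z) 1 * k) ∧
  (∀ w, (∀ z, f (z, w) = 0) → ∃ k ∈ W τ τ' (a - (0, gu w)), f = pr 1 (v w) * k) ∧
  (∀ z w, f (z, w) = 0 → ∃ k ∈ W τ τ' (a - (gu z, 0)), ∃ k' ∈ W τ τ' (a - (0, gu w)),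
    f = pr (u z) 1 * k + pr 1 (v w) * k')

/-- **SAT** (100 lines). The modules of functions are saturated: a map `φ` of sheaves from a line
bundle is given by one function. Write `φ` as a fraction: for every `x` in `T` there is a product
`g ⊗ h` not zero at `j x` such that `φ ∘ (g ⊗ h)` comes from a map of modules, i.e. from a function
`F` (`fmg_eq`), and `F / (g ⊗ h)` does not depend on the choice; use `X.loc`. -/
def S_SAT : Prop := ∀ (τ τ' : ℂ) (X : FM τ τ') (a b : Gam2),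
  (∀ φ : (sh τ τ' false).obj (fm (fW τ τ') a) ⟶ (sh τ τ' false).obj (fm X b),
    ∃ (ψ : X.T → ℂ) (hψ : ψ ∈ X.U (a - b)), φ = (sh τ τ' false).map (fmg X ψ hψ)) ∧
  (∀ (ψ : X.T → ℂ) (hψ : ψ ∈ X.U (a - b)), (sh τ τ' false).map (fmg X ψ hψ) = 0 → ψ = 0)

/-- **SEQ** (150 lines). The basic exact sequences of sheaves; exactness of the sequences of
modules up to torsion (`KUN`, `SEC`, `TH.div`). -/
def S_SEQ : Prop := ∀ (τ τ' : ℂ) (_ : 0 < τ.im) (_ : 0 < τ'.im) (u v : ℂ → ℂ → ℂ) (_ : TH τ u)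
  (_ : TH τ' v) (a : Gam2) (z w : ℂ),
  (∀ h, ∃ e, (ShortComplex.mk ((sh τ τ' false).map (fmm (fW τ τ') (a := a) (b := a + (gu z, 0))
    (pr (u z) 1) h)) ((sh τ τ' false).map (rWL z a)) e).ShortExact) ∧
  (∀ h, ∃ e, (ShortComplex.mk ((sh τ τ' false).map (fmm (fW τ τ') (a := a) (b := a + (0, gu w))
    (pr 1 (v w)) h)) ((sh τ τ' false).map (rWL' w a)) e).ShortExact) ∧
  (∀ h, ∃ e, (ShortComplex.mk ((sh τ τ' false).map (fmm (fL τ τ' z) (a := a) (b := a + (0, gu w))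
    (pr 1 (v w)) h)) ((sh τ τ' false).map (rLP z w a)) e).ShortExact) ∧
  (∀ h, ∃ e, (ShortComplex.mk ((sh τ τ' false).map (fmm (fL' τ τ' w) (a := a) (b := a + (gu z, 0))
    (pr (u z) 1) h)) ((sh τ τ' false).map (rLP' z w a)) e).ShortExact)

/-- **LOC** (120 lines). A map from a line bundle to a complex in degrees `≤ -1` is locally zero.
Complete `φ` to a triangle `L → R(a) → K`; `L` is in degrees `≤ 0` and `H⁰ L → R(a)` is an
epimorphism, so there are an object `N = L⁰` of `QC` and an epimorphism `N → R(a)` with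
composite zero with `φ`; then lift `g ⊗ h` times the generator of `R(a)`. -/
def S_LOC : Prop := ∀ (τ τ' : ℂ) [HasDerivedCategory.{w} (QC τ τ' false)]
  (K : DerivedCategory (QC τ τ' false)) (_ : K.IsLE (-1)) (a : Gam2) (φ : lb τ τ' a ⟶ K) (z w : ℂ),
  ∃ (γ δ : Gam) (g h : ℂ → ℂ) (hg : g ∈ V τ γ) (hh : h ∈ V τ' δ)
    (hf : pr g h ∈ W τ τ' (a + (γ, δ) - a)), g z ≠ 0 ∧ h w ≠ 0 ∧
    (DerivedCategory.singleFunctor _ 0).map ((sh τ τ' false).map
      (fmm (fW τ τ') (a := a) (b := a + (γ, δ)) (pr g h) hf)) ≫ φ = 0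

/-- The skyscraper sheaf of `E × F` at `x`. -/
noncomputable def skyX (τ τ' : ℂ) [HasDerivedCategory.{w} (QC τ τ' false)] (x : ℂ × ℂ) :
    DerivedCategory (QC τ τ' false) :=
  (DerivedCategory.singleFunctor _ 0).obj ((sh τ τ' false).obj (pt τ τ' x))

/-- **HF** (250 lines). Finiteness of cohomology. Write `Hⁱ(M) = Hom(R(a), M[i])`, `R = fm fW`,
`D_z = fm (fL z)`, `D'_w = fm (fL' w)`, `O = pt`. By `LOC` a class in `Hⁱ(M)`, `i ≥ 1`, is killed by
a product `g ⊗ h` not zero at any given point (precomposition with `fmm`, which is also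
composition with `fmm` on `M`, twisted). So: `Hⁱ(O) = 0` for `i ≥ 1` (`g ⊗ h` is invertible on `O`);
`Hⁱ(D_z (b)) = 0` for `i ≥ 2`, by the sequences `D_z(b + gu w) → D_z(b) → O` all `v w` are
injective on it, `g` is invertible, and `h` is a product of `v w`'s; `H¹(D_z (b))` is finite, and
zero if `(a - b).2.1 ≥ 1` (the section `R(a) → D_z` not zero at `w` shows that `v w` is
injective on `H¹`, descending induction on `(a - b).2.1` in general). In the same way for `D'_w`,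
then for `R`: `Hⁱ(R (b)) = 0` for `i ≥ 3`, and `i = 1, 2` finite by descending induction on the
two degrees, zero if both degrees are `≥ 1`. `H⁰`: **SAT** and **KUN**. -/
def S_HF : Prop := ∀ (τ τ' : ℂ) (_ : 0 < τ.im) (_ : 0 < τ'.im)
  [HasDerivedCategory.{w} (QC τ τ' false)] (a b : Gam2) (i : ℤ),
  Module.Finite ℂ (lb τ τ' a ⟶ (lb τ τ' b)⟦i⟧)

/-- **PTS** (150 lines). The skyscraper sheaves are simple objects, with endomorphisms `ℂ`,
pairwise non isomorphic, and belong to `D^b`. Every nonzero map to `O_x` is epi: compose with a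
map `R(a) → N` and use **SAT** (`fPpt`). -/
def S_PTS : Prop := ∀ (τ τ' : ℂ) (_ : 0 < τ.im) (_ : 0 < τ'.im)
  [HasDerivedCategory.{w} (QC τ τ' false)] (x : ℂ × ℂ),
  DbX τ τ' (skyX τ τ' x) ∧ Simple ((sh τ τ' false).obj (pt τ τ' x)) ∧
  (∀ f : (sh τ τ' false).obj (pt τ τ' x) ⟶ (sh τ τ' false).obj (pt τ τ' x), ∃ r : ℂ, f = r • 𝟙 _) ∧
  ∀ y : ℂ × ℂ, (¬ Cg τ x.1 y.1 ∨ ¬ Cg τ' x.2 y.2) →
    ∀ f : (sh τ τ' false).obj (pt τ τ' x) ⟶ (sh τ τ' false).obj (pt τ τ' y), f = 0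

/-- **DU** (200 lines). A nonzero sheaf killed by `u z` and `v w` has nonzero maps to and from
the skyscraper sheaf. From: a non-torsion element `m` in `M a` gives a nonzero map `R(a) → M` of
sheaves which factors through `R(a) / (u, v)`, which is `pt` up to torsion (**KUN**). To: let
`N a = M a / (x-torsion)` (killed by some `g ⊗ h` nonzero at `x = (z, w)`); `f` in `W` acts on `N`
as zero if `f x = 0` (**KUN**) and injectively if not. Let `L` be the quotient of `⨁ N a` by the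
`ι_b (f m) - f x • ι_a m`; the class of a nonzero `m` is not zero (multiply a finite relation into
one big degree by functions `k_b` with `k_b x = 1`), so there is a linear form on `L`, not zero
on `m`; it is a map `M → pt` of graded modules. -/
def S_DU : Prop := ∀ (τ τ' : ℂ) (_ : 0 < τ.im) (_ : 0 < τ'.im) (u v : ℂ → ℂ → ℂ) (_ : TH τ u)
  (_ : TH τ' v) (z w : ℂ) (M : GM τ τ' false)
  (_ : ∀ (hu : u z ∈ V τ (gu z)) a (x : M.obj.obj a),
    TE M.obj (M.obj.map (mulP a hu (V_one (τ := τ'))) x))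
  (_ : ∀ (hv : v w ∈ V τ' (gu w)) a (x : M.obj.obj a),
    TE M.obj (M.obj.map (mulP a (V_one (τ := τ)) hv) x)) (_ : ¬ tors τ τ' false M),
  (∃ f : M ⟶ pt τ τ' (z, w), (sh τ τ' false).map f ≠ 0) ∧
  ∃ f : (sh τ τ' false).obj (pt τ τ' (z, w)) ⟶ (sh τ τ' false).obj M, f ≠ 0

/-- **IDEM** (200 lines). Idempotents of bounded complexes split (Le, Chen: Karoubianness of a
triangulated category). Induction on the amplitude: an idempotent `(e', e, e'')` of a
distinguished triangle with `e'`, `e''` split; the connecting map is diagonal, so there is another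
idempotent `p` of the middle, which splits, with the same `e'`, `e''` (after an isomorphism);
`e - p` factors through `X → X'' → X' → X`, so `(e - p)² = 0`, hence `e p e = e`, `p e p = p` and `e`
splits (`r = a e`, `s = e b` if `p = a b` splits as `a : X → Y`, `b : Y → X`). Idempotents of
`single n M` split. -/
def S_IDEM : Prop := ∀ (A : Type u) [Category.{v} A] [Abelian A] [HasDerivedCategory.{w} A]
  (X : DerivedCategory A) (m n : ℤ) (_ : X.IsLE m) (_ : X.IsGE n) (e : X ⟶ X) (_ : e ≫ e = e),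
  ∃ (Y : DerivedCategory A) (i : Y ⟶ X) (r : X ⟶ Y), i ≫ r = 𝟙 Y ∧ r ≫ i = e

/-- **PTA** (150 lines). If `X` and `Y` are bounded and all their cohomology objects have nonzero
maps to (resp. from) the simple object `O`, and `f : X ⟶ O`, `g : O ⟶ Y` are not zero and there
are no maps `X ⟶ O⟦-n⟧`, `O⟦n⟧ ⟶ Y` for `n > 0`, then `f ≫ g ≠ 0`: the top cohomology of `X` is in
degree `0`, `f` factors through `H⁰ X ⟶ O` which is epi, and `g` through `O ⟶ H⁰ Y`, which is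
mono. -/
def S_PTA : Prop := ∀ (A : Type u) [Category.{v} A] [Abelian A] [HasDerivedCategory.{w} A] (O : A)
  [Simple O] (X Y : DerivedCategory A) (m n : ℤ) (_ : X.IsLE m) (_ : Y.IsGE n)
  (_ : ∀ n, ¬ IsZero ((DerivedCategory.homologyFunctor A n).obj X) →
    ∃ f : (DerivedCategory.homologyFunctor A n).obj X ⟶ O, f ≠ 0)
  (_ : ∀ n, ¬ IsZero ((DerivedCategory.homologyFunctor A n).obj Y) →
    ∃ f : O ⟶ (DerivedCategory.homologyFunctor A n).obj Y, f ≠ 0)
  (f : X ⟶ (DerivedCategory.singleFunctor A 0).obj O)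
  (g : (DerivedCategory.singleFunctor A 0).obj O ⟶ Y) (_ : f ≠ 0) (_ : g ≠ 0)
  (_ : ∀ n : ℤ, 0 < n → ∀ k : X ⟶ ((DerivedCategory.singleFunctor A 0).obj O)⟦-n⟧, k = 0)
  (_ : ∀ n : ℤ, 0 < n → ∀ k : ((DerivedCategory.singleFunctor A 0).obj O)⟦n⟧ ⟶ Y, k = 0),
  f ≫ g ≠ 0

/-- **KEX** (250 lines). Exactness of the Koszul and Hilbert-Burch complexes in an abelian
category with an action of the theta functions such that two functions without common zeros have
no common nonzero kernel. (1) The kernel `K` of `(f, g) : M → M(γ) ⊕ M(δ)` is killed by `f` and `g`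
(naturality), so it is zero; dually for the cokernel; the middle homology is killed by `f` and
`g` too (null homotopies). (2) In the same way for Hilbert-Burch with the map
`(a, b) ↦ (u₁ a, u₂ b, -(w₁ a + w₂ b))`: the three products annihilate the homology `H` and the
cokernel; then `u₁ H` is killed by `u₂` and `w₂` (no common zeros), so `u₁ H = 0`, also `u₂ H = 0`, and
`u₁`, `u₂` have no common zeros. For the kernel: `x` is killed by `u₁` and by `u₂ w₁`. (3) The kernel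
and the cokernel of `g` are killed by `f` and by `g`. -/
def S_KEX : Prop := ∀ (A : Type u) [Category.{v} A] [Abelian A] [Linear ℂ A] (τ : ℂ) (E : TA τ A)
  (_ : ∀ {a b : Gr τ} (r : ℂ) (f g : a ⟶ b), E.Φ.map (r • f + g) = r • E.Φ.map f + E.Φ.map g)
  (_ : ∀ a, PreservesFiniteLimits (E.Φ.obj a)) (_ : ∀ a, PreservesFiniteColimits (E.Φ.obj a))
  (_ : ∀ (M : A) (a b : Gam) (f g : ℂ → ℂ) (hf : f ∈ V τ (a - 0)) (hg : g ∈ V τ (b - 0)),
    (∀ z, f z ≠ 0 ∨ g z ≠ 0) → (E.Φ.map (gm f hf)).app M = 0 → (E.Φ.map (gm g hg)).app M = 0 →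
    IsZero M) (G : A),
  (∀ (a γ δ : Gam) (f g : ℂ → ℂ) (hf : f ∈ V τ γ) (hg : g ∈ V τ δ)
    (_ : ∀ z, f z ≠ 0 ∨ g z ≠ 0) (hf1 : f ∈ V τ (a + γ - a)) (hg1 : g ∈ V τ (a + δ - a))
    (hf2 : f ∈ V τ (a + γ + δ - (a + δ))) (hg2 : g ∈ V τ (a + γ + δ - (a + γ))),
    ∃ e, (ShortComplex.mk
      (biprod.lift ((E.Φ.map (gm f hf1)).app G) ((E.Φ.map (gm g hg1)).app G))
      (biprod.desc ((E.Φ.map (gm g hg2)).app G) (-(E.Φ.map (gm f hf2)).app G)) e).ShortExact) ∧
  (∀ (a γ₁ γ₂ δ : Gam) (u₁ u₂ w₁ w₂ : ℂ → ℂ)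
    (hu₁ : u₁ ∈ V τ γ₁) (hu₂ : u₂ ∈ V τ γ₂) (hw₁ : w₁ ∈ V τ (δ - γ₂)) (hw₂ : w₂ ∈ V τ (δ - γ₁))
    (_ : ∀ z, u₁ z * u₂ z ≠ 0 ∨ u₁ z * w₂ z ≠ 0 ∨ u₂ z * w₁ z ≠ 0)
    (h1 : u₂ * w₁ ∈ V τ (a + δ - a)) (h2 : u₁ * w₂ ∈ V τ (a + δ - a))
    (h3 : u₁ * u₂ ∈ V τ (a + δ - (a + δ - γ₁ - γ₂)))
    (k1 : u₁ ∈ V τ (a - (a - γ₁))) (k2 : u₂ ∈ V τ (a - (a - γ₂)))
    (k3 : w₁ ∈ V τ (a + δ - γ₁ - γ₂ - (a - γ₁))) (k4 : w₂ ∈ V τ (a + δ - γ₁ - γ₂ - (a - γ₂))),
    ∃ e, (ShortComplex.mk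
      (biprod.desc
        (biprod.lift (biprod.lift ((E.Φ.map (gm u₁ k1)).app G) 0) (-(E.Φ.map (gm w₁ k3)).app G))
        (biprod.lift (biprod.lift 0 ((E.Φ.map (gm u₂ k2)).app G)) (-(E.Φ.map (gm w₂ k4)).app G)))
      (biprod.desc (biprod.desc ((E.Φ.map (gm (u₂ * w₁) h1)).app G)
        ((E.Φ.map (gm (u₁ * w₂) h2)).app G)) ((E.Φ.map (gm (u₁ * u₂) h3)).app G)) e).ShortExact) ∧
  (∀ (a b : Gam) (f g : ℂ → ℂ) (hf : f ∈ V τ (a - 0)) (hg : g ∈ V τ (b - 0))
    (_ : ∀ z, f z ≠ 0 ∨ g z ≠ 0), (E.Φ.map (gm f hf)).app G = 0 →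
    IsIso ((E.Φ.map (gm g hg)).app G))

/-- **C2** (200 lines). All the phases are equal. On `{z} × F` and `E × {w}` there are pencils: let
`p` be a point, `f₀ = u_p²`, and `f₁` with `f₀`, `f₁` a basis of `V τ (gu p + gu p)`; all `f₀ - l f₁`
are products `u_q u_q'` up to constants. By **SEQ** (fourth sequence) the cone of `u_p²` on `D'_w` is
a self-extension of `O_(p, w)`, so semistable of phase `φ(p, w)`; by **PEN** the cone of
`f₀ - l f₁ = u_q u_q'` is semistable of that phase for all but countably many `l`; it has a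
nonzero map from `O_(q, w)` and one to it (in the two orders of the factors), so
`φ(q, w) = φ(p, w)`, for all but countably many `q`. Same for any other `p`. -/
def S_C2 : Prop := ∀ (τ τ' : ℂ) (_ : 0 < τ.im) (_ : 0 < τ'.im)
  [HasDerivedCategory.{w} (QC τ τ' false)] (h : ∀ x, DbX τ τ' (skyX τ τ' x))
  (σ : PreStab (DbX τ τ').FullSubcategory)
  (_ : ∀ x, ∃ φ, σ.Stable φ (⟨skyX τ τ' x, h x⟩ : (DbX τ τ').FullSubcategory)),
  ∃ φ, ∀ x, σ.Stable φ (⟨skyX τ τ' x, h x⟩ : (DbX τ τ').FullSubcategory)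

end Run7.h354.BE
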