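import Pool.Agent.Run7.h354.BE.DM
import Pool.Agent.Run7.h354.BE.Stm2

/-!
# The pieces (the actions on the derived categories)
-/

set_option autoImplicit false
set_option linter.unusedSectionVars false
set_option linter.unusedVariables false

open CategoryTheory CategoryTheory.Limits Pretriangulated Triangulated Complex ZeroObject
open Pool.Agent.Helper445_GMF

namespace Run7.h354.BE

universe w v u v' u'

/-- The condition that theta functions without common zeros have no common nonzero kernel. -/
def Kos0 {τ : ℂ} {A : Type u} [Category.{v} A] [Abelian A] (T : TA τ A) : Prop :=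
  ∀ (M : A) (a b : Gam) (f g : ℂ → ℂ) (hf : f ∈ V τ (a - 0)) (hg : g ∈ V τ (b - 0)),
    (∀ z, f z ≠ 0 ∨ g z ≠ 0) → (T.Φ.map (gm f hf)).app M = 0 → (T.Φ.map (gm g hg)).app M = 0 →
    IsZero M

/-- **K0** (80 lines). `Kos0` for the three actions on quasi-coherent sheaves: every object is
`sh N` up to isomorphism; by `Dat.qc_eq_zero` and `sh_map_eq_zero` the elements `f x` and `g x` are
torsion for all `x`, so `x` is torsion (`Dat.fac` at a point where `f`, or `g`, is not zero). -/
def S_K0 : Prop := ∀ (τ₀ τ τ' : ℂ) (s : Bool) (D : Dat τ₀ τ τ' s), Kos0 D.qc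

/-- **EAD** (200 lines). The action on the derived category. `lin`: on `Q.obj K`
(`TA.der_map_app`, `Localization.natTrans_ext`). `tri`: `F.mapDerivedCategory` is triangulated.
`kt`, `hb`: apply **KEX** to the abelian category of complexes with the action `T.cx` (exactness:
instances of `mapHomologicalComplex`, `Kos0` degreewise) to get short exact sequences of
complexes, `DerivedCategory.triangleOfSES_distinguished`, `Q` preserves biproducts, and every
object is isomorphic to `Q.obj K`. `kos`: by the homology functors (`T.der.Φ.map g` is iso iff it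
is iso in cohomology; `NatTrans.app_homology`, **DH**, and (3) of **KEX** on the cohomology). -/
def S_EAD : Prop := ∀ (A : Type u) [Category.{v} A] [Abelian A] [Linear ℂ A]
  [HasDerivedCategory.{w} A] (τ : ℂ) (T : TA τ A) [∀ a, (T.Φ.obj a).Additive]
  [∀ a, PreservesFiniteLimits (T.Φ.obj a)] [∀ a, PreservesFiniteColimits (T.Φ.obj a)]
  (_ : ∀ {a b : Gr τ} (r : ℂ) (f g : a ⟶ b), T.Φ.map (r • f + g) = r • T.Φ.map f + T.Φ.map g)
  (_ : Kos0 T), ∃ E : EA τ (DerivedCategory A), E.Φ = T.der.Φ

/-- The restriction of an action to a full subcategory. -/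
def resΦ {τ : ℂ} {C : Type u} [Category.{v} C] (Φ : Gr τ ⥤ (C ⥤ C)) (P : ObjectProperty C)
    (hP : ∀ a X, P X → P ((Φ.obj a).obj X)) : Gr τ ⥤ (P.FullSubcategory ⥤ P.FullSubcategory) where
  obj a := P.lift (P.ι ⋙ Φ.obj a) (fun X => hP a X.obj X.property)
  map f := { app := fun X => P.homMk ((Φ.map f).app X.obj)
             naturality := fun X Y g => ObjectProperty.hom_ext _ ((Φ.map f).naturality g.hom) }
  map_id a := by
    refine NatTrans.ext (funext fun X => ObjectProperty.hom_ext _ ?_)
    exact congrArg (fun n => NatTrans.app n X.obj) (Φ.map_id a)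
  map_comp f g := by
    refine NatTrans.ext (funext fun X => ObjectProperty.hom_ext _ ?_)
    exact congrArg (fun n => NatTrans.app n X.obj) (Φ.map_comp f g)

/-- **EAR** (150 lines). The restriction of an action to a triangulated subcategory stable under
the twists. -/
def S_EAR : Prop := ∀ (C : Type u) [Category.{v} C] [Preadditive C] [Linear ℂ C] [HasZeroObject C]
  [HasShift C ℤ] [∀ n : ℤ, (shiftFunctor C n).Additive] [Pretriangulated C]
  (P : ObjectProperty C) [P.IsTriangulated] [P.IsClosedUnderIsomorphisms]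
  (τ : ℂ) (E : EA τ C) (hP : ∀ a X, P X → P ((E.Φ.obj a).obj X)),
  ∃ E' : EA τ P.FullSubcategory, E'.Φ = resΦ E.Φ P hP

/-- **DH** (60 lines). The action on the cohomology of an object on which a theta function is
zero. (`NatTrans.app_homology`, `TA.der_map_app`, `DerivedCategory.homologyFunctorFactors`.) -/
def S_DH : Prop := ∀ (A : Type u) [Category.{v} A] [Abelian A] [HasDerivedCategory.{w} A] (τ : ℂ)
  (T : TA τ A) [∀ a, (T.Φ.obj a).Additive]
  [∀ a, PreservesFiniteLimits (T.Φ.obj a)] [∀ a, PreservesFiniteColimits (T.Φ.obj a)]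
  (a b : Gr τ) (f : a ⟶ b) (X : DerivedCategory A) (_ : (T.der.Φ.map f).app X = 0) (n : ℤ),
  (T.Φ.map f).app ((DerivedCategory.homologyFunctor A n).obj X) = 0

/-- **TWF** (60 lines). The twists of the sheaves of functions: `(D.tw γ).obj (fm X b)` and
`fm X (b - D.δ γ)` are isomorphic (their values at `a` are the same functions). -/
def S_TWF : Prop := ∀ (τ₀ τ τ' : ℂ) (D : Dat τ₀ τ τ' false) (γ : Gam) (X : FM τ τ') (b : Gam2),
  Nonempty ((D.tw γ).obj (fm X b) ≅ fm X (b - D.δ γ)) ∧
  Nonempty ((D.twQ γ).obj ((sh τ τ' false).obj (fm X b)) ≅ (sh τ τ' false).obj (fm X (b - D.δ γ)))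

/-- **TWD** (80 lines). `D^b` is stable under the twists. `singleFunctor` commutes with
`mapDerivedCategory` (`Functor.mapDerivedCategorySingleFunctor`); `triangEnvelope` is the
smallest thick subcategory (triangulated functors, `Functor.mapDerivedCategory` has
`IsTriangulated`; the inverse image of a thick subcategory is thick). -/
def S_TWD : Prop := ∀ (τ₀ τ τ' : ℂ) (D : Dat τ₀ τ τ' false) (γ : Gam)
  [HasDerivedCategory.{w} (QC τ τ' false)] (X : DerivedCategory (QC τ τ' false)),
  DbX τ τ' X → DbX τ τ' ((D.twQ γ).mapDerivedCategory.obj X)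

/-- **BDD** (60 lines). The objects of `D^b` are bounded. -/
def S_BDD : Prop := ∀ (τ τ' : ℂ) [HasDerivedCategory.{w} (QC τ τ' false)]
  (X : DerivedCategory (QC τ τ' false)), DbX τ τ' X → ∃ m n : ℤ, X.IsLE m ∧ X.IsGE n

/-- **HFX** (80 lines). Finiteness of all the spaces of morphisms of `D^b`: two inductions on the
thick closure from **HF** (`Hom(-, Y)`, `Hom(X, -)` of retracts, shifts and triangles). -/
def S_HFX : Prop := ∀ (τ τ' : ℂ) (_ : 0 < τ.im) (_ : 0 < τ'.im)
  [HasDerivedCategory.{w} (QC τ τ' false)]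
  (X Y : DerivedCategory (QC τ τ' false)), DbX τ τ' X → DbX τ τ' Y → Module.Finite ℂ (X ⟶ Y)

end Run7.h354.BE
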