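import Pool.Agent.Run7.h354.BE.Inst
import Pool.Agent.Run7.h354.BE.Stm3

/-!
# The pieces (direct and inverse image)
-/

set_option autoImplicit false
set_option linter.unusedSectionVars false
set_option linter.unusedVariables false

open CategoryTheory CategoryTheory.Limits Pretriangulated Triangulated Complex ZeroObject
open Pool.Agent.Helper445_GMF

namespace Run7.h354.BE

universe w w' v u v' u' v₁ u₁ v₂ u₂ v₃ u₃ v₄ u₄

/-- Properties of the direct image `F` and of the inverse image `G` for the double cover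
`E × F → S`, and the twist `T` by the line bundle of order two on `S`: `F ⋙ G` contains the identity
as a direct factor, `G ⋙ F` is the sum of the identity and `T`, and `η` is the unit of the
adjunction of `G` and `F`. -/
structure RA {A₁ : Type u₁} [Category.{v₁} A₁] {A₂ : Type u₂} [Category.{v₂} A₂] [Preadditive A₂]
    (F : A₁ ⥤ A₂) (G : A₂ ⥤ A₁) (T : A₂ ⥤ A₂) where
  /-- the inclusion of the direct factor -/
  i : 𝟭 A₁ ⟶ F ⋙ G
  /-- the projection to the direct factor -/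
  r : F ⋙ G ⟶ 𝟭 A₁
  ir : ∀ X, i.app X ≫ r.app X = 𝟙 X
  /-- the unit -/
  η : 𝟭 A₂ ⟶ G ⋙ F
  /-- the trace -/
  ρ : G ⋙ F ⟶ 𝟭 A₂
  /-- the second factor -/
  η' : T ⟶ G ⋙ F
  /-- the second factor -/
  ρ' : G ⋙ F ⟶ T
  h1 : ∀ X, η.app X ≫ ρ.app X = 𝟙 X
  h2 : ∀ X, η'.app X ≫ ρ'.app X = 𝟙 _
  h3 : ∀ X, η.app X ≫ ρ'.app X = 0
  h4 : ∀ X, η'.app X ≫ ρ.app X = 0
  h5 : ∀ X, ρ.app X ≫ η.app X + ρ'.app X ≫ η'.app X = 𝟙 _
  tri : ∀ X : A₁, η.app (F.obj X) ≫ F.map (r.app X) = 𝟙 (F.obj X)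

/-- **RAL** (200 lines). Lifting along localizations (model: `TA.lift` in TA.lean:
`Localization.liftNatTrans`, `liftNatTrans_app`, `natTrans_ext`; the comparison isomorphism of a
composite as in `lcc`). -/
def S_RAL : Prop := ∀ (A₁ : Type u₁) [Category.{v₁} A₁] (A₂ : Type u₂) [Category.{v₂} A₂]
  [Preadditive A₂] (B₁ : Type u₃) [Category.{v₃} B₁] (B₂ : Type u₄) [Category.{v₄} B₂]
  [Preadditive B₂] (L₁ : A₁ ⥤ B₁) (L₂ : A₂ ⥤ B₂) [L₂.Additive] (W₁ : MorphismProperty A₁)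
  (W₂ : MorphismProperty A₂) [L₁.IsLocalization W₁] [L₂.IsLocalization W₂]
  (F : A₁ ⥤ A₂) (G : A₂ ⥤ A₁) (T : A₂ ⥤ A₂) (F' : B₁ ⥤ B₂) (G' : B₂ ⥤ B₁) (T' : B₂ ⥤ B₂)
  (_ : L₁ ⋙ F' ≅ F ⋙ L₂) (_ : L₂ ⋙ G' ≅ G ⋙ L₁) (_ : L₂ ⋙ T' ≅ T ⋙ L₂),
  RA F G T → Nonempty (RA F' G' T')

/-- **RAC** (40 lines). Complexes (`NatTrans.mapHomologicalComplex`; composites of
`mapHomologicalComplex` are equal on the nose). -/
def S_RAC : Prop := ∀ (A₁ : Type u₁) [Category.{v₁} A₁] [Preadditive A₁] (A₂ : Type u₂)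
  [Category.{v₂} A₂] [Preadditive A₂] (F : A₁ ⥤ A₂) (G : A₂ ⥤ A₁) (T : A₂ ⥤ A₂)
  [F.Additive] [G.Additive] [T.Additive], RA F G T →
  Nonempty (RA (F.mapHomologicalComplex (.up ℤ)) (G.mapHomologicalComplex (.up ℤ))
    (T.mapHomologicalComplex (.up ℤ)))

/-- **RAR** (40 lines). Full subcategories. -/
def S_RAR : Prop := ∀ (A₁ : Type u₁) [Category.{v₁} A₁] (A₂ : Type u₂)
  [Category.{v₂} A₂] [Preadditive A₂] (F : A₁ ⥤ A₂) (G : A₂ ⥤ A₁) (T : A₂ ⥤ A₂)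
  (P₁ : ObjectProperty A₁) (P₂ : ObjectProperty A₂)
  (hF : ∀ X : P₁.FullSubcategory, P₂ ((P₁.ι ⋙ F).obj X))
  (hG : ∀ X : P₂.FullSubcategory, P₁ ((P₂.ι ⋙ G).obj X))
  (hT : ∀ X : P₂.FullSubcategory, P₂ ((P₂.ι ⋙ T).obj X)), RA F G T →
  Nonempty (RA (P₂.lift (P₁.ι ⋙ F) hF) (P₁.lift (P₂.ι ⋙ G) hG) (P₂.lift (P₂.ι ⋙ T) hT))

/-- **RA0** (200 lines). Graded modules. Let `σ a : a ⟶ g a` and `τ a : g a ⟶ a` be the morphisms
`(true, 1)` of `Ob τ τ' true` (`g a = invG τ' true a.deg`), and `ε (z, w) = exp (2 π i z)`, an element of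
`W (g0 (c0 τ), 0)` with `ε ∘ inv true = - ε`. For `N` over `E × F`: `i x = (x, 0)`, `r (x, y) = x`. For
`M` over `S`: `η x = (x, σ x)`, `ρ (x, y) = (x + τ y) / 2`, `η' x = (ε⁻¹ x, - σ (ε⁻¹ x))`,
`ρ' (x, y) = ε (x - τ y) / 2`. -/
def S_RA0 : Prop := ∀ τ τ' : ℂ,
  Nonempty (RA (dir τ τ') (res τ τ') ((DS τ τ').tw (g0 (c0 τ))))

/-- **RAQ** (20 lines, from **RA0** and **RAL**). Quasi-coherent sheaves. -/
def S_RAQ : Prop := ∀ τ τ' : ℂ,
  Nonempty (RA (pf τ τ') (pb τ τ') ((DS τ τ').twQ (g0 (c0 τ))))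

/-- **RAD** (20 lines, from **RAC** and **RAL**). Derived categories. -/
def S_RAD : Prop := ∀ (A₁ : Type u₁) [Category.{v₁} A₁] [Abelian A₁] [HasDerivedCategory.{w} A₁]
  (A₂ : Type u₂) [Category.{v₂} A₂] [Abelian A₂] [HasDerivedCategory.{w'} A₂]
  (F : A₁ ⥤ A₂) (G : A₂ ⥤ A₁) (T : A₂ ⥤ A₂) [F.Additive] [G.Additive] [T.Additive]
  [PreservesFiniteLimits F] [PreservesFiniteLimits G] [PreservesFiniteLimits T]
  [PreservesFiniteColimits F] [PreservesFiniteColimits G] [PreservesFiniteColimits T],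
  RA F G T → Nonempty (RA F.mapDerivedCategory G.mapDerivedCategory T.mapDerivedCategory)

/-- **SKY** (60 lines). The direct image of a skyscraper sheaf; the points `x` and `inv x` have the
same image (`(x₁, x₂) ↦ (x₂, x₁)`). -/
def S_SKY : Prop := ∀ (τ τ' : ℂ) [HasDerivedCategory.{w} (QC τ τ' false)]
  [HasDerivedCategory.{w'} (QC τ τ' true)] (x : ℂ × ℂ),
  Nonempty ((pf τ τ').mapDerivedCategory.obj (skyX τ τ' x) ≅ skyS τ τ' x) ∧
  Nonempty (skyS τ τ' x ≅ skyS τ τ' (inv true x))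

/-- **PBT** (80 lines). The inverse image commutes with the twists; `D^b(S)` is stable under the
twists (**TWD**). -/
def S_PBT : Prop := ∀ (τ τ' : ℂ) (γ : Gam) [HasDerivedCategory.{w} (QC τ τ' false)]
  [HasDerivedCategory.{w'} (QC τ τ' true)] (X : DerivedCategory (QC τ τ' true)),
  DbS τ τ' X → DbS τ τ' (((DS τ τ').twQ γ).mapDerivedCategory.obj X)

/-- **PFD** (150 lines). The direct image of an object of `D^b(X)` is in `D^b(S)`:
`res (dir (free b)) ≅ free b ⊞ free (invG τ' true b)` (the second component by `f ↦ f ∘ inv`), and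
thick closure. -/
def S_PFD : Prop := ∀ (τ τ' : ℂ) [HasDerivedCategory.{w} (QC τ τ' false)]
  [HasDerivedCategory.{w'} (QC τ τ' true)] (X : DerivedCategory (QC τ τ' false)),
  DbX τ τ' X → DbS τ τ' ((pf τ τ').mapDerivedCategory.obj X)

/-- **ACT** (120 lines). The actions of the theta functions on the skyscraper sheaves. -/
def S_ACT : Prop := ∀ (τ τ' : ℂ) [HasDerivedCategory.{w} (QC τ τ' false)] (x : ℂ × ℂ),
  (∀ γ, Nonempty (((DE τ τ').twQ γ).mapDerivedCategory.obj (skyX τ τ' x) ≅ skyX τ τ' x)) ∧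
  (∀ γ, Nonempty (((DF τ τ').twQ γ).mapDerivedCategory.obj (skyX τ τ' x) ≅ skyX τ τ' x)) ∧
  (∀ (γ : Gam) (f : ℂ → ℂ) (hf : f ∈ V τ (γ - 0)), f x.1 = 0 →
    ((DE τ τ').qc.der.Φ.map (gm f hf)).app (skyX τ τ' x) = 0) ∧
  (∀ (γ : Gam) (f : ℂ → ℂ) (hf : f ∈ V τ' (γ - 0)), f x.2 = 0 →
    ((DF τ τ').qc.der.Φ.map (gm f hf)).app (skyX τ τ' x) = 0)

end Run7.h354.BE
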