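import Pool.Agent.Run7.h354.BE.Fin2
import Pool.Agent.Run7.h354.BE.Stm4

/-!
# Descent of the stability of the skyscraper sheaves
-/

set_option autoImplicit false
set_option linter.unusedSectionVars false
set_option linter.unusedVariables false

open CategoryTheory CategoryTheory.Limits Pretriangulated Triangulated Complex ZeroObject
open Pool.Agent.Helper445_GMF

namespace Run7.h354.BE

universe v u v' u'

theorem d_COV : S_COV.{v, u, v', u'} := Run7.h824.BE.p_COV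

section

variable {X : Type u} [Category.{v} X] [Preadditive X] [Linear ℂ X] [HasZeroObject X]
  [HasShift X ℤ] [∀ n : ℤ, (shiftFunctor X n).Additive] [Pretriangulated X] [IsTriangulated X]
  {S : Type u'} [Category.{v'} S] [Preadditive S] [Linear ℂ S] [HasZeroObject S]
  [HasShift S ℤ] [∀ n : ℤ, (shiftFunctor S n).Additive] [Pretriangulated S] [IsTriangulated S]
  {p : X ⥤ S} {q : S ⥤ X} {T : S ⥤ S} (R : RA p q T)

/-- `q ⋙ p` is the sum of the identity and `T`. -/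
noncomputable def RA.iso (A : S) : A ⊞ T.obj A ≅ p.obj (q.obj A) where
  hom := biprod.desc (R.η.app A) (R.η'.app A)
  inv := biprod.lift (R.ρ.app A) (R.ρ'.app A)
  hom_inv_id := by
    ext
    · simpa using R.h1 A
    · simpa using R.h3 A
    · simpa using R.h4 A
    · simpa using R.h2 A
  inv_hom_id := by
    rw [biprod.lift_desc]
    exact R.h5 A

include R in
theorem RA.hom_ne (A : S) (N : X) (f : A ⟶ p.obj N) (hf : f ≠ 0) [p.PreservesZeroMorphisms] :
    ∃ g : q.obj A ⟶ N, g ≠ 0 := by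
  refine ⟨q.map f ≫ R.r.app N, fun h => hf ?_⟩
  have h1 : f ≫ R.η.app (p.obj N) = R.η.app A ≫ p.map (q.map f) := R.η.naturality f
  have h2 : R.η.app A ≫ p.map (q.map f ≫ R.r.app N) = f := by
    rw [p.map_comp, ← Category.assoc, ← h1, Category.assoc, R.tri, Category.comp_id]
  rw [← h2, h, p.map_zero, comp_zero]

include R in
theorem RA.nonzero (N : X) (hN : ¬ IsZero N) [p.PreservesZeroMorphisms]
    [q.PreservesZeroMorphisms] : ¬ IsZero (p.obj N) := by
  intro h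
  apply hN
  have h1 : IsZero (q.obj (p.obj N)) := q.map_isZero h
  rw [IsZero.iff_id_eq_zero, ← R.ir N]
  have : R.i.app N = 0 := h1.eq_of_tgt _ _
  rw [this, zero_comp]

include R in
/-- The descent of stability along the double cover. -/
theorem descent (σ : PreStab S) (hG : Support σ) (σ' : PreStab X)
    (hZ : ∀ B, σ'.Z B = σ.Z (p.obj B)) (hP : ∀ φ B, σ'.P φ B ↔ σ.P φ (p.obj B))
    (hT : ∀ φ A, σ.P φ A → σ.P φ (T.obj A) ∧ σ.Z (T.obj A) = σ.Z A)
    [p.PreservesZeroMorphisms] [q.PreservesZeroMorphisms] (φ : ℝ) (O O' : X)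
    (hO : σ'.Stable φ O) (hO' : σ'.Stable φ O') (hne : ∀ f : O ⟶ O', f = 0)
    (e : p.obj O ≅ p.obj O') : σ.Stable φ (p.obj O) := by
  have hy : σ.P φ (p.obj O) := (hP φ O).1 hO.1
  have hy0 : ¬ IsZero (p.obj O) := R.nonzero O hO.2.1
  obtain ⟨⟨A, f, hA, hf⟩, -⟩ := ((d_JH S σ φ).2.2.2.2 (d_GAP S σ hG) (p.obj O) hy).1 hy0
  obtain ⟨g, hg⟩ := R.hom_ne A O f hf
  obtain ⟨g', hg'⟩ := R.hom_ne A O' (f ≫ e.hom) (fun h => hf (by
    rw [← cancel_mono e.hom, h, zero_comp]))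
  -- `q A` is semistable
  have hqA : σ'.P φ (q.obj A) := by
    rw [hP]
    refine σ.iso (R.iso A) ?_
    exact (d_SUM S σ φ).2.2 _ (binaryBiproductTriangle_distinguished A (T.obj A)) hA.1 (hT φ A hA.1).1
  have hZqA : σ'.Z (q.obj A) = 2 * σ.Z A := by
    rw [hZ, ← σ.Z_iso (R.iso A)]
    have := σ.add _ (binaryBiproductTriangle_distinguished A (T.obj A))
    have h2 : σ.Z (A ⊞ T.obj A) = σ.Z A + σ.Z (T.obj A) := this
    rw [h2, (hT φ A hA.1).2]
    ring
  obtain ⟨K, a, c, hK, hKP⟩ := (d_JH X σ' φ).2.2.1 (q.obj A) O g hqA hO hg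
  have n1 := Run7.h67.BEJH.norm_add σ' hK hKP hO.1
  have hag : a ≫ g' ≠ 0 := by
    intro h
    obtain ⟨k, hk⟩ := Triangle.yoneda_exact₂ _ hK g' h
    refine hg' ?_
    rw [hk, hne k]
    exact comp_zero
  obtain ⟨K', a', c', hK', hKP'⟩ := (d_JH X σ' φ).2.2.1 K O' (a ≫ g') hKP hO' hag
  have n2 := Run7.h67.BEJH.norm_add σ' hK' hKP' hO'.1
  obtain ⟨Q, b, d, hQ, hQP⟩ := (d_JH S σ φ).2.2.2.1 A (p.obj O) f hA hy hf
  have n3 := Run7.h67.BEJH.norm_add σ hQ hA.1 hQP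
  have hZ' : σ'.Z O' = σ'.Z O := by rw [hZ, hZ, σ.Z_iso e]
  have n4 : ‖σ'.Z (q.obj A)‖ = 2 * ‖σ.Z A‖ := by
    rw [hZqA, norm_mul]
    norm_num
  have n5 : ‖σ.Z (p.obj O)‖ = ‖σ'.Z O‖ := by rw [hZ]
  have n6 := norm_nonneg (σ'.Z K')
  have n7 := norm_nonneg (σ.Z Q)
  rw [hZ'] at n2
  have hQ0 : ‖σ.Z Q‖ = 0 := by linarith
  have hQz : IsZero Q := by
    by_contra h
    obtain ⟨m, hm, e⟩ := σ.phase φ Q hQP h
    rw [norm_eq_zero.1 hQ0] at e
    have := mul_ne_zero (Complex.ofReal_ne_zero.2 hm.ne') (Complex.exp_ne_zero (Complex.I * Real.pi * φ))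
    exact this e.symm
  have hiso : IsIso f := (Triangle.distinguished_iff_of_isZero₃ _ hQz).1 hQ
  refine ⟨hy, hy0, fun A' B' f' g' h' hT' hA' hB' => ?_⟩
  refine hA.2.2 A' B' (f' ≫ CategoryTheory.inv f) (f ≫ g') h' ?_ hA' hB'
  exact dist_mid hT' (asIso f).symm

end

end Run7.h354.BE
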