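import Pool.Agent.Run7.h354.BE.Fin

/-!
# Assembly: the stability conditions on `E × F`
-/

set_option autoImplicit false
set_option linter.unusedSectionVars false
set_option linter.unusedVariables false

open CategoryTheory CategoryTheory.Limits Pretriangulated Triangulated Complex ZeroObject
open Pool.Agent.Helper445_GMF

namespace Run7.h354.BE

universe w w' v u

section

variable {C : Type u} [Category.{v} C] [Preadditive C] [Linear ℂ C] [HasZeroObject C]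
  [HasShift C ℤ] [∀ n : ℤ, (shiftFunctor C n).Additive] [Pretriangulated C]
  {P : ObjectProperty C} [P.IsTriangulated] [P.IsClosedUnderIsomorphisms] {τ : ℂ}

theorem act_zero_iff {Φ : Gr τ ⥤ (C ⥤ C)} {hP : ∀ a X, P X → P ((Φ.obj a).obj X)}
    {E : EA τ P.FullSubcategory} (hE : E.Φ = resΦ Φ P hP) {a b : Gam} (f : ℂ → ℂ)
    (hf : f ∈ V τ (b - a)) (G : P.FullSubcategory) :
    E.act f hf G = 0 ↔ (Φ.map (gm f hf)).app G.obj = 0 := by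
  have key : ∀ Ψ, E.Φ = Ψ → ((E.Φ.map (gm f hf)).app G = 0 ↔ (Ψ.map (gm f hf)).app G = 0) := by
    rintro _ rfl
    exact Iff.rfl
  refine (key _ hE).trans ⟨fun h => ?_, fun h => ?_⟩
  · exact congrArg (fun k => k.hom) h
  · exact ObjectProperty.hom_ext _ h

theorem tw_iso {Φ : Gr τ ⥤ (C ⥤ C)} {hP : ∀ a X, P X → P ((Φ.obj a).obj X)}
    {E : EA τ P.FullSubcategory} (hE : E.Φ = resΦ Φ P hP) (a : Gam) (G : P.FullSubcategory) :
    Nonempty (E.tw a G ≅ (resΦ Φ P hP).obj ⟨a⟩ |>.obj G) := by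
  have key : ∀ Ψ, E.Φ = Ψ → Nonempty ((E.Φ.obj ⟨a⟩).obj G ≅ (Ψ.obj ⟨a⟩).obj G) := by
    rintro _ rfl
    exact ⟨Iso.refl _⟩
  exact key _ hE

theorem fin_full (h : ∀ X Y : C, P X → P Y → Module.Finite ℂ (X ⟶ Y)) (A B : P.FullSubcategory) :
    Module.Finite ℂ (A ⟶ B) := by
  have := h A.obj B.obj A.property B.property
  let φ : (A ⟶ B) →ₗ[ℂ] (A.obj ⟶ B.obj) := P.ι.mapLinearMap ℂ
  exact Module.Finite.of_injective φ (fun f g h => P.ι.map_injective h)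

theorem shift_tgt {A O : P.FullSubcategory} (n : ℤ) (h : ∀ k : A ⟶ O⟦n⟧, k = 0)
    (k : A.obj ⟶ O.obj⟦n⟧) : k = 0 := by
  let e : (O⟦n⟧).obj ≅ O.obj⟦n⟧ := (P.ι.commShiftIso n).app O
  have h1 : (ObjectProperty.homMk (k ≫ e.inv) : A ⟶ O⟦n⟧) = 0 := h _
  have h2 : k ≫ e.inv = 0 := congrArg (fun k => k.hom) h1
  rw [← cancel_mono e.inv, h2, zero_comp]

theorem shift_src {A O : P.FullSubcategory} (n : ℤ) (h : ∀ k : O⟦n⟧ ⟶ A, k = 0)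
    (k : O.obj⟦n⟧ ⟶ A.obj) : k = 0 := by
  let e : (O⟦n⟧).obj ≅ O.obj⟦n⟧ := (P.ι.commShiftIso n).app O
  have h1 : (ObjectProperty.homMk (e.hom ≫ k) : O⟦n⟧ ⟶ A) = 0 := h _
  have h2 : e.hom ≫ k = 0 := congrArg (fun k => k.hom) h1
  rw [← cancel_epi e.hom, h2, comp_zero]

end

section

variable {τ τ' : ℂ} [HasDerivedCategory.{w} (QC τ τ' false)]

theorem sky_end (hPTS : S_PTS.{w}) (hτ : 0 < τ.im) (hτ' : 0 < τ'.im) (x : ℂ × ℂ)
    (hx : DbX τ τ' (skyX τ τ' x)) (f : (⟨skyX τ τ' x, hx⟩ : (DbX τ τ').FullSubcategory) ⟶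
      ⟨skyX τ τ' x, hx⟩) : ∃ r : ℂ, f = r • 𝟙 _ := by
  obtain ⟨g, hg⟩ := (DerivedCategory.singleFunctor (QC τ τ' false) 0).map_surjective f.hom
  obtain ⟨r, hr⟩ := (hPTS τ τ' hτ hτ' x).2.2.1 g
  refine ⟨r, ObjectProperty.hom_ext _ ?_⟩
  refine hg.symm.trans ?_
  rw [hr, Functor.map_smul, CategoryTheory.Functor.map_id]
  rfl

theorem sky_ne (hPTS : S_PTS.{w}) (hτ : 0 < τ.im) (hτ' : 0 < τ'.im) (x y : ℂ × ℂ)
    (hx : DbX τ τ' (skyX τ τ' x)) (hy : DbX τ τ' (skyX τ τ' y))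
    (h : ¬ Cg τ x.1 y.1 ∨ ¬ Cg τ' x.2 y.2) (f : (⟨skyX τ τ' x, hx⟩ : (DbX τ τ').FullSubcategory) ⟶
      ⟨skyX τ τ' y, hy⟩) : f = 0 := by
  obtain ⟨g, hg⟩ := (DerivedCategory.singleFunctor (QC τ τ' false) 0).map_surjective f.hom
  have hr := (hPTS τ τ' hτ hτ' x).2.2.2 y h g
  refine ObjectProperty.hom_ext _ ?_
  rw [← hg, hr, Functor.map_zero]
  rfl

theorem sky_nonzero (hPTS : S_PTS.{w}) (hτ : 0 < τ.im) (hτ' : 0 < τ'.im) (x : ℂ × ℂ)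
    (hx : DbX τ τ' (skyX τ τ' x)) :
    ¬ IsZero (⟨skyX τ τ' x, hx⟩ : (DbX τ τ').FullSubcategory) := by
  intro h
  have h1 : IsZero (skyX τ τ' x) := (DbX τ τ').ι.map_isZero h
  have : Simple ((sh τ τ' false).obj (pt τ τ' x)) := (hPTS τ τ' hτ hτ' x).2.1
  refine Simple.not_isZero ((sh τ τ' false).obj (pt τ τ' x)) ?_
  rw [IsZero.iff_id_eq_zero]
  apply (DerivedCategory.singleFunctor (QC τ τ' false) 0).map_injective
  exact h1.eq_of_src _ _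

/-- Every skyscraper sheaf of `E × F` is stable. -/
theorem pointsX (hHFX : S_HFX.{w}) (hPTS : S_PTS.{w}) (hBDD : S_BDD.{w}) (hPTA : S_PTA.{1, 1, w})
    (hDU : S_DU) (hK0 : S_K0) (hEAD : S_EAD.{w, 1, 1}) (hEAR : S_EAR.{w, 1})
    (hDH : S_DH.{w, 1, 1}) (hTWD : S_TWD.{w}) (hACT : S_ACT.{w}) (hτ : 0 < τ.im) (hτ' : 0 < τ'.im)
    (hx : ∀ x, DbX τ τ' (skyX τ τ' x)) (σ : PreStab (DbX τ τ').FullSubcategory) (hG : Support σ)
    (x : ℂ × ℂ) : ∃ φ, σ.Stable φ (⟨skyX τ τ' x, hx x⟩ : (DbX τ τ').FullSubcategory) := by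
  obtain ⟨u, hu⟩ := d_TH τ hτ
  obtain ⟨v, hv⟩ := d_TH τ' hτ'
  obtain ⟨E, hE⟩ := exEA hK0 hEAD hEAR (DE τ τ') (DbX τ τ')
    (fun a X h => hTWD τ τ τ' (DE τ τ') a.deg X h)
  obtain ⟨F, hF⟩ := exEA hK0 hEAD hEAR (DF τ τ') (DbX τ τ')
    (fun a X h => hTWD τ' τ τ' (DF τ τ') a.deg X h)
  have hz : u x.1 ∈ V τ (gu x.1 - 0) := by rw [sub_zero]; exact hu.mem _
  have hw : v x.2 ∈ V τ' (gu x.2 - 0) := by rw [sub_zero]; exact hv.mem _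
  refine point_stable σ hG hτ hτ' hu hv E F (fin_full (hHFX τ τ' hτ hτ'))
    (⟨skyX τ τ' x, hx x⟩ : (DbX τ τ').FullSubcategory) (sky_nonzero hPTS hτ hτ' x _)
    (sky_end hPTS hτ hτ' x _) ?_ ?_ x.1 x.2 hz hw ?_ ?_ ?_
  · intro c
    obtain ⟨e⟩ := (hACT τ τ' x).1 (g0 c)
    obtain ⟨e'⟩ := tw_iso hE (g0 c) (⟨skyX τ τ' x, hx x⟩ : (DbX τ τ').FullSubcategory)
    exact ⟨e' ≪≫ ObjectProperty.isoMk _ e⟩
  · intro c
    obtain ⟨e⟩ := (hACT τ τ' x).2.1 (g0 c)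
    obtain ⟨e'⟩ := tw_iso hF (g0 c) (⟨skyX τ τ' x, hx x⟩ : (DbX τ τ').FullSubcategory)
    exact ⟨e' ≪≫ ObjectProperty.isoMk _ e⟩
  · exact (act_zero_iff hE _ _ _).2 ((hACT τ τ' x).2.2.1 _ _ hz ((hu.zero _ _).2 ⟨0, 0, by simp⟩))
  · exact (act_zero_iff hF _ _ _).2 ((hACT τ τ' x).2.2.2 _ _ hw ((hv.zero _ _).2 ⟨0, 0, by simp⟩))
  · intro A B f g hA1 hA2 hB1 hB2 hf hg hn hn'
    have hA1' := (act_zero_iff hE _ _ _).1 hA1
    have hA2' := (act_zero_iff hF _ _ _).1 hA2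
    have hB1' := (act_zero_iff hE _ _ _).1 hB1
    have hB2' := (act_zero_iff hF _ _ _).1 hB2
    obtain ⟨m, _, hm, _⟩ := hBDD τ τ' A.obj A.property
    obtain ⟨_, n, _, hn1⟩ := hBDD τ τ' B.obj B.property
    have hs : Simple ((sh τ τ' false).obj (pt τ τ' x)) := (hPTS τ τ' hτ hτ' x).2.1
    have key := hPTA (QC τ τ' false) ((sh τ τ' false).obj (pt τ τ' x)) A.obj B.obj m n hm hn1
      (fun n h => (exists_maps hDU hτ hτ' hu hv x.1 x.2 hz hw _ h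
        (hDH (QC τ τ' false) τ (DE τ τ').qc _ _ _ A.obj hA1' n)
        (hDH (QC τ τ' false) τ' (DF τ τ').qc _ _ _ A.obj hA2' n)).1)
      (fun n h => (exists_maps hDU hτ hτ' hu hv x.1 x.2 hz hw _ h
        (hDH (QC τ τ' false) τ (DE τ τ').qc _ _ _ B.obj hB1' n)
        (hDH (QC τ τ' false) τ' (DF τ τ').qc _ _ _ B.obj hB2' n)).2)
      f.hom g.hom (fun h => hf (ObjectProperty.hom_ext _ h)) (fun h => hg (ObjectProperty.hom_ext _ h))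
      (fun n h0 k => shift_tgt (O := (⟨skyX τ τ' x, hx x⟩ : (DbX τ τ').FullSubcategory)) (-n)
        (hn n h0) k)
      (fun n h0 k => shift_src (O := (⟨skyX τ τ' x, hx x⟩ : (DbX τ τ').FullSubcategory)) n
        (hn' n h0) k)
    exact fun h => key (congrArg (fun k => k.hom) h)

end

end Run7.h354.BE
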