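import Pool.Agent.Run7.h354.BE.Fin4

/-!
# Assembly: the stability conditions on the bielliptic surface
-/

set_option autoImplicit false
set_option linter.unusedSectionVars false
set_option linter.unusedVariables false

open CategoryTheory CategoryTheory.Limits Pretriangulated Triangulated Complex ZeroObject
open Pool.Agent.Helper445_GMF

namespace Run7.h354.BE

universe w w' v u v' u'

/-- The support property of the induced stability condition. -/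
theorem support_lift {X : Type u} [Category.{v} X] [Preadditive X] [HasZeroObject X]
    [HasShift X ℤ] [∀ n : ℤ, (shiftFunctor X n).Additive] [Pretriangulated X] [Linear ℂ X]
    {S : Type u'} [Category.{v'} S] [Preadditive S] [HasZeroObject S]
    [HasShift S ℤ] [∀ n : ℤ, (shiftFunctor S n).Additive] [Pretriangulated S] [Linear ℂ S]
    (p : X ⥤ S) [p.Additive] [p.CommShift ℤ] [p.IsTriangulated] (σ : PreStab S) (hG : Support σ)
    (σ' : PreStab X) (hZ : ∀ B, σ'.Z B = σ.Z (p.obj B))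
    (hP : ∀ φ B, σ'.P φ B ↔ σ.P φ (p.obj B)) : Support σ' := by
  obtain ⟨n, v, l, K, h1, h2, h3⟩ := hG
  refine ⟨n, fun B => v (p.obj B), l, K, fun T hT => ?_, fun B => ?_, fun φ B hB i => ?_⟩
  · exact h1 _ (p.map_distinguished T hT)
  · rw [hZ, h2]
  · rw [hZ]
    exact h3 φ _ ((hP φ B).1 hB) i

section

variable {τ τ' : ℂ} [HasDerivedCategory.{w} (QC τ τ' false)]
  [HasDerivedCategory.{w'} (QC τ τ' true)]

theorem idem_DbX (hIDEM : S_IDEM.{1, 1, w}) (hBDD : S_BDD.{w}) :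
    IsIdempotentComplete (DbX τ τ').FullSubcategory := by
  refine ⟨fun X e he => ?_⟩
  obtain ⟨m, n, hm, hn⟩ := hBDD τ τ' X.obj X.property
  obtain ⟨Y, i, r, h1, h2⟩ := hIDEM (QC τ τ' false) X.obj m n hm hn e.hom
    (congrArg (fun k => k.hom) he)
  have hY : DbX τ τ' Y := by
    have : (DbX τ τ').IsStableUnderRetracts := by unfold DbX; infer_instance
    exact (DbX τ τ').prop_of_retract (⟨i, r, h1⟩ : Retract Y X.obj) X.property
  exact ⟨⟨Y, hY⟩, ObjectProperty.homMk i, ObjectProperty.homMk r, ObjectProperty.hom_ext _ h1,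
    ObjectProperty.hom_ext _ h2⟩

theorem inv_ne {τ : ℂ} (hτ : 0 < τ.im) (z : ℂ) : ¬ Cg τ z (z + 1 / 2) := by
  rintro ⟨m, n, h⟩
  have h1 : (-(1 / 2) : ℂ) = m + n * τ := by rw [← h]; ring
  have him := congrArg Complex.im h1
  have hre := congrArg Complex.re h1
  simp at him
  rcases him with h0 | h0
  · rw [h0] at hre
    simp at hre
    have h2 : (2 * m : ℝ) = -1 := by linarith
    have h3 : (2 * m : ℤ) = -1 := by exact_mod_cast h2
    omega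
  · exact hτ.ne' h0

/-- Every stability condition on the bielliptic surface is geometric. -/
theorem geometric (hHFX : S_HFX.{w}) (hPTS : S_PTS.{w}) (hBDD : S_BDD.{w}) (hPTA : S_PTA.{1, 1, w})
    (hDU : S_DU) (hK0 : S_K0) (hEAD : S_EAD.{w, 1, 1}) (hEAR : S_EAR.{w, 1})
    (hEAD' : S_EAD.{w', 1, 1}) (hEAR' : S_EAR.{w', 1})
    (hDH : S_DH.{w, 1, 1}) (hTWD : S_TWD.{w}) (hACT : S_ACT.{w}) (hIDEM : S_IDEM.{1, 1, w})
    (hRAQ : S_RAQ) (hRAD : S_RAD.{w, w', 1, 1, 1, 1}) (hRAR : S_RAR.{w, 1, w', 1})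
    (hSKY : S_SKY.{w, w'}) (hPBT : S_PBT.{w, w'}) (hPFD : S_PFD.{w, w'}) (hC2 : S_C2.{w})
    (hτ : 0 < τ.im) (hτ' : 0 < τ'.im) :
    ∃ hS : ∀ x, DbS τ τ' (skyS τ τ' x), ∀ σ : PreStab (DbS τ τ').FullSubcategory, Support σ →
      ∃ φ, ∀ x, σ.Stable φ (⟨skyS τ τ' x, hS x⟩ : (DbS τ τ').FullSubcategory) := by
  have hx : ∀ x, DbX τ τ' (skyX τ τ' x) := fun x => (hPTS τ τ' hτ hτ' x).1
  have hS : ∀ x, DbS τ τ' (skyS τ τ' x) := fun x => by
    obtain ⟨e⟩ := (hSKY τ τ' x).1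
    exact (DbS τ τ').prop_of_iso e (hPFD τ τ' _ (hx x))
  refine ⟨hS, fun σ hG => ?_⟩
  -- the functors
  have hp : ∀ X : (DbX τ τ').FullSubcategory,
      DbS τ τ' (((DbX τ τ').ι ⋙ (pf τ τ').mapDerivedCategory).obj X) :=
    fun X => hPFD τ τ' X.obj X.property
  have hq : ∀ X : (DbS τ τ').FullSubcategory,
      DbX τ τ' (((DbS τ τ').ι ⋙ (pb τ τ').mapDerivedCategory).obj X) := fun X => X.property
  have hT : ∀ (a : Gr (2 * τ)) (X : DerivedCategory (QC τ τ' true)), DbS τ τ' X →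
      DbS τ τ' (((DS τ τ').qc.der.Φ.obj a).obj X) := fun a X h => hPBT τ τ' a.deg X h
  let p : (DbX τ τ').FullSubcategory ⥤ (DbS τ τ').FullSubcategory :=
    (DbS τ τ').lift ((DbX τ τ').ι ⋙ (pf τ τ').mapDerivedCategory) hp
  let q : (DbS τ τ').FullSubcategory ⥤ (DbX τ τ').FullSubcategory :=
    (DbX τ τ').lift ((DbS τ τ').ι ⋙ (pb τ τ').mapDerivedCategory) hq
  let T : (DbS τ τ').FullSubcategory ⥤ (DbS τ τ').FullSubcategory :=
    (DbS τ τ').lift ((DbS τ τ').ι ⋙ ((DS τ τ').twQ (g0 (c0 τ))).mapDerivedCategory)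
      (fun X => hT ⟨g0 (c0 τ)⟩ X.obj X.property)
  obtain ⟨R₀⟩ := hRAQ τ τ'
  obtain ⟨R₁⟩ := hRAD _ _ _ _ _ R₀
  obtain ⟨R⟩ : Nonempty (RA p q T) := hRAR _ _ _ _ _ _ _ hp hq _ R₁
  -- the action of the Albanese curve
  obtain ⟨E, hE⟩ := exEA hK0 hEAD' hEAR' (DS τ τ') (DbS τ τ') hT
  have h2τ : 0 < (2 * τ).im := by
    have : (2 * τ).im = 2 * τ.im := by simp
    rw [this]
    linarith
  obtain ⟨u, hu⟩ := d_TH (2 * τ) h2τ
  have hTP : ∀ φ A, σ.P φ A → σ.P φ (T.obj A) ∧ σ.Z (T.obj A) = σ.Z A := by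
    intro φ A hA
    obtain ⟨h1, h2⟩ := d_INV _ (2 * τ) h2τ u hu E σ φ A (c0 τ) hA
    obtain ⟨e⟩ := tw_iso hE (g0 (c0 τ)) A
    exact ⟨σ.iso e h1, by rw [← h2]; exact σ.Z_iso e.symm⟩
  have hPq : ∀ φ A, σ.P φ A → σ.P φ (p.obj (q.obj A)) := by
    intro φ A hA
    refine σ.iso (R.iso A) ?_
    exact (d_SUM _ σ φ).2.2 _ (binaryBiproductTriangle_distinguished A (T.obj A)) hA (hTP φ A hA).1
  have : IsIdempotentComplete (DbX τ τ').FullSubcategory := idem_DbX hIDEM hBDD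
  obtain ⟨σ', hZ, hP⟩ := d_COV (DbX τ τ').FullSubcategory (DbS τ τ').FullSubcategory p q R.i R.r
    (by ext X; exact congrArg (fun k => k.hom) (R.ir X)) σ hPq
  have hG' : Support σ' := support_lift p σ hG σ' hZ hP
  obtain ⟨φ, hφ⟩ := hC2 τ τ' hτ hτ' hx σ' (fun x => pointsX hHFX hPTS hBDD hPTA hDU hK0 hEAD hEAR
    hDH hTWD hACT hτ hτ' hx σ' hG' x)
  refine ⟨φ, fun x => ?_⟩
  obtain ⟨e₁⟩ := (hSKY τ τ' x).1
  obtain ⟨e₂⟩ := (hSKY τ τ' x).2
  obtain ⟨e₃⟩ := (hSKY τ τ' (inv true x)).1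
  have e : p.obj ⟨skyX τ τ' x, hx x⟩ ≅ p.obj ⟨skyX τ τ' (inv true x), hx _⟩ :=
    ObjectProperty.isoMk _ (e₁ ≪≫ e₂ ≪≫ e₃.symm)
  have key := descent R σ hG σ' hZ hP hTP φ ⟨skyX τ τ' x, hx x⟩ ⟨skyX τ τ' (inv true x), hx _⟩
    (hφ x) (hφ (inv true x)) (fun f => sky_ne hPTS hτ hτ' _ _ _ _ (Or.inl (inv_ne hτ _)) f) e
  have e' : p.obj ⟨skyX τ τ' x, hx x⟩ ≅ (⟨skyS τ τ' x, hS x⟩ : (DbS τ τ').FullSubcategory) :=
    ObjectProperty.isoMk _ e₁
  refine ⟨σ.iso e' key.1, fun h => key.2.1 (h.of_iso e'), fun A' B' f' g' h' hT' hA' hB' => ?_⟩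
  exact key.2.2 A' B' (f' ≫ e'.inv) (e'.hom ≫ g') h' (dist_mid hT' e'.symm) hA' hB'

end

end Run7.h354.BE
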