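import Pool.Agent.Run7.h354.BE.Final0
import Pool.Agent.Run7.h299.BE_DU
import Pool.Agent.Run7.h67.BE.C2

/-!
# The theorem
-/

set_option autoImplicit false
set_option linter.unusedSectionVars false
set_option linter.unusedVariables false

open CategoryTheory CategoryTheory.Limits Pretriangulated Triangulated Complex ZeroObject
open Pool.Agent.Helper445_GMF

namespace Run7.h354.BE

universe w w'

/-- Every stability condition on the bielliptic surface `(E × F) / (ℤ/2)` is geometric. -/
theorem all_geometric {τ τ' : ℂ}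
    [HasDerivedCategory.{w} (QC τ τ' false)] [HasDerivedCategory.{w'} (QC τ τ' true)]
    (hτ : 0 < τ.im) (hτ' : 0 < τ'.im) :
    ∃ hS : ∀ x, DbS τ τ' (skyS τ τ' x), ∀ σ : PreStab (DbS τ τ').FullSubcategory, Support σ →
      ∃ φ, ∀ x, σ.Stable φ (⟨skyS τ τ' x, hS x⟩ : (DbS τ τ').FullSubcategory) :=
  geometric' Run7.h299.BEDU.p_DU
    (Run7.h67.BEG.p_C2 d_PEN d_SUM d_SEQ d_SEC d_TH) hτ hτ'

end Run7.h354.BE
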