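import Pool.Agent.Run7.h354.BE.P_RAD

/-!
# `RA0`
-/

set_option autoImplicit false
set_option linter.unusedSectionVars false
set_option linter.unusedVariables false

open CategoryTheory CategoryTheory.Limits Pretriangulated Triangulated Complex ZeroObject

namespace Run7.h354.BE

variable {τ τ' : ℂ}

/-- the conjugate degree -/
noncomputable def gb (a : Ob τ τ' true) : Ob τ τ' true := ⟨invG τ' true a.deg⟩

/-- the involution -/
noncomputable def sg (a : Ob τ τ' true) : a ⟶ gb a :=
  mk true (fun _ => rfl) 1 (by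
    show _ ∈ W τ τ' (invG τ' true a.deg - invG τ' true a.deg)
    rw [sub_self]
    exact W_one)

/-- the involution, backwards -/
noncomputable def tg (a : Ob τ τ' true) : gb a ⟶ a :=
  mk true (fun _ => rfl) 1 (by
    show _ ∈ W τ τ' (a.deg - invG τ' true (invG τ' true a.deg))
    rw [invG_invG]
    show _ ∈ W τ τ' (a.deg - a.deg)
    rw [sub_self]
    exact W_one)

theorem mm {M : Ob τ τ' true ⥤ ModuleCat.{0} ℂ} {a b c : Ob τ τ' true} (α : a ⟶ b) (β : b ⟶ c)
    (x : M.obj a) : M.map β (M.map α x) = M.map (α ≫ β) x := by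
  rw [M.map_comp]
  rfl

theorem mm3 {M : Ob τ τ' true ⥤ ModuleCat.{0} ℂ} {a b c d : Ob τ τ' true} (α : a ⟶ b) (β : b ⟶ c)
    (γ : c ⟶ d) (x : M.obj a) : M.map γ (M.map β (M.map α x)) = M.map (α ≫ β ≫ γ) x := by
  rw [mm, mm]

theorem map_id' {M : Ob τ τ' true ⥤ ModuleCat.{0} ℂ} {a : Ob τ τ' true} (α : a ⟶ a)
    (h : α = 𝟙 a) (x : M.obj a) : M.map α x = x := by
  rw [h, M.map_id]
  rfl

theorem sg_tg (a : Ob τ τ' true) : sg a ≫ tg a = 𝟙 a := by
  refine Mor.ext rfl ?_
  funext p
  show (1 : ℂ) * 1 = 1
  norm_num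

theorem tg_sg (a : Ob τ τ' true) : tg a ≫ sg a = 𝟙 (gb a) := by
  refine Mor.ext rfl ?_
  funext p
  show (1 : ℂ) * 1 = 1
  norm_num

/-- linearity: the morphism `- k` -/
theorem map_neg' {M : Ob τ τ' true ⥤ ModuleCat.{0} ℂ} (hM : lin τ τ' true M) {a b : Ob τ τ' true}
    (α β : a ⟶ b) (h : (α : Mor a b).e = (β : Mor a b).e)
    (h' : (α : Mor a b).f = -(β : Mor a b).f) (x : M.obj a) : M.map α x = -M.map β x := by
  obtain ⟨e, he, f, hf⟩ := α
  obtain ⟨e', he', g, hg⟩ := β
  dsimp only at h h'
  subst h
  subst h'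
  have h1 := hM a b e he (-1) g 0 hg (Submodule.zero_mem _)
  have h2 := hM a b e he (-1) (0 : ℂ × ℂ → ℂ) 0 (Submodule.zero_mem _) (Submodule.zero_mem _)
  have h3 : M.map (mk e he (0 : ℂ × ℂ → ℂ) (Submodule.zero_mem _) : a ⟶ b) = 0 := by
    have h4 : M.map (mk e he ((-1 : ℂ) • (0 : ℂ × ℂ → ℂ) + 0)
        (Submodule.add_mem _ (Submodule.smul_mem _ _ (Submodule.zero_mem _))
          (Submodule.zero_mem _)) : a ⟶ b) = M.map (mk e he (0 : ℂ × ℂ → ℂ)
          (Submodule.zero_mem _) : a ⟶ b) := by
      congr 1
      exact Mor.ext rfl (by simp [mk])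
    rw [h4, neg_one_smul, neg_add_cancel] at h2
    exact h2
  have h5 : M.map (mk e he (-g) hf : a ⟶ b) = -M.map (mk e he g hg : a ⟶ b) := by
    have h6 : (mk e he (-g) hf : a ⟶ b) = mk e he ((-1 : ℂ) • g + 0)
        (Submodule.add_mem _ (Submodule.smul_mem _ _ hg) (Submodule.zero_mem _)) :=
      Mor.ext rfl (by simp [mk])
    rw [h6, h1, h3, add_zero, neg_one_smul]
  exact LinearMap.congr_fun (congrArg ModuleCat.Hom.hom h5) x

/-- `exp (2 π i z)` -/
noncomputable def ep (p : ℂ × ℂ) : ℂ := exp (2 * Real.pi * I * p.1)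

/-- `exp (- 2 π i z)` -/
noncomputable def em (p : ℂ × ℂ) : ℂ := exp (-(2 * Real.pi * I * p.1))

theorem ep_em (p : ℂ × ℂ) : ep p * em p = 1 := by
  rw [ep, em, ← exp_add, add_neg_cancel, exp_zero]

theorem em_ep (p : ℂ × ℂ) : em p * ep p = 1 := by rw [mul_comm, ep_em]

theorem ep_inv (p : ℂ × ℂ) : ep (inv true p) = -ep p := by
  show exp (2 * Real.pi * I * (p.1 + 1 / 2)) = -exp (2 * Real.pi * I * p.1)
  rw [show 2 * Real.pi * I * (p.1 + 1 / 2) = 2 * Real.pi * I * p.1 + Real.pi * I by ring, exp_add,
    exp_pi_mul_I]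
  ring

theorem em_inv (p : ℂ × ℂ) : em (inv true p) = -em p := by
  show exp (-(2 * Real.pi * I * (p.1 + 1 / 2))) = -exp (-(2 * Real.pi * I * p.1))
  rw [show -(2 * Real.pi * I * (p.1 + 1 / 2)) = -(2 * Real.pi * I * p.1) + -(Real.pi * I) by ring,
    exp_add, exp_neg (Real.pi * I), exp_pi_mul_I]
  norm_num

theorem ep_mem : ep ∈ W τ τ' ((DS τ τ').δ (g0 (c0 τ))) := by
  refine ⟨?_, fun z w => ?_, fun z w => rfl, fun z w => ?_, fun z w => ?_⟩
  · exact ((differentiable_const _).mul differentiable_fst).cexp
  · show exp (2 * Real.pi * I * (z + 1)) = exp (2 * Real.pi * I * z)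
    rw [mul_add, mul_one, exp_add, exp_two_pi_mul_I, mul_one]
  · show exp (2 * Real.pi * I * (z + τ)) = exp (2 * Real.pi * I * τ) *
      exp (-(2 * Real.pi * I * ((2 * 0 : ℤ) : ℂ) * z)) * exp (2 * Real.pi * I * z)
    rw [mul_add, exp_add]
    simp
    ring
  · show exp (2 * Real.pi * I * z) = (0 : Gam).c *
      exp (-(2 * Real.pi * I * ((0 : ℤ) : ℂ) * w)) * exp (2 * Real.pi * I * z)
    simp

theorem em_mem : em ∈ W τ τ' (-(DS τ τ').δ (g0 (c0 τ))) := by
  refine ⟨?_, fun z w => ?_, fun z w => rfl, fun z w => ?_, fun z w => ?_⟩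
  · exact ((differentiable_const _).mul differentiable_fst).neg.cexp
  · show exp (-(2 * Real.pi * I * (z + 1))) = exp (-(2 * Real.pi * I * z))
    rw [mul_add, mul_one, neg_add, exp_add, exp_neg (2 * Real.pi * I), exp_two_pi_mul_I]
    simp
  · show exp (-(2 * Real.pi * I * (z + τ))) = (-(g0 (c0 τ))).c *
      exp (-(2 * Real.pi * I * ((-(2 * 0) : ℤ) : ℂ) * z)) * exp (-(2 * Real.pi * I * z))
    rw [mul_add, neg_add, exp_add]
    have : (-(g0 (c0 τ))).c = exp (-(2 * Real.pi * I * τ)) := by
      rw [exp_neg]
      simp [Gam.c, g0, c0]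
    rw [this]
    simp
    ring
  · show exp (-(2 * Real.pi * I * z)) = (-(0 : Gam)).c *
      exp (-(2 * Real.pi * I * ((-0 : ℤ) : ℂ) * w)) * exp (-(2 * Real.pi * I * z))
    simp

/-- the translate -/
noncomputable abbrev ta (a : Ob τ τ' true) : Ob τ τ' true := ((DS τ τ').t (g0 (c0 τ))).obj a

/-- multiplication by `em` -/
noncomputable def th (a : Ob τ τ' true) : ta a ⟶ a :=
  mul em (by
    show _ ∈ W τ τ' (a.deg - (a.deg + (DS τ τ').δ (g0 (c0 τ))))
    rw [sub_add_cancel_left]
    exact em_mem)

/-- multiplication by `ep` -/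
noncomputable def ka (a : Ob τ τ' true) : a ⟶ ta a :=
  mul ep (by
    show _ ∈ W τ τ' (a.deg + (DS τ τ').δ (g0 (c0 τ)) - a.deg)
    rw [add_sub_cancel_left]
    exact ep_mem)

theorem th_ka (a : Ob τ τ' true) : th a ≫ ka a = 𝟙 _ := by
  refine Mor.ext rfl ?_
  funext p
  exact ep_em p

theorem ka_th (a : Ob τ τ' true) : ka a ≫ th a = 𝟙 _ := by
  refine Mor.ext rfl ?_
  funext p
  exact em_ep p

/-- the unit -/
noncomputable def etaF (M : GM τ τ' true) : M ⟶ (dir τ τ').obj ((res τ τ').obj M) :=
  (lin τ τ' true).homMk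
    { app := fun a => ModuleCat.ofHom (LinearMap.prod LinearMap.id (M.obj.map (sg a)).hom)
      naturality := by
        intro a b φ
        obtain ⟨e, he, f, hf⟩ := φ
        cases e
        · refine ModuleCat.hom_ext (LinearMap.ext fun x => Prod.ext rfl ?_)
          show M.obj.map (sg b) (M.obj.map (⟨false, he, f, hf⟩ : Mor a b) x) =
            M.obj.map (mul (a := gb a) (b := gb b) (f ∘ inv true) _) (M.obj.map (sg a) x)
          rw [mm, mm]
          refine congrArg (fun k => M.obj.map k x) (Mor.ext rfl ?_)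
          funext p
          show 1 * f (inv true p) = f (inv true p) * 1
          ring
        · refine ModuleCat.hom_ext (LinearMap.ext fun x => Prod.ext ?_ ?_)
          · show M.obj.map (⟨true, he, f, hf⟩ : Mor a b) x =
              M.obj.map (mul (a := gb a) (b := b) f _) (M.obj.map (sg a) x)
            rw [mm]
            refine congrArg (fun k => M.obj.map k x) (Mor.ext rfl ?_)
            funext p
            show f p = f p * 1
            ring
          · show M.obj.map (sg b) (M.obj.map (⟨true, he, f, hf⟩ : Mor a b) x) =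
              M.obj.map (mul (a := a) (b := gb b) (f ∘ inv true) _) x
            rw [mm]
            refine congrArg (fun k => M.obj.map k x) (Mor.ext rfl ?_)
            funext p
            show 1 * f (inv true p) = f (inv true p)
            ring }

/-- the trace -/
noncomputable def rhoF (M : GM τ τ' true) : (dir τ τ').obj ((res τ τ').obj M) ⟶ M :=
  (lin τ τ' true).homMk
    { app := fun a => ModuleCat.ofHom ((1 / 2 : ℂ) • (LinearMap.fst ℂ (M.obj.obj a) (M.obj.obj (gb a)) +
        (M.obj.map (tg a)).hom.comp (LinearMap.snd ℂ (M.obj.obj a) (M.obj.obj (gb a)))))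
      naturality := by
        intro a b φ
        obtain ⟨e, he, f, hf⟩ := φ
        cases e
        · have key : ∀ (x : M.obj.obj a) (y : M.obj.obj (gb a)) (h : f ∘ inv true ∈ W τ τ' ((gb b).deg - (gb a).deg)),
              (1 / 2 : ℂ) • (M.obj.map (⟨false, he, f, hf⟩ : Mor a b) x +
              M.obj.map (tg b) (M.obj.map (mul (a := gb a) (b := gb b) (f ∘ inv true) h) y)) =
              M.obj.map (⟨false, he, f, hf⟩ : Mor a b) ((1 / 2 : ℂ) • (x + M.obj.map (tg a) y)) := by
            intro x y h
            rw [map_smul, map_add, mm, mm]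
            congr 2
            refine congrArg (fun k => M.obj.map k y) (Mor.ext rfl ?_)
            funext p
            show 1 * f (inv true (inv true p)) = f p * 1
            rw [W_inv_inv hf, mul_one, one_mul]
            rfl
          exact ModuleCat.hom_ext (LinearMap.ext fun x => key x.1 x.2 _)
        · have key : ∀ (x : M.obj.obj a) (y : M.obj.obj (gb a)) (h : f ∘ inv true ∈ W τ τ' ((gb b).deg - a.deg))
              (h' : f ∈ W τ τ' (b.deg - (gb a).deg)),
              (1 / 2 : ℂ) • (M.obj.map (mul (a := gb a) (b := b) f h') y +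
              M.obj.map (tg b) (M.obj.map (mul (a := a) (b := gb b) (f ∘ inv true) h) x)) =
              M.obj.map (⟨true, he, f, hf⟩ : Mor a b) ((1 / 2 : ℂ) • (x + M.obj.map (tg a) y)) := by
            intro x y h h'
            rw [map_smul, map_add, mm, mm, add_comm]
            congr 2
            · refine congrArg (fun k => M.obj.map k x) (Mor.ext rfl ?_)
              funext p
              show 1 * f (inv true (inv true p)) = f p
              rw [W_inv_inv hf, one_mul]
              rfl
            · refine congrArg (fun k => M.obj.map k y) (Mor.ext rfl ?_)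
              funext p
              show f p = f p * 1
              rw [mul_one]
          exact ModuleCat.hom_ext (LinearMap.ext fun x => key x.1 x.2 _ _) }

/-- translation of morphisms -/
noncomputable abbrev tm {a b : Ob τ τ' true} (φ : a ⟶ b) : ta a ⟶ ta b :=
  ((DS τ τ').t (g0 (c0 τ))).map φ

/-- the second factor -/
noncomputable def etaF' (M : GM τ τ' true) :
    ((DS τ τ').tw (g0 (c0 τ))).obj M ⟶ (dir τ τ').obj ((res τ τ').obj M) :=
  (lin τ τ' true).homMk
    { app := fun a => ModuleCat.ofHom (LinearMap.prod (M.obj.map (th a)).hom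
        (-(M.obj.map (th a ≫ sg a)).hom) : M.obj.obj (ta a) →ₗ[ℂ] M.obj.obj a × M.obj.obj (gb a))
      naturality := by
        intro a b φ
        obtain ⟨e, he, f, hf⟩ := φ
        cases e
        · have k1 : ∀ (x : M.obj.obj (ta a)) (h : f ∈ W τ τ' (b.deg - a.deg)),
              M.obj.map (th b) (M.obj.map (tm (⟨false, he, f, hf⟩ : Mor a b)) x) =
              M.obj.map (mul (a := a) (b := b) f h) (M.obj.map (th a) x) := by
            intro x h
            rw [mm, mm]
            refine congrArg (fun k => M.obj.map k x) (Mor.ext rfl ?_)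
            funext p
            show em p * f p = f p * em p
            ring
          have k2 : ∀ (x : M.obj.obj (ta a)) (h : f ∘ inv true ∈ W τ τ' ((gb b).deg - (gb a).deg)),
              -M.obj.map (th b ≫ sg b) (M.obj.map (tm (⟨false, he, f, hf⟩ : Mor a b)) x) =
              M.obj.map (mul (a := gb a) (b := gb b) (f ∘ inv true) h)
                (-M.obj.map (th a ≫ sg a) x) := by
            intro x h
            rw [map_neg, mm, mm]
            congr 1
            refine congrArg (fun k => M.obj.map k x) (Mor.ext rfl ?_)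
            funext p
            show 1 * em (inv true p) * f (inv true p) = f (inv true p) * (1 * em (inv true p))
            ring
          exact ModuleCat.hom_ext (LinearMap.ext fun x => Prod.ext (k1 x _) (k2 x _))
        · have k1 : ∀ (x : M.obj.obj (ta a)) (h : f ∈ W τ τ' (b.deg - (gb a).deg)),
              M.obj.map (th b) (M.obj.map (tm (⟨true, he, f, hf⟩ : Mor a b)) x) =
              M.obj.map (mul (a := gb a) (b := b) f h) (-M.obj.map (th a ≫ sg a) x) := by
            intro x h
            rw [map_neg, mm, mm, ← map_neg' M.property (tm (⟨true, he, f, hf⟩ : Mor a b) ≫ th b)]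
            · rfl
            · funext p
              show em p * f p = -(f p * (1 * em (inv true p)))
              rw [em_inv]
              ring
          have k2 : ∀ (x : M.obj.obj (ta a)) (h : f ∘ inv true ∈ W τ τ' ((gb b).deg - a.deg)),
              -M.obj.map (th b ≫ sg b) (M.obj.map (tm (⟨true, he, f, hf⟩ : Mor a b)) x) =
              M.obj.map (mul (a := a) (b := gb b) (f ∘ inv true) h) (M.obj.map (th a) x) := by
            intro x h
            rw [mm, mm, ← map_neg' M.property (th a ≫ mul (a := a) (b := gb b) (f ∘ inv true) h)]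
            · rfl
            · funext p
              show f (inv true p) * em p = -(1 * em (inv true p) * f (inv true p))
              rw [em_inv]
              ring
          exact ModuleCat.hom_ext (LinearMap.ext fun x => Prod.ext (k1 x _) (k2 x _)) }

/-- the second factor -/
noncomputable def rhoF' (M : GM τ τ' true) :
    (dir τ τ').obj ((res τ τ').obj M) ⟶ ((DS τ τ').tw (g0 (c0 τ))).obj M :=
  (lin τ τ' true).homMk
    { app := fun a => ModuleCat.ofHom ((1 / 2 : ℂ) • (
        (M.obj.map (ka a)).hom.comp (LinearMap.fst ℂ (M.obj.obj a) (M.obj.obj (gb a))) -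
        (M.obj.map (tg a ≫ ka a)).hom.comp (LinearMap.snd ℂ (M.obj.obj a) (M.obj.obj (gb a)))) :
        M.obj.obj a × M.obj.obj (gb a) →ₗ[ℂ] M.obj.obj (ta a))
      naturality := by
        intro a b φ
        obtain ⟨e, he, f, hf⟩ := φ
        cases e
        · have key : ∀ (x : M.obj.obj a) (y : M.obj.obj (gb a)) (h : f ∘ inv true ∈ W τ τ' ((gb b).deg - (gb a).deg))
              (h' : f ∈ W τ τ' (b.deg - a.deg)),
              (1 / 2 : ℂ) • (M.obj.map (ka b) (M.obj.map (mul (a := a) (b := b) f h') x) -
              M.obj.map (tg b ≫ ka b) (M.obj.map (mul (a := gb a) (b := gb b) (f ∘ inv true) h) y)) =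
              M.obj.map (tm (⟨false, he, f, hf⟩ : Mor a b))
                ((1 / 2 : ℂ) • (M.obj.map (ka a) x - M.obj.map (tg a ≫ ka a) y)) := by
            intro x y h h'
            rw [map_smul, map_sub, mm, mm, mm, mm]
            congr 2
            · refine congrArg (fun k => M.obj.map k x) (Mor.ext rfl ?_)
              funext p
              show ep p * f p = f p * ep p
              ring
            · refine congrArg (fun k => M.obj.map k y) (Mor.ext rfl ?_)
              funext p
              show ep p * 1 * f (inv true (inv true p)) = f p * (ep p * 1)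
              rw [W_inv_inv hf]
              show ep p * 1 * f p = f p * (ep p * 1)
              ring
          exact ModuleCat.hom_ext (LinearMap.ext fun x => key x.1 x.2 _ _)
        · have key : ∀ (x : M.obj.obj a) (y : M.obj.obj (gb a)) (h : f ∘ inv true ∈ W τ τ' ((gb b).deg - a.deg))
              (h' : f ∈ W τ τ' (b.deg - (gb a).deg)),
              (1 / 2 : ℂ) • (M.obj.map (ka b) (M.obj.map (mul (a := gb a) (b := b) f h') y) -
              M.obj.map (tg b ≫ ka b) (M.obj.map (mul (a := a) (b := gb b) (f ∘ inv true) h) x)) =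
              M.obj.map (tm (⟨true, he, f, hf⟩ : Mor a b))
                ((1 / 2 : ℂ) • (M.obj.map (ka a) x - M.obj.map (tg a ≫ ka a) y)) := by
            intro x y h h'
            rw [map_smul, map_sub, mm, mm, mm, mm,
              map_neg' M.property (ka a ≫ tm (⟨true, he, f, hf⟩ : Mor a b))
                (mul (a := a) (b := gb b) (f ∘ inv true) h ≫ tg b ≫ ka b) ?_ ?_ x,
              map_neg' M.property ((tg a ≫ ka a) ≫ tm (⟨true, he, f, hf⟩ : Mor a b))
                (mul (a := gb a) (b := b) f h' ≫ ka b) ?_ ?_ y]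
            · congr 1
              abel
            · rfl
            · funext p
              show f p * (ep (inv true p) * 1) = -(ep p * f p)
              rw [ep_inv]
              ring
            · rfl
            · funext p
              show f p * ep (inv true p) = -(ep p * 1 * f (inv true (inv true p)))
              rw [W_inv_inv hf, ep_inv]
              show f p * -ep p = -(ep p * 1 * f p)
              ring
          exact ModuleCat.hom_ext (LinearMap.ext fun x => key x.1 x.2 _ _) }

/-- the inclusion of the first factor -/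
noncomputable def incF (N : GM τ τ' false) : N ⟶ (res τ τ').obj ((dir τ τ').obj N) :=
  (lin τ τ' false).homMk
    { app := fun a => ModuleCat.ofHom (LinearMap.inl ℂ (N.obj.obj ⟨a.deg⟩)
        (N.obj.obj ⟨invG τ' true a.deg⟩))
      naturality := by
        intro a b φ
        obtain ⟨e, he, f, hf⟩ := φ
        cases e
        · refine ModuleCat.hom_ext (LinearMap.ext fun x => Prod.ext rfl ?_)
          exact (map_zero (N.obj.map (mul (a := (⟨invG τ' true a.deg⟩ : Ob τ τ' false))
            (b := ⟨invG τ' true b.deg⟩) (f ∘ inv true) (by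
            have h1 := W_inv hf true
            rwa [invG_sub, invG_false] at h1))).hom).symm
        · exact absurd (he rfl) (by decide) }

/-- the projection to the first factor -/
noncomputable def prF (N : GM τ τ' false) : (res τ τ').obj ((dir τ τ').obj N) ⟶ N :=
  (lin τ τ' false).homMk
    { app := fun a => ModuleCat.ofHom (LinearMap.fst ℂ (N.obj.obj ⟨a.deg⟩)
        (N.obj.obj ⟨invG τ' true a.deg⟩))
      naturality := by
        intro a b φ
        obtain ⟨e, he, f, hf⟩ := φ
        cases e
        · refine ModuleCat.hom_ext (LinearMap.ext fun x => rfl)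
        · exact absurd (he rfl) (by decide) }

theorem gm_ext {s : Bool} {M N : GM τ τ' s} {f g : M ⟶ N}
    (h : ∀ (a : Ob τ τ' s) (x : M.obj.obj a), f.hom.app a x = g.hom.app a x) : f = g := by
  refine ObjectProperty.hom_ext _ (NatTrans.ext (funext fun a => ?_))
  exact ModuleCat.hom_ext (LinearMap.ext fun x => h a x)

theorem st (M : GM τ τ' true) {a : Ob τ τ' true} (x : M.obj.obj a) :
    M.obj.map (tg a) (M.obj.map (sg a) x) = x := by
  rw [mm]; exact map_id' _ (sg_tg a) x

theorem ts (M : GM τ τ' true) {a : Ob τ τ' true} (x : M.obj.obj (gb a)) :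
    M.obj.map (sg a) (M.obj.map (tg a) x) = x := by
  rw [mm]; exact map_id' _ (tg_sg a) x

theorem tk (M : GM τ τ' true) {a : Ob τ τ' true} (x : M.obj.obj (ta a)) :
    M.obj.map (ka a) (M.obj.map (th a) x) = x := by
  rw [mm]; exact map_id' _ (th_ka a) x

theorem kt (M : GM τ τ' true) {a : Ob τ τ' true} (x : M.obj.obj a) :
    M.obj.map (th a) (M.obj.map (ka a) x) = x := by
  rw [mm]; exact map_id' _ (ka_th a) x

theorem half {V : Type} [AddCommGroup V] [Module ℂ V] (x : V) : (1 / 2 : ℂ) • (x + x) = x := by
  rw [← two_smul ℂ x, smul_smul]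
  norm_num

theorem p_RA0 : S_RA0 := by
  intro τ τ'
  refine ⟨{
    i := { app := incF, naturality := fun X Y g => gm_ext fun a x => ?_ }
    r := { app := prF, naturality := fun X Y g => gm_ext fun a x => rfl }
    ir := fun X => gm_ext fun a x => rfl
    η := { app := etaF, naturality := fun X Y g => gm_ext fun a x => ?_ }
    ρ := { app := rhoF, naturality := fun X Y g => gm_ext fun a x => ?_ }
    η' := { app := etaF', naturality := fun X Y g => gm_ext fun a x => ?_ }
    ρ' := { app := rhoF', naturality := fun X Y g => gm_ext fun a x => ?_ }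
    h1 := fun M => gm_ext fun a x => ?_
    h2 := fun M => gm_ext fun a x => ?_
    h3 := fun M => gm_ext fun a x => ?_
    h4 := fun M => gm_ext fun a x => ?_
    h5 := fun M => gm_ext fun a x => ?_
    tri := fun N => gm_ext fun a x => ?_ }⟩
  · exact Prod.ext rfl (map_zero (g.hom.app ⟨invG τ' true a.deg⟩).hom).symm
  · exact Prod.ext rfl (nat_apply g.hom (sg a) x).symm
  · have key : ∀ (x : X.obj.obj a) (y : X.obj.obj (gb a)),
        (1 / 2 : ℂ) • (g.hom.app a x + Y.obj.map (tg a) (g.hom.app (gb a) y)) =
        g.hom.app a ((1 / 2 : ℂ) • (x + X.obj.map (tg a) y)) := by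
      intro x y
      rw [map_smul, map_add, nat_apply]
    exact key x.1 x.2
  · have k2 : ∀ (x : X.obj.obj (ta a)), -Y.obj.map (th a ≫ sg a) (g.hom.app (ta a) x) =
        g.hom.app (gb a) (-X.obj.map (th a ≫ sg a) x) := by
      intro x
      rw [map_neg, nat_apply]
    exact Prod.ext (nat_apply g.hom (th a) x).symm (k2 x)
  · have key : ∀ (x : X.obj.obj a) (y : X.obj.obj (gb a)),
        (1 / 2 : ℂ) • (Y.obj.map (ka a) (g.hom.app a x) -
          Y.obj.map (tg a ≫ ka a) (g.hom.app (gb a) y)) =
        g.hom.app (ta a) ((1 / 2 : ℂ) • (X.obj.map (ka a) x - X.obj.map (tg a ≫ ka a) y)) := by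
      intro x y
      rw [map_smul, map_sub, nat_apply, nat_apply]
    exact key x.1 x.2
  · have key : ∀ (x : M.obj.obj a), (1 / 2 : ℂ) • (x + M.obj.map (tg a) (M.obj.map (sg a) x)) = x := by
      intro x
      rw [st, half]
    exact key x
  · have key : ∀ (x : M.obj.obj (ta a)), (1 / 2 : ℂ) • (M.obj.map (ka a) (M.obj.map (th a) x) -
        M.obj.map (tg a ≫ ka a) (-M.obj.map (th a ≫ sg a) x)) = x := by
      intro x
      rw [map_neg, ← mm (tg a), ← mm (th a), st, tk, sub_neg_eq_add, half]
    exact key x
  · have key : ∀ (x : M.obj.obj a), (1 / 2 : ℂ) • (M.obj.map (ka a) x -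
        M.obj.map (tg a ≫ ka a) (M.obj.map (sg a) x)) = 0 := by
      intro x
      rw [← mm (tg a), st, sub_self, smul_zero]
    exact key x
  · have key : ∀ (x : M.obj.obj (ta a)), (1 / 2 : ℂ) • (M.obj.map (th a) x +
        M.obj.map (tg a) (-M.obj.map (th a ≫ sg a) x)) = 0 := by
      intro x
      rw [map_neg, ← mm (th a), st, add_neg_cancel, smul_zero]
    exact key x
  · have k1 : ∀ (x : M.obj.obj a) (y : M.obj.obj (gb a)),
        (1 / 2 : ℂ) • (x + M.obj.map (tg a) y) + M.obj.map (th a)
          ((1 / 2 : ℂ) • (M.obj.map (ka a) x - M.obj.map (tg a ≫ ka a) y)) = x := by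
      intro x y
      rw [map_smul, map_sub, ← mm (tg a), kt, kt, ← smul_add, add_add_sub_cancel, half]
    have k2 : ∀ (x : M.obj.obj a) (y : M.obj.obj (gb a)),
        M.obj.map (sg a) ((1 / 2 : ℂ) • (x + M.obj.map (tg a) y)) + -M.obj.map (th a ≫ sg a)
          ((1 / 2 : ℂ) • (M.obj.map (ka a) x - M.obj.map (tg a ≫ ka a) y)) = y := by
      intro x y
      rw [map_smul, map_smul, map_sub, ← mm (tg a), ← mm (th a), ← mm (th a), kt, kt, map_add, ts,
        ← smul_neg, ← smul_add]
      rw [show M.obj.map (sg a) x + y + -(M.obj.map (sg a) x - y) = y + y by abel, half]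
    exact Prod.ext (k1 x.1 x.2) (k2 x.1 x.2)
  · refine Prod.ext rfl ?_
    have h1 : (1 : ℂ × ℂ → ℂ) ∈ W τ τ' ((⟨invG τ' true a.deg⟩ : Ob τ τ' false).deg -
        (⟨invG τ' true a.deg⟩ : Ob τ τ' false).deg) := by
      rw [sub_self]
      exact W_one
    have key : ∀ (y : N.obj.obj ⟨invG τ' true a.deg⟩),
        N.obj.map (mul (a := (⟨invG τ' true a.deg⟩ : Ob τ τ' false))
          (b := ⟨invG τ' true a.deg⟩) 1 h1) y = y := by
      intro y
      have e : mul (a := (⟨invG τ' true a.deg⟩ : Ob τ τ' false))
          (b := ⟨invG τ' true a.deg⟩) 1 h1 = 𝟙 _ := Mor.ext rfl rfl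
      rw [e, N.obj.map_id]
      rfl
    exact key x.2

end Run7.h354.BE
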