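import Pool.Agent.Run7.h354.BE.Fin5
import Pool.Agent.Run7.h354.BE.P_RA0
import Pool.Agent.Run7.h253.BE.EAD
import Pool.Agent.Run7.h253.BE.EAR
import Pool.Agent.Run7.h253.BE.DH
import Pool.Agent.Run7.h253.BE.PTA
import Pool.Agent.Run7.h639.BE.KEX
import Pool.Agent.Run7.h639.BE.IDEM
import Pool.Agent.Run7.h928.BE.TWD
import Pool.Agent.Run7.h928.BE.HFX
import Pool.Agent.Run7.h928.BE.PBT
import Pool.Agent.Run7.h928.BE.PFD
import Pool.Agent.Run7.h576.BE_K0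
import Pool.Agent.Run7.h576.BE_SAT
import Pool.Agent.Run7.h576.BE_SKY
import Pool.Agent.Run7.h622.BE_HF
import Pool.Agent.Run7.h299.BE_SEC
import Pool.Agent.Run7.h299.BE_KUN
import Pool.Agent.Run7.h299.BE_SEQ
import Pool.Agent.Run7.h67.BE.PTS
import Pool.Agent.Run7.h67.BE.LOC

/-!
# Assembly of the pieces
-/

set_option autoImplicit false
set_option linter.unusedSectionVars false
set_option linter.unusedVariables false

open CategoryTheory CategoryTheory.Limits Pretriangulated Triangulated Complex ZeroObject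
open Pool.Agent.Helper445_GMF

namespace Run7.h354.BE

universe w w'

theorem d_SEQ : S_SEQ := Run7.h299.BESEQ.p_SEQ
theorem d_SEC : S_SEC := Run7.h299.BESEC.p_SEC
theorem d_KUN : S_KUN := Run7.h299.BEKUN.p_KUN
theorem d_SAT : S_SAT := Run7.h576.BE.p_sat
theorem d_LOC : S_LOC.{w} := Run7.h67.BEG.p_LOC
theorem d_PTS : S_PTS.{w} := Run7.h67.BEG.p_PTS d_SEQ d_SEC d_SAT d_TH
theorem d_HF : S_HF.{w} := Run7.h622.p_HF d_TH d_SEC d_KUN d_SAT d_SEQ d_LOC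
theorem d_HFX : S_HFX.{w} := Run7.h928.BE.hfx d_HF

theorem geometric' (hDU : S_DU) (hC2 : S_C2.{w}) {τ τ' : ℂ}
    [HasDerivedCategory.{w} (QC τ τ' false)] [HasDerivedCategory.{w'} (QC τ τ' true)]
    (hτ : 0 < τ.im) (hτ' : 0 < τ'.im) :
    ∃ hS : ∀ x, DbS τ τ' (skyS τ τ' x), ∀ σ : PreStab (DbS τ τ').FullSubcategory, Support σ →
      ∃ φ, ∀ x, σ.Stable φ (⟨skyS τ τ' x, hS x⟩ : (DbS τ τ').FullSubcategory) :=
  geometric d_HFX d_PTS Run7.h928.BE.bdd Run7.h253.BE.p_PTA hDU Run7.h576.BE.p_k0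
    (Run7.h253.BE.p_EAD Run7.h639.BE.KEX.p_KEX Run7.h639.BE.KEX.p_KEX) Run7.h253.BE.p_EAR
    (Run7.h253.BE.p_EAD Run7.h639.BE.KEX.p_KEX Run7.h639.BE.KEX.p_KEX) Run7.h253.BE.p_EAR
    Run7.h253.BE.p_DH Run7.h928.BE.twd Run7.h576.BE.p_act Run7.h639.BE.IDEM.p_IDEM
    (p_RAQ p_RA0) p_RAD p_RAR Run7.h576.BE.p_sky Run7.h928.BE.pbt Run7.h928.BE.pfd hC2 hτ hτ'

end Run7.h354.BE
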