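import Pool.Agent.Run7.h354.BE.FM

/-!
# The three actions
-/

set_option autoImplicit false
set_option linter.unusedSectionVars false
set_option linter.unusedVariables false

open CategoryTheory CategoryTheory.Limits Complex ZeroObject

namespace Run7.h354.BE

section

variable {τ₀ τ τ' : ℂ} {s : Bool} (D : Dat τ₀ τ τ' s)

theorem Dat.qc_obj (a : Gr τ₀) : D.qc.Φ.obj a = D.twQ a.deg := rfl

instance (a : Gr τ₀) : (D.qc.Φ.obj a).Additive := inferInstanceAs (D.twQ a.deg).Additive
instance (a : Gr τ₀) : (D.qc.Φ.obj a).Linear ℂ := inferInstanceAs ((D.twQ a.deg).Linear ℂ)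
instance (a : Gr τ₀) : PreservesFiniteLimits (D.qc.Φ.obj a) :=
  inferInstanceAs (PreservesFiniteLimits (D.twQ a.deg))
instance (a : Gr τ₀) : PreservesFiniteColimits (D.qc.Φ.obj a) :=
  inferInstanceAs (PreservesFiniteColimits (D.twQ a.deg))

end

variable (τ τ' : ℂ)

/-- The projection `E × F → E`. -/
def DE : Dat τ τ τ' false where
  ℓ p := p.1
  δ := AddMonoidHom.inl Gam Gam
  fac γ k hk := ⟨k, 1, hk, V_one, funext fun p => (mul_one (k p.1)).symm⟩
  inv h := absurd h (by decide)
  invG h := absurd h (by decide)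

/-- The projection `E × F → F`. -/
def DF : Dat τ' τ τ' false where
  ℓ p := p.2
  δ := AddMonoidHom.inr Gam Gam
  fac γ k hk := ⟨1, k, V_one, hk, funext fun p => (one_mul (k p.2)).symm⟩
  inv h := absurd h (by decide)
  invG h := absurd h (by decide)

variable {τ} in
theorem V_period {τ : ℂ} {γ : Gam} {k : ℂ → ℂ} (hk : k ∈ V τ γ) (z : ℂ) : k (z + 1) = k z := hk.2.1 z

/-- The map `S → E / G` from the bielliptic surface to its Albanese curve, with respect to the
curve `ℂ / (ℤ + 2 τ ℤ)`, which is `E / G` by the multiplication by two. -/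
def DS : Dat (2 * τ) τ τ' true where
  ℓ p := 2 * p.1
  δ :=
    { toFun := fun γ => ((2 * γ.1, γ.2), 0)
      map_zero' := rfl
      map_add' := fun a b => Prod.ext (Prod.ext (mul_add 2 a.1 b.1) rfl) (add_zero 0).symm }
  fac γ k hk := by
    refine ⟨fun z => k (2 * z), 1, ⟨?_, fun z => ?_, fun z => ?_⟩, V_one,
      funext fun p => (mul_one (k (2 * p.1))).symm⟩
    · exact hk.1.comp (differentiable_id.const_mul 2)
    · show k (2 * (z + 1)) = k (2 * z)
      rw [show 2 * (z + 1) = 2 * z + 1 + 1 by ring, hk.2.1, hk.2.1]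
    · show k (2 * (z + τ)) = _
      rw [mul_add, hk.2.2]
      show γ.c * exp (-(2 * Real.pi * I * γ.1 * (2 * z))) * k (2 * z) =
        γ.c * exp (-(2 * Real.pi * I * ((2 * γ.1 : ℤ) : ℂ) * z)) * k (2 * z)
      rw [show -(2 * Real.pi * I * (γ.1 : ℂ) * (2 * z)) =
        -(2 * Real.pi * I * ((2 * γ.1 : ℤ) : ℂ) * z) by push_cast; ring]
  inv _ γ k hk p := by
    show k (2 * (p.1 + 1 / 2)) = k (2 * p.1)
    rw [show 2 * (p.1 + 1 / 2) = 2 * p.1 + 1 by ring, hk.2.1]
  invG _ γ := by
    refine Prod.ext (Prod.ext rfl ?_) (Prod.ext rfl ?_)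
    · show γ.2 + Additive.ofMul ((-1 : ℂˣ) ^ (2 * γ.1)) = γ.2
      rw [zpow_mul, show (-1 : ℂˣ) ^ (2 : ℤ) = 1 by norm_num, one_zpow, ofMul_one, add_zero]
    · show -(0 : Additive ℂˣ) + Additive.ofMul (Units.mk0 (exp (-(2 * Real.pi * I *
        ((0 : ℤ) : ℂ) * τ'))) (exp_ne_zero _)) = 0
      rw [neg_zero, zero_add]
      apply Additive.toMul.injective
      apply Units.ext
      show exp (-(2 * Real.pi * I * ((0 : ℤ) : ℂ) * τ')) = 1
      simp

/-- The constant of the nowhere vanishing function `exp (2 π i z)`, which is a section of the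
line bundle of order two on the Albanese curve which becomes trivial on `E × F`. -/
noncomputable def c0 : ℂˣ := Units.mk0 (exp (2 * Real.pi * I * τ)) (exp_ne_zero _)

theorem DS_c0 : (DS τ τ').δ (g0 (c0 τ)) = (g0 (c0 τ), 0) := rfl

end Run7.h354.BE
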