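import Pool.Agent.Run7.h354.BE.Stm4

/-!
# `RAC`, `RAR`
-/

set_option autoImplicit false
set_option linter.unusedSectionVars false
set_option linter.unusedVariables false

open CategoryTheory CategoryTheory.Limits Pretriangulated Triangulated Complex ZeroObject

namespace Run7.h354.BE

universe w w' v u v' u' v₁ u₁ v₂ u₂ v₃ u₃ v₄ u₄

theorem p_RAR : S_RAR.{v₁, u₁, v₂, u₂} := by
  intro A₁ _ A₂ _ _ F G T P₁ P₂ hF hG hT R
  exact ⟨{
    i := { app := fun X => ObjectProperty.homMk (R.i.app X.obj)
           naturality := fun X Y g => ObjectProperty.hom_ext _ (R.i.naturality g.hom) }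
    r := { app := fun X => ObjectProperty.homMk (R.r.app X.obj)
           naturality := fun X Y g => ObjectProperty.hom_ext _ (R.r.naturality g.hom) }
    ir := fun X => ObjectProperty.hom_ext _ (R.ir X.obj)
    η := { app := fun X => ObjectProperty.homMk (R.η.app X.obj)
           naturality := fun X Y g => ObjectProperty.hom_ext _ (R.η.naturality g.hom) }
    ρ := { app := fun X => ObjectProperty.homMk (R.ρ.app X.obj)
           naturality := fun X Y g => ObjectProperty.hom_ext _ (R.ρ.naturality g.hom) }
    η' := { app := fun X => ObjectProperty.homMk (R.η'.app X.obj)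
            naturality := fun X Y g => ObjectProperty.hom_ext _ (R.η'.naturality g.hom) }
    ρ' := { app := fun X => ObjectProperty.homMk (R.ρ'.app X.obj)
            naturality := fun X Y g => ObjectProperty.hom_ext _ (R.ρ'.naturality g.hom) }
    h1 := fun X => ObjectProperty.hom_ext _ (R.h1 X.obj)
    h2 := fun X => ObjectProperty.hom_ext _ (R.h2 X.obj)
    h3 := fun X => ObjectProperty.hom_ext _ (R.h3 X.obj)
    h4 := fun X => ObjectProperty.hom_ext _ (R.h4 X.obj)
    h5 := fun X => ObjectProperty.hom_ext _ (R.h5 X.obj)
    tri := fun X => ObjectProperty.hom_ext _ (R.tri X.obj) }⟩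

theorem p_RAC : S_RAC.{v₁, u₁, v₂, u₂} := by
  intro A₁ _ _ A₂ _ _ F G T _ _ _ R
  exact ⟨{
    i := { app := fun X => { f := fun n => R.i.app (X.X n)
                             comm' := fun m n _ => (R.i.naturality (X.d m n)).symm }
           naturality := fun X Y g => HomologicalComplex.hom_ext _ _ fun n => R.i.naturality (g.f n) }
    r := { app := fun X => { f := fun n => R.r.app (X.X n)
                             comm' := fun m n _ => (R.r.naturality (X.d m n)).symm }
           naturality := fun X Y g => HomologicalComplex.hom_ext _ _ fun n => R.r.naturality (g.f n) }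
    ir := fun X => HomologicalComplex.hom_ext _ _ fun n => R.ir (X.X n)
    η := { app := fun X => { f := fun n => R.η.app (X.X n)
                             comm' := fun m n _ => (R.η.naturality (X.d m n)).symm }
           naturality := fun X Y g => HomologicalComplex.hom_ext _ _ fun n => R.η.naturality (g.f n) }
    ρ := { app := fun X => { f := fun n => R.ρ.app (X.X n)
                             comm' := fun m n _ => (R.ρ.naturality (X.d m n)).symm }
           naturality := fun X Y g => HomologicalComplex.hom_ext _ _ fun n => R.ρ.naturality (g.f n) }
    η' := { app := fun X => { f := fun n => R.η'.app (X.X n)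
                              comm' := fun m n _ => (R.η'.naturality (X.d m n)).symm }
            naturality := fun X Y g => HomologicalComplex.hom_ext _ _ fun n =>
              R.η'.naturality (g.f n) }
    ρ' := { app := fun X => { f := fun n => R.ρ'.app (X.X n)
                              comm' := fun m n _ => (R.ρ'.naturality (X.d m n)).symm }
            naturality := fun X Y g => HomologicalComplex.hom_ext _ _ fun n =>
              R.ρ'.naturality (g.f n) }
    h1 := fun X => HomologicalComplex.hom_ext _ _ fun n => R.h1 (X.X n)
    h2 := fun X => HomologicalComplex.hom_ext _ _ fun n => R.h2 (X.X n)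
    h3 := fun X => HomologicalComplex.hom_ext _ _ fun n => R.h3 (X.X n)
    h4 := fun X => HomologicalComplex.hom_ext _ _ fun n => R.h4 (X.X n)
    h5 := fun X => HomologicalComplex.hom_ext _ _ fun n => R.h5 (X.X n)
    tri := fun X => HomologicalComplex.hom_ext _ _ fun n => R.tri (X.X n) }⟩


end Run7.h354.BE
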