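import Pool.Agent.Run7.h354.BE.P_RAL
import Pool.Agent.Run7.h354.BE.P_RAC

/-!
# `RAD`, `RAQ`
-/

set_option autoImplicit false
set_option linter.unusedSectionVars false
set_option linter.unusedVariables false

open CategoryTheory CategoryTheory.Limits Pretriangulated Triangulated Complex ZeroObject

namespace Run7.h354.BE

universe w w' v u v' u' v₁ u₁ v₂ u₂ v₃ u₃ v₄ u₄

theorem p_RAD : S_RAD.{w, w', v₁, u₁, v₂, u₂} := by
  intro A₁ _ _ _ A₂ _ _ _ F G T _ _ _ _ _ _ _ _ _ R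
  obtain ⟨R'⟩ := p_RAC _ _ F G T R
  exact p_RAL _ _ _ _ DerivedCategory.Q DerivedCategory.Q
    (HomologicalComplex.quasiIso A₁ (.up ℤ)) (HomologicalComplex.quasiIso A₂ (.up ℤ)) _ _ _ _ _ _
    F.mapDerivedCategoryFactors G.mapDerivedCategoryFactors T.mapDerivedCategoryFactors R'

theorem p_RAQ (h : S_RA0) : S_RAQ := by
  intro τ τ'
  obtain ⟨R⟩ := h τ τ'
  exact p_RAL _ _ _ _ (sh τ τ' false) (sh τ τ' true) (tors τ τ' false).isoModSerre
    (tors τ τ' true).isoModSerre _ _ _ _ _ _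
    (Localization.Lifting.iso (sh τ τ' false) (tors τ τ' false).isoModSerre
      (dir τ τ' ⋙ sh τ τ' true) (pf τ τ'))
    (Localization.Lifting.iso (sh τ τ' true) (tors τ τ' true).isoModSerre
      (res τ τ' ⋙ sh τ τ' false) (pb τ τ'))
    (Localization.Lifting.iso (sh τ τ' true) (tors τ τ' true).isoModSerre
      ((DS τ τ').tw (g0 (c0 τ)) ⋙ sh τ τ' true) ((DS τ τ').twQ (g0 (c0 τ)))) R

end Run7.h354.BE
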