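import Pool.Agent.Run7.h354.BE.Stm4

/-!
# `RAL`
-/

set_option autoImplicit false
set_option linter.unusedSectionVars false
set_option linter.unusedVariables false

open CategoryTheory CategoryTheory.Limits Pretriangulated Triangulated Complex ZeroObject

namespace Run7.h354.BE

universe w w' v u v' u' v₁ u₁ v₂ u₂ v₃ u₃ v₄ u₄

section nl

variable {A : Type u₁} [Category.{v₁} A] {B : Type u₂} [Category.{v₂} B] {E : Type u₃}
  [Category.{v₃} E] (L : A ⥤ B) (W : MorphismProperty A) [L.IsLocalization W]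
  {H₁ H₂ H₃ : A ⥤ E} {K₁ K₂ K₃ : B ⥤ E}

/-- The lifting of a natural transformation. -/
noncomputable def nl (e₁ : L ⋙ K₁ ≅ H₁) (e₂ : L ⋙ K₂ ≅ H₂) (β : H₁ ⟶ H₂) : K₁ ⟶ K₂ :=
  letI : Localization.Lifting L W H₁ K₁ := ⟨e₁⟩
  letI : Localization.Lifting L W H₂ K₂ := ⟨e₂⟩
  Localization.liftNatTrans L W H₁ H₂ K₁ K₂ β

theorem nl_app (e₁ : L ⋙ K₁ ≅ H₁) (e₂ : L ⋙ K₂ ≅ H₂) (β : H₁ ⟶ H₂) (X : A) :
    (nl L W e₁ e₂ β).app (L.obj X) = e₁.hom.app X ≫ β.app X ≫ e₂.inv.app X := by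
  let _ : Localization.Lifting L W H₁ K₁ := ⟨e₁⟩
  let _ : Localization.Lifting L W H₂ K₂ := ⟨e₂⟩
  exact Localization.liftNatTrans_app L W H₁ H₂ K₁ K₂ β X

include W in
theorem nat_ext' {n₁ n₂ : K₁ ⟶ K₂} (h : ∀ X, n₁.app (L.obj X) = n₂.app (L.obj X)) (Y : B) :
    n₁.app Y = n₂.app Y := by
  rw [Localization.natTrans_ext L W h]

end nl

theorem p_RAL : S_RAL.{v₁, u₁, v₂, u₂, v₃, u₃, v₄, u₄} := by
  intro A₁ _ A₂ _ _ B₁ _ B₂ _ _ L₁ L₂ _ W₁ W₂ _ _ F G T F' G' T' eF eG eT R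
  have fnat := fun {X Y : A₁} (k : X ⟶ Y) => eF.hom.naturality k
  have finat := fun {X Y : A₁} (k : X ⟶ Y) => eF.inv.naturality k
  have gnat := fun {X Y : A₂} (k : X ⟶ Y) => eG.hom.naturality k
  let eFG : L₁ ⋙ F' ⋙ G' ≅ (F ⋙ G) ⋙ L₁ := NatIso.ofComponents
    (fun X => G'.mapIso (eF.app X) ≪≫ eG.app (F.obj X)) (by
      intro X Y k
      have h1 := fnat k
      have h2 := gnat (F.map k)
      simp only [Functor.comp_map] at h1 h2
      show G'.map (F'.map (L₁.map k)) ≫ G'.map (eF.hom.app Y) ≫ eG.hom.app (F.obj Y) =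
        (G'.map (eF.hom.app X) ≫ eG.hom.app (F.obj X)) ≫ L₁.map (G.map (F.map k))
      rw [← G'.map_comp_assoc, h1, G'.map_comp_assoc, h2, Category.assoc])
  let eGF : L₂ ⋙ G' ⋙ F' ≅ (G ⋙ F) ⋙ L₂ := NatIso.ofComponents
    (fun X => F'.mapIso (eG.app X) ≪≫ eF.app (G.obj X)) (by
      intro X Y k
      have h1 := gnat k
      have h2 := fnat (G.map k)
      simp only [Functor.comp_map] at h1 h2
      show F'.map (G'.map (L₂.map k)) ≫ F'.map (eG.hom.app Y) ≫ eF.hom.app (G.obj Y) =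
        (F'.map (eG.hom.app X) ≫ eF.hom.app (G.obj X)) ≫ L₂.map (F.map (G.map k))
      rw [← F'.map_comp_assoc, h1, F'.map_comp_assoc, h2, Category.assoc])
  let bi : L₁ ⟶ (F ⋙ G) ⋙ L₁ :=
    { app := fun X => L₁.map (R.i.app X)
      naturality := fun X Y k => by
        show L₁.map k ≫ L₁.map (R.i.app Y) = L₁.map (R.i.app X) ≫ L₁.map (G.map (F.map k))
        rw [← L₁.map_comp, ← L₁.map_comp]
        exact congrArg _ (R.i.naturality k) }
  let br : (F ⋙ G) ⋙ L₁ ⟶ L₁ :=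
    { app := fun X => L₁.map (R.r.app X)
      naturality := fun X Y k => by
        show L₁.map (G.map (F.map k)) ≫ L₁.map (R.r.app Y) = L₁.map (R.r.app X) ≫ L₁.map k
        rw [← L₁.map_comp, ← L₁.map_comp]
        exact congrArg _ (R.r.naturality k) }
  let bη : L₂ ⟶ (G ⋙ F) ⋙ L₂ :=
    { app := fun X => L₂.map (R.η.app X)
      naturality := fun X Y k => by
        show L₂.map k ≫ L₂.map (R.η.app Y) = L₂.map (R.η.app X) ≫ L₂.map (F.map (G.map k))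
        rw [← L₂.map_comp, ← L₂.map_comp]
        exact congrArg _ (R.η.naturality k) }
  let bρ : (G ⋙ F) ⋙ L₂ ⟶ L₂ :=
    { app := fun X => L₂.map (R.ρ.app X)
      naturality := fun X Y k => by
        show L₂.map (F.map (G.map k)) ≫ L₂.map (R.ρ.app Y) = L₂.map (R.ρ.app X) ≫ L₂.map k
        rw [← L₂.map_comp, ← L₂.map_comp]
        exact congrArg _ (R.ρ.naturality k) }
  let bη' : T ⋙ L₂ ⟶ (G ⋙ F) ⋙ L₂ :=
    { app := fun X => L₂.map (R.η'.app X)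
      naturality := fun X Y k => by
        show L₂.map (T.map k) ≫ L₂.map (R.η'.app Y) = L₂.map (R.η'.app X) ≫
          L₂.map (F.map (G.map k))
        rw [← L₂.map_comp, ← L₂.map_comp]
        exact congrArg _ (R.η'.naturality k) }
  let bρ' : (G ⋙ F) ⋙ L₂ ⟶ T ⋙ L₂ :=
    { app := fun X => L₂.map (R.ρ'.app X)
      naturality := fun X Y k => by
        show L₂.map (F.map (G.map k)) ≫ L₂.map (R.ρ'.app Y) = L₂.map (R.ρ'.app X) ≫ L₂.map (T.map k)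
        rw [← L₂.map_comp, ← L₂.map_comp]
        exact congrArg _ (R.ρ'.naturality k) }
  let e1 : L₁ ⋙ 𝟭 B₁ ≅ L₁ := Functor.rightUnitor L₁
  let e2 : L₂ ⋙ 𝟭 B₂ ≅ L₂ := Functor.rightUnitor L₂
  let i' : 𝟭 B₁ ⟶ F' ⋙ G' := nl L₁ W₁ e1 eFG bi
  let r' : F' ⋙ G' ⟶ 𝟭 B₁ := nl L₁ W₁ eFG e1 br
  let η : 𝟭 B₂ ⟶ G' ⋙ F' := nl L₂ W₂ e2 eGF bη
  let ρ : G' ⋙ F' ⟶ 𝟭 B₂ := nl L₂ W₂ eGF e2 bρ
  let η' : T' ⟶ G' ⋙ F' := nl L₂ W₂ eT eGF bη'
  let ρ' : G' ⋙ F' ⟶ T' := nl L₂ W₂ eGF eT bρ'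
  have hi : ∀ X, i'.app (L₁.obj X) = L₁.map (R.i.app X) ≫ eFG.inv.app X := fun X =>
    (nl_app L₁ W₁ e1 eFG bi X).trans (Category.id_comp _)
  have hr : ∀ X, r'.app (L₁.obj X) = eFG.hom.app X ≫ L₁.map (R.r.app X) := fun X =>
    (nl_app L₁ W₁ eFG e1 br X).trans (congrArg _ (Category.comp_id _))
  have hη : ∀ X, η.app (L₂.obj X) = L₂.map (R.η.app X) ≫ eGF.inv.app X := fun X =>
    (nl_app L₂ W₂ e2 eGF bη X).trans (Category.id_comp _)
  have hρ : ∀ X, ρ.app (L₂.obj X) = eGF.hom.app X ≫ L₂.map (R.ρ.app X) := fun X =>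
    (nl_app L₂ W₂ eGF e2 bρ X).trans (congrArg _ (Category.comp_id _))
  have hη' : ∀ X, η'.app (L₂.obj X) = eT.hom.app X ≫ L₂.map (R.η'.app X) ≫ eGF.inv.app X :=
    fun X => nl_app L₂ W₂ eT eGF bη' X
  have hρ' : ∀ X, ρ'.app (L₂.obj X) = eGF.hom.app X ≫ L₂.map (R.ρ'.app X) ≫ eT.inv.app X :=
    fun X => nl_app L₂ W₂ eGF eT bρ' X
  refine ⟨{ i := i', r := r', η := η, ρ := ρ, η' := η', ρ' := ρ'
            ir := ?_, h1 := ?_, h2 := ?_, h3 := ?_, h4 := ?_, h5 := ?_, tri := ?_ }⟩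
  · refine nat_ext' L₁ W₁ (n₁ := i' ≫ r') (n₂ := 𝟙 _) fun X => ?_
    show i'.app (L₁.obj X) ≫ r'.app (L₁.obj X) = 𝟙 _
    rw [hi, hr, Category.assoc, Iso.inv_hom_id_app_assoc, ← L₁.map_comp, R.ir]
    exact L₁.map_id X
  · refine nat_ext' L₂ W₂ (n₁ := η ≫ ρ) (n₂ := 𝟙 _) fun X => ?_
    show η.app (L₂.obj X) ≫ ρ.app (L₂.obj X) = 𝟙 _
    rw [hη, hρ, Category.assoc, Iso.inv_hom_id_app_assoc, ← L₂.map_comp, R.h1]
    exact L₂.map_id X
  · refine nat_ext' L₂ W₂ (n₁ := η' ≫ ρ') (n₂ := 𝟙 _) fun X => ?_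
    show η'.app (L₂.obj X) ≫ ρ'.app (L₂.obj X) = 𝟙 _
    rw [hη', hρ', Category.assoc, Category.assoc, Iso.inv_hom_id_app_assoc, ← L₂.map_comp_assoc,
      R.h2, L₂.map_id, Category.id_comp, Iso.hom_inv_id_app]
    rfl
  · refine nat_ext' L₂ W₂ (n₁ := η ≫ ρ') (n₂ := 0) fun X => ?_
    show η.app (L₂.obj X) ≫ ρ'.app (L₂.obj X) = 0
    rw [hη, hρ', Category.assoc, Iso.inv_hom_id_app_assoc, ← L₂.map_comp_assoc, R.h3, L₂.map_zero,
      zero_comp]
  · refine nat_ext' L₂ W₂ (n₁ := η' ≫ ρ) (n₂ := 0) fun X => ?_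
    show η'.app (L₂.obj X) ≫ ρ.app (L₂.obj X) = 0
    rw [hη', hρ, Category.assoc, Category.assoc, Iso.inv_hom_id_app_assoc, ← L₂.map_comp, R.h4,
      L₂.map_zero, comp_zero]
  · refine nat_ext' L₂ W₂ (n₁ := ρ ≫ η + ρ' ≫ η') (n₂ := 𝟙 _) fun X => ?_
    show ρ.app (L₂.obj X) ≫ η.app (L₂.obj X) + ρ'.app (L₂.obj X) ≫ η'.app (L₂.obj X) = 𝟙 _
    have h5 := congrArg L₂.map (R.h5 X)
    rw [L₂.map_add, L₂.map_comp, L₂.map_comp, L₂.map_id] at h5
    rw [hη, hρ, hη', hρ']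
    simp only [Category.assoc, Iso.inv_hom_id_app_assoc]
    rw [← Category.assoc (L₂.map (R.ρ.app X)), ← Category.assoc (L₂.map (R.ρ'.app X)),
      ← Preadditive.comp_add, ← Preadditive.add_comp, h5]
    show eGF.hom.app X ≫ 𝟙 _ ≫ eGF.inv.app X = 𝟙 _
    rw [Category.id_comp, Iso.hom_inv_id_app]
  · let n₁ : F' ⟶ F' := { app := fun X => η.app (F'.obj X) ≫ F'.map (r'.app X)
                          naturality := fun X Y k => by
                            have h1 := η.naturality (F'.map k)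
                            have h2 := r'.naturality k
                            simp only [Functor.comp_map, Functor.id_map] at h1 h2
                            rw [← Category.assoc, h1, Category.assoc, ← F'.map_comp, h2,
                              F'.map_comp, Category.assoc] }
    refine nat_ext' L₁ W₁ (n₁ := n₁) (n₂ := 𝟙 _) fun X => ?_
    show η.app (F'.obj (L₁.obj X)) ≫ F'.map (r'.app (L₁.obj X)) = 𝟙 _
    rw [hr]
    have h1 : η.app (F'.obj (L₁.obj X)) ≫ F'.map (G'.map (eF.hom.app X)) =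
      eF.hom.app X ≫ η.app (L₂.obj (F.obj X)) := (η.naturality (eF.hom.app X)).symm
    have h2 : eFG.hom.app X = G'.map (eF.hom.app X) ≫ eG.hom.app (F.obj X) := rfl
    have h3 : eGF.inv.app (F.obj X) = eF.inv.app (G.obj (F.obj X)) ≫ F'.map (eG.inv.app (F.obj X)) :=
      rfl
    rw [h2, F'.map_comp, F'.map_comp, Category.assoc, ← Category.assoc, h1, hη, h3]
    simp only [Category.assoc]
    rw [← F'.map_comp_assoc, Iso.inv_hom_id_app]
    have h4 := finat (R.r.app X)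
    simp only [Functor.comp_map] at h4
    show eF.hom.app X ≫ L₂.map (R.η.app (F.obj X)) ≫ eF.inv.app (G.obj (F.obj X)) ≫
      F'.map (𝟙 _) ≫ F'.map (L₁.map (R.r.app X)) = 𝟙 _
    have h5 : eF.inv.app (G.obj (F.obj X)) ≫ F'.map (𝟙 (L₁.obj (G.obj (F.obj X)))) ≫
        F'.map (L₁.map (R.r.app X)) = L₂.map (F.map (R.r.app X)) ≫ eF.inv.app X := by
      rw [F'.map_id]
      erw [Category.id_comp]
      exact h4.symm
    erw [h5]
    rw [← L₂.map_comp_assoc, R.tri, L₂.map_id, Category.id_comp]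
    exact Iso.hom_inv_id_app eF X

end Run7.h354.BE
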