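import Pool.Agent.Run7.h354.BE.Base

/-!
# The action on quasi-coherent sheaves
-/

set_option autoImplicit false
set_option linter.unusedSectionVars false
set_option linter.unusedVariables false

open CategoryTheory CategoryTheory.Limits Complex ZeroObject

namespace Run7.h354.BE

/-- Torsion elements. -/
def TE {τ τ' : ℂ} {s : Bool} (M : Ob τ τ' s ⥤ ModuleCat.{0} ℂ) {a : Ob τ τ' s} (x : M.obj a) : Prop :=
  ∀ z w : ℂ, ∃ (γ δ : Gam) (g h : ℂ → ℂ) (hg : g ∈ V τ γ) (hh : h ∈ V τ' δ), g z ≠ 0 ∧ h w ≠ 0 ∧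
    M.map (mulP a hg hh) x = 0

variable {τ₀ τ τ' : ℂ} {s : Bool}

theorem tors_iff {M : GM τ τ' s} : tors τ τ' s M ↔ ∀ (a : Ob τ τ' s) (x : M.obj.obj a), TE M.obj x :=
  Iff.rfl

theorem TE.map {M N : Ob τ τ' s ⥤ ModuleCat.{0} ℂ} (f : M ⟶ N) {a : Ob τ τ' s} {x : M.obj a}
    (h : TE M x) : TE N (f.app a x) := by
  intro z w
  obtain ⟨γ, δ, g, h, hg, hh, h1, h2, h3⟩ := h z w
  exact ⟨γ, δ, g, h, hg, hh, h1, h2, by rw [← nat_apply, h3, map_zero]⟩

theorem TE.of_map {M N : Ob τ τ' s ⥤ ModuleCat.{0} ℂ} (f : M ⟶ N) [Mono f] {a : Ob τ τ' s}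
    {x : M.obj a} (h : TE N (f.app a x)) : TE M x := by
  intro z w
  obtain ⟨γ, δ, g, h, hg, hh, h1, h2, h3⟩ := h z w
  refine ⟨γ, δ, g, h, hg, hh, h1, h2, ?_⟩
  apply (mono_iff f).1 inferInstance _
  rw [nat_apply, h3, map_zero]

/-- A map of graded modules is zero on the sheaves iff its values are torsion. -/
theorem sh_map_eq_zero {M N : GM τ τ' s} (φ : M ⟶ N) :
    (sh τ τ' s).map φ = 0 ↔ ∀ (a : Ob τ τ' s) (x : M.obj.obj a), TE N.obj (φ.hom.app a x) := by
  rw [ObjectProperty.SerreClassLocalization.map_eq_zero_iff (sh τ τ' s) (tors τ τ' s), tors_iff]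
  have e : φ = Abelian.factorThruImage φ ≫ Abelian.image.ι φ := (Abelian.image.fac φ).symm
  have hm : Mono (Abelian.image.ι φ).hom := inferInstanceAs (Mono ((lin τ τ' s).ι.map _))
  have he' : Epi (Abelian.factorThruImage φ) := inferInstance
  have he : Epi (Abelian.factorThruImage φ).hom := by
    have : Epi ((lin τ τ' s).ι.map (Abelian.factorThruImage φ)) := (lin τ τ' s).ι.map_epi _
    exact this
  constructor
  · intro h a x
    rw [e]
    exact (h a ((Abelian.factorThruImage φ).hom.app a x)).map (Abelian.image.ι φ).hom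
  · intro h a y
    obtain ⟨x, rfl⟩ := (epi_iff _).1 he a y
    apply TE.of_map (Abelian.image.ι φ).hom
    have h1 := h a x
    rw [e] at h1
    exact h1

theorem isZero_sh {M : GM τ τ' s} : IsZero ((sh τ τ' s).obj M) ↔ tors τ τ' s M :=
  ObjectProperty.SerreClassLocalization.isZero_obj_iff (sh τ τ' s) (tors τ τ' s) M

namespace Dat

variable (D : Dat τ₀ τ τ' s)

theorem exact_tw (γ : Gam) : PreservesFiniteLimits (D.tw γ) ∧ PreservesFiniteColimits (D.tw γ) := by
  have : (D.tw γ).Additive := ⟨by intro X Y f g; exact ObjectProperty.hom_ext _ rfl⟩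
  refine ((Functor.exact_tfae (D.tw γ)).out 1 3).1 fun S hS => ?_
  rw [gm_exact_iff] at hS ⊢
  exact fun m x hx => hS ((D.t γ).obj m) x hx

instance (γ : Gam) : (D.tw γ).Additive := ⟨by intro X Y f g; exact ObjectProperty.hom_ext _ rfl⟩
instance (γ : Gam) : (D.tw γ).Linear ℂ := ⟨by intro X Y f g; exact ObjectProperty.hom_ext _ rfl⟩
instance (γ : Gam) : PreservesFiniteLimits (D.tw γ) := (D.exact_tw γ).1
instance (γ : Gam) : PreservesFiniteColimits (D.tw γ) := (D.exact_tw γ).2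

/-- Torsion elements of a twist. -/
theorem te_tw (γ : Gam) (M : GM τ τ' s) {a : Ob τ τ' s} (x : M.obj.obj ((D.t γ).obj a)) :
    TE ((D.tw γ).obj M).obj (a := a) x ↔ TE M.obj x := by
  constructor
  · intro h z w
    obtain ⟨γ', δ', g, h, hg, hh, h1, h2, h3⟩ := h z w
    refine ⟨γ', δ', g, h, hg, hh, h1, h2, ?_⟩
    have h3' : M.obj.map ((D.t γ).map (mulP a hg hh)) x = 0 := h3
    have e : mulP ((D.t γ).obj a) hg hh = (D.t γ).map (mulP a hg hh) ≫
        one (a := (D.t γ).obj ⟨a.deg + (γ', δ')⟩)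
      (b := ⟨((D.t γ).obj a).deg + (γ', δ')⟩) (by
        show a.deg + (γ', δ') + D.δ γ = a.deg + D.δ γ + (γ', δ'); abel) := by
      refine Mor.ext rfl ?_
      funext p
      show pr g h p = 1 * pr g h p
      rw [one_mul]
    rw [e, M.obj.map_comp]
    show M.obj.map _ (M.obj.map _ x) = 0
    rw [h3', map_zero]
  · intro h z w
    obtain ⟨γ', δ', g, h, hg, hh, h1, h2, h3⟩ := h z w
    refine ⟨γ', δ', g, h, hg, hh, h1, h2, ?_⟩
    have e : (D.t γ).map (mulP a hg hh) = mulP ((D.t γ).obj a) hg hh ≫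
        one (b := (D.t γ).obj ⟨a.deg + (γ', δ')⟩)
      (a := ⟨((D.t γ).obj a).deg + (γ', δ')⟩) (by
        show a.deg + D.δ γ + (γ', δ') = a.deg + (γ', δ') + D.δ γ; abel) := by
      refine Mor.ext rfl ?_
      funext p
      show pr g h p = 1 * pr g h p
      rw [one_mul]
    show M.obj.map ((D.t γ).map (mulP a hg hh)) x = 0
    rw [e, M.obj.map_comp]
    show M.obj.map _ (M.obj.map _ x) = 0
    rw [h3, map_zero]

theorem tors_tw (γ : Gam) {M : GM τ τ' s} (hM : tors τ τ' s M) : tors τ τ' s ((D.tw γ).obj M) := by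
  rw [tors_iff] at hM ⊢
  intro a x
  exact (D.te_tw γ M x).2 (hM _ x)

theorem inverts_tw (γ : Gam) : (tors τ τ' s).isoModSerre.IsInvertedBy (D.tw γ ⋙ sh τ τ' s) := by
  have : PreservesFiniteLimits (D.tw γ ⋙ sh τ τ' s) := comp_preservesFiniteLimits _ _
  have : PreservesFiniteColimits (D.tw γ ⋙ sh τ τ' s) := comp_preservesFiniteColimits _ _
  rw [ObjectProperty.isoModSerre_isInvertedBy_iff]
  intro M hM
  exact isZero_sh.2 (D.tors_tw γ hM)

/-- The twist of a quasi-coherent sheaf. -/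
noncomputable def twQ (γ : Gam) : QC τ τ' s ⥤ QC τ τ' s :=
  Localization.lift (D.tw γ ⋙ sh τ τ' s) (D.inverts_tw γ) (sh τ τ' s)

noncomputable instance (γ : Gam) : Localization.Lifting (sh τ τ' s) (tors τ τ' s).isoModSerre
    (D.tw γ ⋙ sh τ τ' s) (D.twQ γ) := ⟨Localization.fac _ _ _⟩

instance (γ : Gam) : PreservesFiniteLimits (D.twQ γ) := by
  rw [← ObjectProperty.SerreClassLocalization.preservesFiniteLimits_comp_iff
    (sh τ τ' s) (tors τ τ' s)]
  have : PreservesFiniteLimits (D.tw γ ⋙ sh τ τ' s) := comp_preservesFiniteLimits _ _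
  exact preservesFiniteLimits_of_natIso (Localization.fac (D.tw γ ⋙ sh τ τ' s) (D.inverts_tw γ)
    (sh τ τ' s)).symm

instance (γ : Gam) : PreservesFiniteColimits (D.twQ γ) := by
  rw [← ObjectProperty.SerreClassLocalization.preservesFiniteColimits_comp_iff
    (sh τ τ' s) (tors τ τ' s)]
  have : PreservesFiniteColimits (D.tw γ ⋙ sh τ τ' s) := comp_preservesFiniteColimits _ _
  exact preservesFiniteColimits_of_natIso (Localization.fac (D.tw γ ⋙ sh τ τ' s) (D.inverts_tw γ)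
    (sh τ τ' s)).symm

instance (γ : Gam) : (D.twQ γ).Linear ℂ :=
  (Localization.functor_linear_iff (sh τ τ' s) (tors τ τ' s).isoModSerre ℂ
    (D.tw γ ⋙ sh τ τ' s) (D.twQ γ)).1 inferInstance

instance (γ : Gam) : (D.twQ γ).Additive :=
  (Localization.functor_additive_iff (sh τ τ' s) (tors τ τ' s).isoModSerre (D.twQ γ)).2
    (Functor.additive_of_iso (Localization.fac (D.tw γ ⋙ sh τ τ' s) (D.inverts_tw γ)
    (sh τ τ' s)).symm)

noncomputable instance (a : Gr τ₀) : Localization.Lifting (sh τ τ' s) (tors τ τ' s).isoModSerre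
    (D.base.Φ.obj a ⋙ sh τ τ' s) (D.twQ a.deg) :=
  inferInstanceAs (Localization.Lifting (sh τ τ' s) (tors τ τ' s).isoModSerre
    (D.tw a.deg ⋙ sh τ τ' s) (D.twQ a.deg))

/-- The action on quasi-coherent sheaves. -/
noncomputable def qc : TA τ₀ (QC τ τ' s) :=
  D.base.lift (sh τ τ' s) (tors τ τ' s).isoModSerre (fun a => D.twQ a.deg)

theorem qc_lin {a b : Gr τ₀} (r : ℂ) (f g : a ⟶ b) :
    D.qc.Φ.map (r • f + g) = r • D.qc.Φ.map f + D.qc.Φ.map g := by
  refine Localization.natTrans_ext (sh τ τ' s) (tors τ τ' s).isoModSerre fun M => ?_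
  let L := sh τ τ' s
  let W := (tors τ τ' s).isoModSerre
  let Φ' : Gr τ₀ → (QC τ τ' s ⥤ QC τ τ' s) := fun a => D.twQ a.deg
  have h := fun (k : a ⟶ b) => lm_app D.base L W Φ' k M
  have e : D.base.Φ.map (r • f + g) = r • D.base.Φ.map f + D.base.Φ.map g := D.twm_lin r f g
  show (lm D.base L W Φ' (r • f + g)).app (L.obj M) =
    r • (lm D.base L W Φ' f).app (L.obj M) + (lm D.base L W Φ' g).app (L.obj M)
  rw [← cancel_mono (lc D.base L W Φ' b M).hom, h, Preadditive.add_comp, Linear.smul_comp, h, h, e]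
  show _ ≫ L.map (r • (D.base.Φ.map f).app M + (D.base.Φ.map g).app M) = _
  rw [L.map_add, L.map_smul, Preadditive.comp_add, Linear.comp_smul]

/-- The action on a sheaf is zero iff the action on the module has torsion values. -/
theorem qc_eq_zero {a : Gam} (f : ℂ → ℂ) (hf : f ∈ V τ₀ (a - 0)) (M : GM τ τ' s) :
    (D.qc.Φ.map (gm f hf)).app ((sh τ τ' s).obj M) = 0 ↔
      (sh τ τ' s).map ((D.twm (gm f hf)).app M) = 0 := by
  let L := sh τ τ' s
  let W := (tors τ τ' s).isoModSerre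
  let Φ' : Gr τ₀ → (QC τ τ' s ⥤ QC τ τ' s) := fun a => D.twQ a.deg
  have h := lm_app D.base L W Φ' (gm f hf) M
  constructor
  · intro h0
    have h0' : (lm D.base L W Φ' (gm f hf)).app (L.obj M) = 0 := h0
    rw [h0', zero_comp] at h
    have h1 : L.map ((D.base.Φ.map (gm f hf)).app M) = 0 := by
      rw [← cancel_epi (lc D.base L W Φ' ⟨0⟩ M).hom, comp_zero]
      exact h.symm
    exact h1
  · intro h0
    show (lm D.base L W Φ' (gm f hf)).app (L.obj M) = 0
    rw [← cancel_mono (lc D.base L W Φ' ⟨a⟩ M).hom, zero_comp, h]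
    have h0' : L.map ((D.base.Φ.map (gm f hf)).app M) = 0 := h0
    rw [h0', comp_zero]

end Dat

end Run7.h354.BE
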