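import Pool.Agent.Run7.h354.BE.Defs

/-!
# The bounded derived category and the skyscraper sheaves
-/

set_option autoImplicit false

open CategoryTheory CategoryTheory.Limits Complex ZeroObject

namespace Run7.h354.BE

universe w

variable {τ τ' : ℂ} {s : Bool}

/-- The module `M` is free with one generator, of degree `a`. -/
def Free1 (a : Ob τ τ' s) (M : GM τ τ' s) : Prop :=
  ∃ m : M.obj.obj a, ∀ (N : GM τ τ' s) (n : N.obj.obj a), ∃! f : M ⟶ N, f.hom.app a m = n

/-- The sheaf of a module, as an object of the derived category. -/
noncomputable def sh0 [HasDerivedCategory.{w} (QC τ τ' s)] (M : GM τ τ' s) :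
    DerivedCategory (QC τ τ' s) :=
  (DerivedCategory.singleFunctor _ 0).obj ((sh τ τ' s).obj M)

variable (τ τ' s) in
/-- The bounded derived category of coherent sheaves, of `E × F` (for `s = false`) and of the
bielliptic surface `S` (for `s = true`): the smallest triangulated subcategory of the derived
category of quasi-coherent sheaves which is closed under direct summands and contains the sheaves
of the free modules with one generator. For `s = false` these are the line bundles of `E × F`, for
`s = true` their direct images on `S`. -/
def Db [HasDerivedCategory.{w} (QC τ τ' s)] : ObjectProperty (DerivedCategory (QC τ τ' s)) :=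
  ObjectProperty.triangEnvelope fun X => ∃ (a : Ob τ τ' s) (M : GM τ τ' s), Free1 a M ∧
    Nonempty (X ≅ sh0 M)

/-- The module `M` is the skyscraper at the image of the point `x` in `S`: in each degree it is the
space of functions `v` on the fibre of `E × F → S`, which is `{x, inv true x}`, and `f · inv^e`
acts by `v ↦ (y ↦ f y * v (inv^e y))` (where `k : Bool` stands for the point `inv k x`). -/
def Sky (x : ℂ × ℂ) (M : GM τ τ' true) : Prop :=
  ∃ v : ∀ a : Ob τ τ' true, M.obj.obj a → Bool → ℂ,
    (∀ a, IsLinearMap ℂ (v a) ∧ Function.Bijective (v a)) ∧
    ∀ (a b : Ob τ τ' true) (φ : Mor a b) (m : M.obj.obj a) (k : Bool),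
      v b (M.obj.map φ m) k = φ.f (inv k x) * v a m (xor k φ.e)

end Run7.h354.BE
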