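import Pool.Agent.Run7.h354.BE.Model
import Pool.Agent.Run7.h354.BE.Short

/-!
# Free modules with one generator over the quotient
-/

set_option autoImplicit false
set_option linter.unusedSectionVars false
set_option linter.unusedVariables false

open CategoryTheory CategoryTheory.Limits Pretriangulated Triangulated Complex ZeroObject

namespace Run7.h354.BE

universe w

variable {τ τ' : ℂ}

theorem map_add' {s : Bool} {N : Ob τ τ' s ⥤ ModuleCat.{0} ℂ} (hN : lin τ τ' s N) {a b : Ob τ τ' s}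
    (e : Bool) (he : e = true → s = true) (c : ℂ) {f g k : ℂ × ℂ → ℂ}
    (hf : f ∈ W τ τ' (b.deg - invG τ' e a.deg)) (hg : g ∈ W τ τ' (b.deg - invG τ' e a.deg))
    (hk : k ∈ W τ τ' (b.deg - invG τ' e a.deg)) (h : k = c • f + g) (x : N.obj a) :
    N.map (mk e he k hk) x = c • N.map (mk e he f hf) x + N.map (mk e he g hg) x := by
  subst h
  exact LinearMap.congr_fun (congrArg ModuleCat.Hom.hom (hN a b e he c f g hf hg)) x

theorem map_zero' {s : Bool} {N : Ob τ τ' s ⥤ ModuleCat.{0} ℂ} (hN : lin τ τ' s N) {a b : Ob τ τ' s}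
    (e : Bool) (he : e = true → s = true) (x : N.obj a) :
    N.map (mk e he 0 (Submodule.zero_mem _) : a ⟶ b) x = 0 := by
  have h := map_add' hN (a := a) (b := b) e he (-1) (f := 0) (g := 0) (k := 0)
    (Submodule.zero_mem _) (Submodule.zero_mem _) (Submodule.zero_mem _) (by simp) x
  rw [h]; simp

theorem map_mk' {s : Bool} (N : Ob τ τ' s ⥤ ModuleCat.{0} ℂ) {a b c : Ob τ τ' s}
    {e e' e'' : Bool} {he : e = true → s = true} {he' : e' = true → s = true}
    {he'' : e'' = true → s = true} {f g k : ℂ × ℂ → ℂ}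
    (hf : f ∈ W τ τ' (b.deg - invG τ' e a.deg)) (hg : g ∈ W τ τ' (c.deg - invG τ' e' b.deg))
    (hk : k ∈ W τ τ' (c.deg - invG τ' e'' a.deg)) (h : e'' = xor e' e) (h' : k = g * (f ∘ inv e'))
    (x : N.obj a) :
    N.map (mk e'' he'' k hk) x = N.map (mk e' he' g hg) (N.map (mk e he f hf) x) := by
  have h1 : mk e'' he'' k hk = mk e he f hf ≫ mk e' he' g hg := Mor.ext h h'
  rw [h1, N.map_comp]
  rfl

theorem mem_inv {a b : Gam2} {y : ℂ × ℂ → ℂ} (hy : y ∈ W τ τ' (invG τ' true b - a)) :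
    y ∘ inv true ∈ W τ τ' (b - invG τ' true a) := by
  have h := W_inv hy true
  rwa [invG_sub, invG_invG] at h

/-- The map from the direct image of a line bundle given by an element. -/
noncomputable def dfun (N : Ob τ τ' true ⥤ ModuleCat.{0} ℂ) (a : Gam2) (n : N.obj ⟨a⟩)
    (b : Ob τ τ' true) (xy : W τ τ' (b.deg - a) × W τ τ' (invG τ' true b.deg - a)) : N.obj b :=
  N.map (mk (a := (⟨a⟩ : Ob τ τ' true)) (b := b) false (fun _ => rfl) xy.1.1 xy.1.2) n +
    N.map (mk (a := (⟨a⟩ : Ob τ τ' true)) (b := b) true (fun _ => rfl)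
      (xy.2.1 ∘ inv true) (mem_inv xy.2.2)) n

theorem dfun_nat (N : Ob τ τ' true ⥤ ModuleCat.{0} ℂ) (a : Gam2) (n : N.obj ⟨a⟩)
    (b c : Ob τ τ' true) (e : Bool) (he : e = true → true = true) (g : ℂ × ℂ → ℂ)
    (hg : g ∈ W τ τ' (c.deg - invG τ' e b.deg))
    (xy : W τ τ' (b.deg - a) × W τ τ' (invG τ' true b.deg - a)) :
    dfun N a n c ((dirF (freeF τ τ' a)).map (mk e he g hg) xy) =
      N.map (mk e he g hg) (dfun N a n b xy) := by
  obtain ⟨⟨x, hx⟩, ⟨y, hy⟩⟩ := xy
  have hm : N.map (mk e he g hg) (dfun N a n b (⟨x, hx⟩, ⟨y, hy⟩)) =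
      N.map (mk e he g hg)
        (N.map (mk (a := (⟨a⟩ : Ob τ τ' true)) (b := b) false (fun _ => rfl) x hx) n) +
      N.map (mk e he g hg)
        (N.map (mk (a := (⟨a⟩ : Ob τ τ' true)) (b := b) true (fun _ => rfl)
          (y ∘ inv true) (mem_inv hy)) n) := map_add (N.map (mk e he g hg)).hom _ _
  rw [hm]
  cases e
  · have e1 : dfun N a n c ((dirF (freeF τ τ' a)).map (mk false he g hg) (⟨x, hx⟩, ⟨y, hy⟩)) =
        N.map (mk (a := (⟨a⟩ : Ob τ τ' true)) (b := c) false (fun _ => rfl) (g * x) (by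
          have h := W_mul hg hx
          rwa [invG_false, sub_add_sub_cancel] at h)) n +
        N.map (mk (a := (⟨a⟩ : Ob τ τ' true)) (b := c) true (fun _ => rfl)
          (((g ∘ inv true) * y) ∘ inv true) (by
          have h1 := W_inv hg true
          rw [invG_sub, invG_false] at h1
          have h := W_mul h1 hy
          rw [sub_add_sub_cancel] at h
          exact mem_inv h)) n := rfl
    refine e1.trans ?_
    refine congrArg₂ (· + ·) ?_ ?_
    · exact map_mk' N (e := false) (e' := false) (e'' := false) (f := x) (g := g) (k := g * x)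
        hx hg _ rfl rfl n
    · refine map_mk' N (e := true) (e' := false) (e'' := true) (f := y ∘ inv true) (g := g)
        (k := ((g ∘ inv true) * y) ∘ inv true) (mem_inv hy) hg _ rfl (funext fun p => ?_) n
      show g (inv true (inv true p)) * y (inv true p) = g p * y (inv true p)
      rw [W_inv_inv hg]; rfl
  · have e1 : dfun N a n c ((dirF (freeF τ τ' a)).map (mk true he g hg) (⟨x, hx⟩, ⟨y, hy⟩)) =
        N.map (mk (a := (⟨a⟩ : Ob τ τ' true)) (b := c) false (fun _ => rfl) (g * y) (by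
          have h := W_mul hg hy
          rwa [sub_add_sub_cancel] at h)) n +
        N.map (mk (a := (⟨a⟩ : Ob τ τ' true)) (b := c) true (fun _ => rfl)
          (((g ∘ inv true) * x) ∘ inv true) (by
          have h1 := W_inv hg true
          rw [invG_sub, invG_invG] at h1
          have h := W_mul h1 hx
          change _ ∈ W τ τ' (invG τ' true c.deg - b.deg + (b.deg - a)) at h
          rw [sub_add_sub_cancel] at h
          exact mem_inv h)) n := rfl
    refine e1.trans ((add_comm _ _).trans ?_)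
    refine congrArg₂ (· + ·) ?_ ?_
    · refine map_mk' N (e := false) (e' := true) (e'' := true) (f := x) (g := g)
        (k := ((g ∘ inv true) * x) ∘ inv true) hx hg _ rfl (funext fun p => ?_) n
      show g (inv true (inv true p)) * x (inv true p) = g p * x (inv true p)
      rw [W_inv_inv hg]; rfl
    · refine map_mk' N (e := true) (e' := true) (e'' := false) (f := y ∘ inv true) (g := g)
        (k := g * y) (mem_inv hy) hg _ rfl (funext fun p => ?_) n
      show g p * y p = g p * y (inv true (inv true p))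
      rw [W_inv_inv hy]; rfl

theorem dfun_add {N : Ob τ τ' true ⥤ ModuleCat.{0} ℂ} (hN : lin τ τ' true N) (a : Gam2)
    (n : N.obj ⟨a⟩) (b : Ob τ τ' true)
    (x y : W τ τ' (b.deg - a) × W τ τ' (invG τ' true b.deg - a)) :
    dfun N a n b (x + y) = dfun N a n b x + dfun N a n b y := by
  have h1 := map_add' hN (a := (⟨a⟩ : Ob τ τ' true)) (b := b) false (fun _ => rfl) 1
    (f := x.1.1) (g := y.1.1) (k := (x + y).1.1) x.1.2 y.1.2 (x + y).1.2
    (by rw [one_smul]; rfl) n
  have h2 := map_add' hN (a := (⟨a⟩ : Ob τ τ' true)) (b := b) true (fun _ => rfl) 1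
    (f := x.2.1 ∘ inv true) (g := y.2.1 ∘ inv true) (k := (x + y).2.1 ∘ inv true)
    (mem_inv x.2.2) (mem_inv y.2.2) (mem_inv (x + y).2.2) (by rw [one_smul]; rfl) n
  unfold dfun
  rw [h1, h2, one_smul, one_smul]
  abel

theorem dfun_smul {N : Ob τ τ' true ⥤ ModuleCat.{0} ℂ} (hN : lin τ τ' true N) (a : Gam2)
    (n : N.obj ⟨a⟩) (b : Ob τ τ' true) (c : ℂ)
    (x : W τ τ' (b.deg - a) × W τ τ' (invG τ' true b.deg - a)) :
    dfun N a n b (c • x) = c • dfun N a n b x := by
  have h1 := map_add' hN (a := (⟨a⟩ : Ob τ τ' true)) (b := b) false (fun _ => rfl) c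
    (f := x.1.1) (g := 0) (k := (c • x).1.1) x.1.2 (Submodule.zero_mem _) (c • x).1.2
    (by rw [add_zero]; rfl) n
  have h2 := map_add' hN (a := (⟨a⟩ : Ob τ τ' true)) (b := b) true (fun _ => rfl) c
    (f := x.2.1 ∘ inv true) (g := 0) (k := (c • x).2.1 ∘ inv true)
    (mem_inv x.2.2) (Submodule.zero_mem _) (mem_inv (c • x).2.2) (by rw [add_zero]; rfl) n
  unfold dfun
  rw [h1, h2, map_zero' hN, map_zero' hN, add_zero, add_zero]
  exact (smul_add c _ _).symm

/-- The map from the direct image of a line bundle given by an element. -/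
noncomputable def dmap (N : GM τ τ' true) (a : Gam2) (n : N.obj.obj ⟨a⟩) :
    (dir τ τ').obj (free τ τ' a) ⟶ N := (lin τ τ' true).homMk
  { app := fun b => ModuleCat.ofHom
      { toFun := dfun N.obj a n b
        map_add' := dfun_add N.property a n b
        map_smul' := dfun_smul N.property a n b }
    naturality := fun b c φ => by
      obtain ⟨e, he, g, hg⟩ := φ
      exact ModuleCat.hom_ext (LinearMap.ext fun xy => dfun_nat N.obj a n b c e he g hg xy) }

theorem dfun_one {N : Ob τ τ' true ⥤ ModuleCat.{0} ℂ} (hN : lin τ τ' true N) (a : Gam2)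
    (n : N.obj ⟨a⟩) (h1 : (1 : ℂ × ℂ → ℂ) ∈ W τ τ' (a - a)) :
    dfun N a n ⟨a⟩ (⟨1, h1⟩, 0) = n := by
  have e1 : (mk (a := (⟨a⟩ : Ob τ τ' true)) (b := ⟨a⟩) false (fun _ => rfl) 1 h1) = 𝟙 _ :=
    Mor.ext rfl rfl
  have e2 := map_zero' hN (a := (⟨a⟩ : Ob τ τ' true)) (b := ⟨a⟩) true (fun _ => rfl) n
  refine (congrArg₂ (· + ·) ?_ e2).trans (add_zero n)
  show N.map (mk (a := (⟨a⟩ : Ob τ τ' true)) (b := ⟨a⟩) false (fun _ => rfl) 1 h1) n = n
  rw [e1, N.map_id]
  rfl

theorem free1_dir (a : Gam2) : Free1 (⟨a⟩ : Ob τ τ' true) ((dir τ τ').obj (free τ τ' a)) := by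
  have h1 : (1 : ℂ × ℂ → ℂ) ∈ W τ τ' (a - a) := by rw [sub_self]; exact W_one
  let m : W τ τ' (a - a) × W τ τ' (invG τ' true a - a) := (⟨1, h1⟩, 0)
  refine ⟨m, fun N n => ⟨dmap N a n, dfun_one N.property a n h1, fun f hf => ?_⟩⟩
  refine ObjectProperty.hom_ext _ ?_
  refine NatTrans.ext (funext fun b => ModuleCat.hom_ext (LinearMap.ext fun xy => ?_))
  obtain ⟨⟨x, hx⟩, ⟨y, hy⟩⟩ := (xy : W τ τ' (b.deg - a) × W τ τ' (invG τ' true b.deg - a))
  have e1 := nat_apply f.hom (mk (a := (⟨a⟩ : Ob τ τ' true)) (b := b) false (fun _ => rfl) x hx) m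
  have e2 := nat_apply f.hom (mk (a := (⟨a⟩ : Ob τ τ' true)) (b := b) true (fun _ => rfl)
    (y ∘ inv true) (mem_inv hy)) m
  rw [hf] at e1 e2
  have e3 : ((dir τ τ').obj (free τ τ' a)).obj.map
      (mk (a := (⟨a⟩ : Ob τ τ' true)) (b := b) false (fun _ => rfl) x hx) m =
      ((⟨x, hx⟩, 0) : W τ τ' (b.deg - a) × W τ τ' (invG τ' true b.deg - a)) :=
    Prod.ext (Subtype.ext (mul_one x)) (Subtype.ext (mul_zero _))
  have e4 : ((dir τ τ').obj (free τ τ' a)).obj.map
      (mk (a := (⟨a⟩ : Ob τ τ' true)) (b := b) true (fun _ => rfl) (y ∘ inv true) (mem_inv hy)) m =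
      ((0, ⟨y, hy⟩) : W τ τ' (b.deg - a) × W τ τ' (invG τ' true b.deg - a)) :=
    Prod.ext (Subtype.ext (mul_zero _)) (Subtype.ext (funext fun p => by
      show y (inv true (inv true p)) * 1 = y p
      rw [W_inv_inv hy, mul_one]; rfl))
  rw [e3] at e1
  rw [e4] at e2
  refine Eq.trans ?_ (congrArg₂ (· + ·) e1 e2)
  refine Eq.trans ?_ (map_add (f.hom.app b).hom _ _)
  refine congrArg (f.hom.app b).hom ?_
  exact Prod.ext (add_zero _).symm (zero_add _).symm

/-- the generators of the derived category of `S` -/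
def GenS (τ τ' : ℂ) [HasDerivedCategory.{w} (QC τ τ' true)] :
    ObjectProperty (DerivedCategory (QC τ τ' true)) :=
  fun X => ∃ (a : Ob τ τ' true) (M : GM τ τ' true), Free1 a M ∧ Nonempty (X ≅ sh0 M)

instance [HasDerivedCategory.{w} (QC τ τ' true)] : (GenS τ τ').Nonempty :=
  ⟨⟨_, ⟨⟨(0 : Gam2)⟩, _, free1_dir (0 : Gam2), ⟨Iso.refl _⟩⟩⟩⟩

theorem db_triang [HasDerivedCategory.{w} (QC τ τ' true)] : (Db τ τ' true).IsTriangulated :=
  inferInstanceAs (GenS τ τ').triangEnvelope.IsTriangulated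

instance [HasDerivedCategory.{w} (QC τ τ' true)] : (Db τ τ' true).IsTriangulated := db_triang

end Run7.h354.BE
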