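import Pool.Agent.Run7.h354.BE.Final
import Pool.Agent.Run7.h354.BE.ShortA

/-!
# The theorem in terms of the short definitions
-/

set_option autoImplicit false
set_option linter.unusedSectionVars false
set_option linter.unusedVariables false

open CategoryTheory CategoryTheory.Limits Pretriangulated Triangulated Complex ZeroObject
open Pool.Agent.Helper445_GMF

namespace Run7.h354.BE

universe w w'

variable {τ τ' : ℂ}

theorem free1_iso {s : Bool} {a : Ob τ τ' s} {M M' : GM τ τ' s} (h : Free1 a M) (h' : Free1 a M') :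
    Nonempty (M ≅ M') := by
  obtain ⟨m, hm⟩ := h
  obtain ⟨m', hm'⟩ := h'
  obtain ⟨f, hf, -⟩ := hm M' m'
  obtain ⟨g, hg, -⟩ := hm' M m
  refine ⟨⟨f, g, ?_, ?_⟩⟩
  · refine (hm M m).unique ?_ rfl
    show g.hom.app a (f.hom.app a m) = m
    have hf' : f.hom.app a m = m' := hf
    rw [hf']; exact hg
  · refine (hm' M' m').unique ?_ rfl
    show f.hom.app a (g.hom.app a m') = m'
    have hg' : g.hom.app a m' = m := hg
    rw [hg']; exact hf

/-- the direct image of a line bundle as a complex -/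
noncomputable def pflb [HasDerivedCategory.{w} (QC τ τ' false)]
    [HasDerivedCategory.{w'} (QC τ τ' true)] (a : Gam2) :
    (pf τ τ').mapDerivedCategory.obj (lb τ τ' a) ≅ sh0 ((dir τ τ').obj (free τ τ' a)) :=
  ((pf τ τ').mapDerivedCategorySingleFunctor 0).app _ ≪≫
    (DerivedCategory.singleFunctor _ 0).mapIso
      ((Localization.fac (dir τ τ' ⋙ sh τ τ' true) inverts_dir (sh τ τ' false)).app (free τ τ' a))

theorem dbs_eq [HasDerivedCategory.{w} (QC τ τ' false)] [HasDerivedCategory.{w'} (QC τ τ' true)] :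
    Db τ τ' true = DbS τ τ' := by
  have hr : (DbS τ τ').IsStableUnderRetracts :=
    Run7.h928.BE.retr_inv (pb τ τ').mapDerivedCategory (DbX τ τ')
  refine le_antisymm ?_ ?_
  · refine (ObjectProperty.triangEnvelope_le_iff (P := GenS τ τ')).2 ?_
    rintro X ⟨⟨a⟩, M, hM, ⟨e⟩⟩
    obtain ⟨e'⟩ := free1_iso hM (free1_dir a)
    have h1 : DbS τ τ' ((pf τ τ').mapDerivedCategory.obj (lb τ τ' a)) :=
      Run7.h928.BE.pfd τ τ' _ (ObjectProperty.le_triangEnvelope _ _ ⟨a⟩)
    exact (DbS τ τ').prop_of_iso ((pflb a) ≪≫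
      (DerivedCategory.singleFunctor _ 0).mapIso ((sh τ τ' true).mapIso e'.symm) ≪≫ e.symm) h1
  · intro X hX
    have hr' : (GenS τ τ').triangEnvelope.IsStableUnderRetracts := inferInstance
    have hr2 := Run7.h928.BE.retr_inv (pf τ τ').mapDerivedCategory (GenS τ τ').triangEnvelope
    have h2 := Run7.h928.BE.DbX_le τ τ'
      ((GenS τ τ').triangEnvelope.inverseImage (pf τ τ').mapDerivedCategory) fun a =>
        ObjectProperty.le_triangEnvelope _ _ ⟨⟨a⟩, _, free1_dir a, ⟨pflb a⟩⟩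
    have h3 := h2 _ hX
    obtain ⟨R⟩ := p_RAQ p_RA0 τ τ'
    obtain ⟨R'⟩ := p_RAD (QC τ τ' false) (QC τ τ' true) (pf τ τ') (pb τ τ')
      ((DS τ τ').twQ (g0 (c0 τ))) R
    exact (GenS τ τ').triangEnvelope.prop_of_retract ⟨R'.η.app X, R'.ρ.app X, R'.h1 X⟩ h3

/-- The coordinates on the skyscraper. -/
def skyE (v : ℂ × ℂ) (k : Bool) : ℂ := if k then v.2 else v.1

theorem skyE_lin : IsLinearMap ℂ skyE where
  map_add v w := by funext k; cases k <;> rfl
  map_smul c v := by funext k; cases k <;> rfl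

theorem skyE_bij : Function.Bijective skyE :=
  ⟨fun v w h => Prod.ext (congrFun h false) (congrFun h true),
    fun v => ⟨(v false, v true), by funext k; cases k <;> rfl⟩⟩

theorem sky_ptS (x : ℂ × ℂ) : Sky x (ptS τ τ' x) := by
  refine ⟨fun a => skyE, fun a => ⟨skyE_lin, skyE_bij⟩, fun a b φ m k => ?_⟩
  obtain ⟨e, he, f, hf⟩ := φ
  cases e <;> cases k <;> rfl

theorem sky_iso {x : ℂ × ℂ} {M M' : GM τ τ' true} (h : Sky x M) (h' : Sky x M') :
    Nonempty (M ≅ M') := by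
  have key0 : ∀ {N : GM τ τ' true}, Sky x N →
      ∃ u : ∀ a : Ob τ τ' true, N.obj.obj a ≃ₗ[ℂ] (Bool → ℂ),
      ∀ (a b : Ob τ τ' true) (φ : Mor a b) (m : N.obj.obj a) (k : Bool),
        u b (N.obj.map φ m) k = φ.f (inv k x) * u a m (xor k φ.e) := by
    rintro N ⟨v, h1, h2⟩
    exact ⟨fun a => LinearEquiv.ofBijective ((h1 a).1.mk' (v a)) (h1 a).2, h2⟩
  obtain ⟨v, hv⟩ := key0 h
  obtain ⟨v', hv'⟩ := key0 h'
  have key : ∀ {N N' : GM τ τ' true} (u : ∀ a : Ob τ τ' true, N.obj.obj a ≃ₗ[ℂ] (Bool → ℂ))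
      (u' : ∀ a : Ob τ τ' true, N'.obj.obj a ≃ₗ[ℂ] (Bool → ℂ)),
      (∀ (a b : Ob τ τ' true) (φ : Mor a b) (m : N.obj.obj a) (k : Bool),
        u b (N.obj.map φ m) k = φ.f (inv k x) * u a m (xor k φ.e)) →
      (∀ (a b : Ob τ τ' true) (φ : Mor a b) (m : N'.obj.obj a) (k : Bool),
        u' b (N'.obj.map φ m) k = φ.f (inv k x) * u' a m (xor k φ.e)) →
      ∃ f : N ⟶ N', ∀ a m, f.hom.app a m = (u' a).symm (u a m) := by
    intro N N' u u' hu hu'
    refine ⟨(lin τ τ' true).homMk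
      { app := fun a => ModuleCat.ofHom ((u a).trans (u' a).symm).toLinearMap
        naturality := fun a b φ => ?_ }, fun a m => rfl⟩
    refine ModuleCat.hom_ext (LinearMap.ext fun m => ?_)
    show (u' b).symm (u b (N.obj.map φ m)) = N'.obj.map φ ((u' a).symm (u a m))
    apply (u' b).injective
    rw [LinearEquiv.apply_symm_apply]
    funext k
    rw [hu, hu', LinearEquiv.apply_symm_apply]
  obtain ⟨f, hf⟩ := key v v' hv hv'
  obtain ⟨g, hg⟩ := key v' v hv' hv
  refine ⟨⟨f, g, ?_, ?_⟩⟩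
  · refine ObjectProperty.hom_ext _ (NatTrans.ext (funext fun a =>
      ModuleCat.hom_ext (LinearMap.ext fun m => ?_)))
    show g.hom.app a (f.hom.app a m) = m
    rw [hf, hg, LinearEquiv.apply_symm_apply, LinearEquiv.symm_apply_apply]
  · refine ObjectProperty.hom_ext _ (NatTrans.ext (funext fun a =>
      ModuleCat.hom_ext (LinearMap.ext fun m => ?_)))
    show f.hom.app a (g.hom.app a m) = m
    rw [hf, hg, LinearEquiv.apply_symm_apply, LinearEquiv.symm_apply_apply]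

theorem stable_of_iso {C : Type*} [Category C] [Preadditive C] [HasZeroObject C] [HasShift C ℤ]
    [∀ n : ℤ, (shiftFunctor C n).Additive] [Pretriangulated C] (σ : PreStab C) {φ : ℝ} {X Y : C}
    (e : X ≅ Y) (h : σ.Stable φ X) : σ.Stable φ Y :=
  ⟨σ.iso e h.1, fun h0 => h.2.1 (h0.of_iso e),
    fun A B f g k hT hA hB => h.2.2 A B _ _ k (dist_mid hT e.symm) hA hB⟩

/-- The theorem for a triangulated subcategory equal to `DbS`. -/
theorem geometric_of_eq [HasDerivedCategory.{w} (QC τ τ' true)]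
    (hτ : 0 < τ.im) (hτ' : 0 < τ'.im) (P : ObjectProperty (DerivedCategory (QC τ τ' true)))
    [P.IsTriangulated]
    (hP : ∀ [HasDerivedCategory.{1} (QC τ τ' false)], P = DbS τ τ')
    (σ : PreStab P.FullSubcategory) (hσ : Support σ) :
    ∃ φ : ℝ, ∀ (x : ℂ × ℂ) (M : GM τ τ' true), Sky x M →
      ∃ h : P (sh0 M), σ.Stable φ (⟨sh0 M, h⟩ : P.FullSubcategory) := by
  let _ : HasDerivedCategory.{1} (QC τ τ' false) := HasDerivedCategory.standard _
  obtain rfl := hP
  obtain ⟨hS, H⟩ := all_geometric (τ := τ) (τ' := τ') hτ hτ'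
  obtain ⟨φ, hφ⟩ := H σ hσ
  refine ⟨φ, fun x M hM => ?_⟩
  obtain ⟨e⟩ := sky_iso hM (sky_ptS x)
  have e' : sh0 M ≅ skyS τ τ' x :=
    (DerivedCategory.singleFunctor _ 0).mapIso ((sh τ τ' true).mapIso e)
  have h : DbS τ τ' (sh0 M) := (DbS τ τ').prop_of_iso e'.symm (hS x)
  refine ⟨h, ?_⟩
  have e2 : (⟨skyS τ τ' x, hS x⟩ : (DbS τ τ').FullSubcategory) ≅ ⟨sh0 M, h⟩ :=
    (DbS τ τ').isoMk e'.symm
  exact stable_of_iso σ e2 (hφ x)

/-- Every stability condition on the bielliptic surface `(E × F) / (ℤ/2)` is geometric. -/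
theorem geometric_short [HasDerivedCategory.{w} (QC τ τ' true)]
    (hτ : 0 < τ.im) (hτ' : 0 < τ'.im)
    (σ : PreStab (Db τ τ' true).FullSubcategory) (hσ : Support σ) :
    ∃ φ : ℝ, ∀ (x : ℂ × ℂ) (M : GM τ τ' true), Sky x M →
      ∃ h : Db τ τ' true (sh0 M), σ.Stable φ (⟨sh0 M, h⟩ : (Db τ τ' true).FullSubcategory) :=
  geometric_of_eq hτ hτ' _ dbs_eq σ hσ

end Run7.h354.BE
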