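import Pool.Agent.Run7.h354.BE.Abs

/-!
# Actions of the theta functions on categories, and their localizations
-/

set_option autoImplicit false
set_option linter.unusedSectionVars false
set_option linter.unusedVariables false

open CategoryTheory CategoryTheory.Limits Complex ZeroObject

namespace Run7.h354.BE

universe v u v' u' w

/-- An action of the category of gradings. -/
structure TA (τ : ℂ) (A : Type u) [Category.{v} A] where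
  /-- the twists and the action of the theta functions -/
  Φ : Gr τ ⥤ (A ⥤ A)
  /-- the composition of twists -/
  comp : ∀ a b : Gam, Φ.obj ⟨a⟩ ⋙ Φ.obj ⟨b⟩ ≅ Φ.obj ⟨a + b⟩
  comp_nat : ∀ (a b b' : Gam) (f : ℂ → ℂ) (hf : f ∈ V τ (b' - b))
    (hf' : f ∈ V τ (a + b' - (a + b))) (G : A),
    (Φ.map (gm f hf)).app ((Φ.obj ⟨a⟩).obj G) ≫ (comp a b').hom.app G =
      (comp a b).hom.app G ≫ (Φ.map (gm f hf')).app G
  comp_nat1 : ∀ (a a' b : Gam) (f : ℂ → ℂ) (hf : f ∈ V τ (a' - a))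
    (hf' : f ∈ V τ (a' + b - (a + b))) (G : A),
    (Φ.obj ⟨b⟩).map ((Φ.map (gm f hf)).app G) ≫ (comp a' b).hom.app G =
      (comp a b).hom.app G ≫ (Φ.map (gm f hf')).app G
  zero : Φ.obj ⟨0⟩ ≅ 𝟭 A

section lift

variable {τ : ℂ} {A : Type u} [Category.{v} A] (T : TA τ A) {A' : Type u'} [Category.{v'} A']
  (L : A ⥤ A') (W : MorphismProperty A) [L.IsLocalization W] (Φ' : Gr τ → (A' ⥤ A'))
  [h : ∀ a, Localization.Lifting L W (T.Φ.obj a ⋙ L) (Φ' a)]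

/-- The lifted natural transformations. -/
noncomputable def lm {a b : Gr τ} (f : a ⟶ b) : Φ' a ⟶ Φ' b :=
  Localization.liftNatTrans L W (T.Φ.obj a ⋙ L) (T.Φ.obj b ⋙ L) (Φ' a) (Φ' b)
    (Functor.whiskerRight (T.Φ.map f) L)

theorem lm_id (a : Gr τ) : lm T L W Φ' (𝟙 a) = 𝟙 (Φ' a) := by
  unfold lm
  rw [T.Φ.map_id, Functor.whiskerRight_id']
  exact Localization.liftNatTrans_id L W (T.Φ.obj a ⋙ L) (Φ' a)

theorem lm_comp {a b c : Gr τ} (f : a ⟶ b) (g : b ⟶ c) :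
    lm T L W Φ' (f ≫ g) = lm T L W Φ' f ≫ lm T L W Φ' g := by
  unfold lm
  rw [T.Φ.map_comp, Functor.whiskerRight_comp, Localization.comp_liftNatTrans]

/-- The comparison isomorphism. -/
def lc (a : Gr τ) (X : A) : (Φ' a).obj (L.obj X) ≅ L.obj ((T.Φ.obj a).obj X) :=
  (Localization.Lifting.iso L W (T.Φ.obj a ⋙ L) (Φ' a)).app X

theorem lc_nat (a : Gr τ) {X Y : A} (f : X ⟶ Y) :
    (Φ' a).map (L.map f) ≫ (lc T L W Φ' a Y).hom =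
      (lc T L W Φ' a X).hom ≫ L.map ((T.Φ.obj a).map f) :=
  (Localization.Lifting.iso L W (T.Φ.obj a ⋙ L) (Φ' a)).hom.naturality f

theorem lm_app {a b : Gr τ} (f : a ⟶ b) (X : A) :
    (lm T L W Φ' f).app (L.obj X) ≫ (lc T L W Φ' b X).hom =
      (lc T L W Φ' a X).hom ≫ L.map ((T.Φ.map f).app X) := by
  have e : (lm T L W Φ' f).app (L.obj X) = (lc T L W Φ' a X).hom ≫
      L.map ((T.Φ.map f).app X) ≫ (lc T L W Φ' b X).inv :=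
    Localization.liftNatTrans_app L W _ _ _ _ _ _
  rw [e, Category.assoc, Category.assoc, Iso.inv_hom_id, Category.comp_id]

/-- The lifting of a composite. -/
@[instance_reducible] def lcc (a b : Gr τ) :
    Localization.Lifting L W ((T.Φ.obj a ⋙ T.Φ.obj b) ⋙ L) (Φ' a ⋙ Φ' b) :=
  ⟨NatIso.ofComponents (fun X => (Φ' b).mapIso (lc T L W Φ' a X) ≪≫
      lc T L W Φ' b ((T.Φ.obj a).obj X)) (by
    intro X Y f
    show (Φ' b).map ((Φ' a).map (L.map f)) ≫ (Φ' b).map (lc T L W Φ' a Y).hom ≫ _ =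
      ((Φ' b).map (lc T L W Φ' a X).hom ≫ _) ≫ L.map ((T.Φ.obj b).map ((T.Φ.obj a).map f))
    rw [← Functor.map_comp_assoc, lc_nat, Functor.map_comp_assoc, lc_nat, Category.assoc])⟩

/-- The lifted composition isomorphism. -/
noncomputable def lcomp (a b : Gam) : Φ' ⟨a⟩ ⋙ Φ' ⟨b⟩ ≅ Φ' ⟨a + b⟩ :=
  letI := lcc T L W Φ' ⟨a⟩ ⟨b⟩
  Localization.liftNatIso L W ((T.Φ.obj ⟨a⟩ ⋙ T.Φ.obj ⟨b⟩) ⋙ L) (T.Φ.obj ⟨a + b⟩ ⋙ L) _ _
    (Functor.isoWhiskerRight (T.comp a b) L)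

theorem lcomp_app (a b : Gam) (X : A) : (lcomp T L W Φ' a b).hom.app (L.obj X) =
    (Φ' ⟨b⟩).map (lc T L W Φ' ⟨a⟩ X).hom ≫ (lc T L W Φ' ⟨b⟩ ((T.Φ.obj ⟨a⟩).obj X)).hom ≫
      L.map ((T.comp a b).hom.app X) ≫ (lc T L W Φ' ⟨a + b⟩ X).inv := by
  let _ := lcc T L W Φ' ⟨a⟩ ⟨b⟩
  have e := Localization.liftNatTrans_app L W ((T.Φ.obj ⟨a⟩ ⋙ T.Φ.obj ⟨b⟩) ⋙ L)
    (T.Φ.obj ⟨a + b⟩ ⋙ L) (Φ' ⟨a⟩ ⋙ Φ' ⟨b⟩) (Φ' ⟨a + b⟩)
    (Functor.whiskerRight (T.comp a b).hom L) X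
  refine e.trans ?_
  show ((Φ' ⟨b⟩).map (lc T L W Φ' ⟨a⟩ X).hom ≫ (lc T L W Φ' ⟨b⟩ ((T.Φ.obj ⟨a⟩).obj X)).hom) ≫
    L.map ((T.comp a b).hom.app X) ≫ (lc T L W Φ' ⟨a + b⟩ X).inv = _
  rw [Category.assoc]

theorem lcomp_nat (a b b' : Gam) (f : ℂ → ℂ) (hf : f ∈ V τ (b' - b))
    (hf' : f ∈ V τ (a + b' - (a + b))) (G : A') :
    (lm T L W Φ' (gm f hf)).app ((Φ' ⟨a⟩).obj G) ≫ (lcomp T L W Φ' a b').hom.app G =
      (lcomp T L W Φ' a b).hom.app G ≫ (lm T L W Φ' (gm f hf')).app G := by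
  let n₁ : (Φ' ⟨a⟩ ⋙ Φ' ⟨b⟩) ⟶ Φ' ⟨a + b'⟩ :=
    Functor.whiskerLeft (Φ' ⟨a⟩) (lm T L W Φ' (gm f hf)) ≫ (lcomp T L W Φ' a b').hom
  let n₂ : (Φ' ⟨a⟩ ⋙ Φ' ⟨b⟩) ⟶ Φ' ⟨a + b'⟩ :=
    (lcomp T L W Φ' a b).hom ≫ lm T L W Φ' (gm f hf')
  have key : n₁ = n₂ := by
    refine Localization.natTrans_ext L W fun X => ?_
    show (lm T L W Φ' (gm f hf)).app ((Φ' ⟨a⟩).obj (L.obj X)) ≫
      (lcomp T L W Φ' a b').hom.app (L.obj X) = (lcomp T L W Φ' a b).hom.app (L.obj X) ≫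
      (lm T L W Φ' (gm f hf')).app (L.obj X)
    rw [← cancel_mono (lc T L W Φ' ⟨a + b'⟩ X).hom, Category.assoc, Category.assoc, lm_app,
      lcomp_app, lcomp_app]
    simp only [Category.assoc, Iso.inv_hom_id, Category.comp_id, Iso.inv_hom_id_assoc]
    rw [← (lm T L W Φ' (gm f hf)).naturality_assoc,
      reassoc_of% (lm_app T L W Φ' (gm f hf) ((T.Φ.obj ⟨a⟩).obj X)),
      ← L.map_comp, ← L.map_comp, T.comp_nat a b b' f hf hf' X]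
  exact congrArg (fun n => n.app G) key

theorem lcomp_nat1 (a a' b : Gam) (f : ℂ → ℂ) (hf : f ∈ V τ (a' - a))
    (hf' : f ∈ V τ (a' + b - (a + b))) (G : A') :
    (Φ' ⟨b⟩).map ((lm T L W Φ' (gm f hf)).app G) ≫ (lcomp T L W Φ' a' b).hom.app G =
      (lcomp T L W Φ' a b).hom.app G ≫ (lm T L W Φ' (gm f hf')).app G := by
  let n₁ : (Φ' ⟨a⟩ ⋙ Φ' ⟨b⟩) ⟶ Φ' ⟨a' + b⟩ :=
    Functor.whiskerRight (lm T L W Φ' (gm f hf)) (Φ' ⟨b⟩) ≫ (lcomp T L W Φ' a' b).hom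
  let n₂ : (Φ' ⟨a⟩ ⋙ Φ' ⟨b⟩) ⟶ Φ' ⟨a' + b⟩ :=
    (lcomp T L W Φ' a b).hom ≫ lm T L W Φ' (gm f hf')
  have key : n₁ = n₂ := by
    refine Localization.natTrans_ext L W fun X => ?_
    show (Φ' ⟨b⟩).map ((lm T L W Φ' (gm f hf)).app (L.obj X)) ≫
      (lcomp T L W Φ' a' b).hom.app (L.obj X) = (lcomp T L W Φ' a b).hom.app (L.obj X) ≫
      (lm T L W Φ' (gm f hf')).app (L.obj X)
    rw [← cancel_mono (lc T L W Φ' ⟨a' + b⟩ X).hom, Category.assoc, Category.assoc, lm_app,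
      lcomp_app, lcomp_app]
    simp only [Category.assoc, Iso.inv_hom_id, Category.comp_id, Iso.inv_hom_id_assoc]
    rw [← Functor.map_comp_assoc, lm_app, Functor.map_comp_assoc,
      reassoc_of% (lc_nat T L W Φ' ⟨b⟩ ((T.Φ.map (gm f hf)).app X)),
      ← L.map_comp, ← L.map_comp, T.comp_nat1 a a' b f hf hf' X]
  exact congrArg (fun n => n.app G) key

/-- The lifted unit isomorphism. -/
noncomputable def lzero : Φ' ⟨0⟩ ≅ 𝟭 A' :=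
  letI : Localization.Lifting L W (𝟭 A ⋙ L) (𝟭 A') := ⟨NatIso.ofComponents (fun X => Iso.refl _)⟩
  Localization.liftNatIso L W (T.Φ.obj ⟨0⟩ ⋙ L) (𝟭 A ⋙ L) _ _ (Functor.isoWhiskerRight T.zero L)

/-- The action on the localization. -/
noncomputable def TA.lift : TA τ A' where
  Φ :=
    { obj := Φ'
      map := lm T L W Φ'
      map_id := lm_id T L W Φ'
      map_comp := lm_comp T L W Φ' }
  comp := lcomp T L W Φ'
  comp_nat := lcomp_nat T L W Φ'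
  comp_nat1 := lcomp_nat1 T L W Φ'
  zero := lzero T L W Φ'

end lift

end Run7.h354.BE
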